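import Pool.Agent.TH57.Thr.Defs

set_option autoImplicit false
set_option linter.style.haveILetI false
set_option linter.unusedSectionVars false

/-! Matrices over the integral group ring of a torsion-free group of operator norm less than
`3 / √2` come from cyclic subgroups. -/

namespace TH57.Thr

open Matrix SimpleGraph

variable {G : Type*} [Group G] {ι κ : Type*}

/-- left multiplication on the vertices -/
def mv (g : G) : Vx G ι κ → Vx G ι κ
  | Sum.inl p => Sum.inl (g * p.1, p.2)
  | Sum.inr q => Sum.inr (g * q.1, q.2)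

theorem mv_mul (g h : G) (v : Vx G ι κ) : mv (g * h) v = mv g (mv h v) := by
  rcases v with p | q <;> simp [mv, mul_assoc]

theorem mv_one (v : Vx G ι κ) : mv (1 : G) v = v := by
  rcases v with p | q <;> simp [mv]

theorem wt_mv (A : Matrix ι κ (MonoidAlgebra ℤ G)) (g : G) (u v : Vx G ι κ) :
    wt A (mv g u) (mv g v) = wt A u v := by
  rcases u with p | q <;> rcases v with p' | q' <;>
    simp [mv, wt, mul_assoc]

theorem adj_mv (A : Matrix ι κ (MonoidAlgebra ℤ G)) (g : G) (u v : Vx G ι κ)
    (h : (gr A).Adj u v) : (gr A).Adj (mv g u) (mv g v) := by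
  rw [gr_adj, wt_mv]; exact h

theorem reachable_mv (A : Matrix ι κ (MonoidAlgebra ℤ G)) (g : G) {u v : Vx G ι κ}
    (h : (gr A).Reachable u v) : (gr A).Reachable (mv g u) (mv g v) := by
  let f : gr A →g gr A := ⟨mv g, fun h => adj_mv A g _ _ h⟩
  exact h.map f

theorem mv_free (g : G) (v : Vx G ι κ) (h : mv g v = v) : g = 1 := by
  rcases v with p | q
  · have := congrArg (fun x => (Sum.elim Prod.fst Prod.fst x : G)) h
    simpa [mv] using this
  · have := congrArg (fun x => (Sum.elim Prod.fst Prod.fst x : G)) h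
    simpa [mv] using this

/-- the index of a vertex -/
def ix : Vx G ι κ → ι ⊕ κ
  | Sum.inl p => Sum.inl p.2
  | Sum.inr q => Sum.inr q.2

/-- the group element of a vertex -/
def ge : Vx G ι κ → G
  | Sum.inl p => p.1
  | Sum.inr q => q.1

/-- the base vertex of an index -/
def bs : ι ⊕ κ → Vx G ι κ
  | Sum.inl i => Sum.inl (1, i)
  | Sum.inr j => Sum.inr (1, j)

theorem mv_ge_bs (v : Vx G ι κ) : mv (ge v) (bs (ix v)) = v := by
  rcases v with p | q <;> simp [mv, ge, bs, ix]

/-- the stabiliser of the component of a vertex -/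
def stab (A : Matrix ι κ (MonoidAlgebra ℤ G)) (b : Vx G ι κ) : Subgroup G where
  carrier := {g | (gr A).Reachable b (mv g b)}
  mul_mem' := by
    intro g h hg hh
    change (gr A).Reachable b (mv (g * h) b)
    rw [mv_mul]
    exact SimpleGraph.Reachable.trans hg (reachable_mv A g hh)
  one_mem' := by
    change (gr A).Reachable b (mv 1 b)
    rw [mv_one]
  inv_mem' := by
    intro g hg
    change (gr A).Reachable b (mv g⁻¹ b)
    have := reachable_mv A g⁻¹ hg
    rw [← mv_mul, inv_mul_cancel, mv_one] at this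
    exact this.symm

theorem mem_stab (A : Matrix ι κ (MonoidAlgebra ℤ G)) (b : Vx G ι κ) (g : G) :
    g ∈ stab A b ↔ (gr A).Reachable b (mv g b) := Iff.rfl

section comp

variable (A : Matrix ι κ (MonoidAlgebra ℤ G)) (b : Vx G ι κ)

/-- the component -/
abbrev cp := (gr A).connectedComponentMk b

theorem mem_cp (v : Vx G ι κ) : v ∈ cp A b ↔ (gr A).Reachable b v := by
  change (gr A).connectedComponentMk v = (gr A).connectedComponentMk b ↔ _
  rw [SimpleGraph.ConnectedComponent.eq]
  exact ⟨fun h => h.symm, fun h => h.symm⟩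

/-- the action of the stabiliser on the component -/
@[implicit_reducible] noncomputable def act : MulAction (stab A b) (cp A b) where
  smul g v := ⟨mv g.1 v.1, by
    rw [mem_cp]
    have h1 : (gr A).Reachable b v.1 := (mem_cp A b _).1 v.2
    exact SimpleGraph.Reachable.trans g.2 (reachable_mv A g.1 h1)⟩
  one_smul v := Subtype.ext (mv_one v.1)
  mul_smul g h v := Subtype.ext (mv_mul g.1 h.1 v.1)

end comp

/-- degree bound -/
noncomputable def dg [Fintype ι] [Fintype κ] (A : Matrix ι κ (MonoidAlgebra ℤ G)) : ℕ :=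
  ∑ i, ∑ j, (A i j).coeff.support.card

theorem nbr_row [Fintype ι] [Fintype κ] (A : Matrix ι κ (MonoidAlgebra ℤ G)) (v : Vx G ι κ) :
    ∃ T : Finset (Vx G ι κ), (gr A).neighborSet v ⊆ T ∧ T.card ≤ dg A := by
  classical
  rcases v with ⟨g, i⟩ | ⟨k, j⟩
  · refine ⟨Finset.univ.biUnion (fun j => (A i j).coeff.support.image
      (fun h => (Sum.inr (g * h, j) : Vx G ι κ))), ?_, ?_⟩
    · intro v hv
      rcases v with p | ⟨k, j⟩
      · exact absurd rfl hv
      · rw [Finset.mem_coe, Finset.mem_biUnion]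
        refine ⟨j, Finset.mem_univ _, ?_⟩
        rw [Finset.mem_image]
        refine ⟨g⁻¹ * k, ?_, by simp⟩
        rw [Finsupp.mem_support_iff]
        intro h0
        apply hv
        simp only [wt, h0, Int.cast_zero]
    · refine Finset.card_biUnion_le.trans ?_
      refine (Finset.sum_le_sum fun j _ => Finset.card_image_le).trans ?_
      unfold dg
      exact Finset.single_le_sum (f := fun i => ∑ j, (A i j).coeff.support.card)
        (fun _ _ => Nat.zero_le _) (Finset.mem_univ i)
  · refine ⟨Finset.univ.biUnion (fun i => (A i j).coeff.support.image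
      (fun h => (Sum.inl (k * h⁻¹, i) : Vx G ι κ))), ?_, ?_⟩
    · intro v hv
      rcases v with ⟨g, i⟩ | q
      · rw [Finset.mem_coe, Finset.mem_biUnion]
        refine ⟨i, Finset.mem_univ _, ?_⟩
        rw [Finset.mem_image]
        refine ⟨g⁻¹ * k, ?_, by simp⟩
        rw [Finsupp.mem_support_iff]
        intro h0
        apply hv
        simp only [wt, h0, Int.cast_zero]
      · exact absurd rfl hv
    · refine Finset.card_biUnion_le.trans ?_
      refine (Finset.sum_le_sum fun i _ => Finset.card_image_le).trans ?_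
      unfold dg
      refine Finset.sum_le_sum fun i _ => ?_
      exact Finset.single_le_sum (f := fun j => (A i j).coeff.support.card)
        (fun _ _ => Nat.zero_le _) (Finset.mem_univ j)

/-- The stabilisers of the components are cyclic. -/
theorem stab_cyclic [Fintype ι] [Fintype κ] [DecidableEq ι] [DecidableEq κ]
    (htf : ∀ g : G, ∀ n : ℕ, 0 < n → g ^ n = 1 → g = 1)
    (A : Matrix ι κ (MonoidAlgebra ℤ G)) (c : ℝ) (hc0 : 0 < c) (hc : c ^ 2 < 9 / 2)
    (hA : NormLE A c) (b : Vx G ι κ) : IsCyclic (stab A b) := by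
  classical
  letI := act A b
  set Γ := (cp A b).toSimpleGraph with hΓ
  have hconn : Γ.Connected := (cp A b).connected_toSimpleGraph
  have hadj : ∀ u v : cp A b, Γ.Adj u v ↔ (gr A).Adj u.1 v.1 := fun u v =>
    SimpleGraph.ConnectedComponent.toSimpleGraph_adj _ u.2 v.2
  -- no tripods
  obtain ⟨N, hN⟩ : ∃ N, ¬ HasTripod Γ N := by
    set t : ℝ := Real.sqrt (1 / 2) with ht
    have ht2 : t ^ 2 = 1 / 2 := Real.sq_sqrt (by norm_num)
    have ht0 : 0 < t := Real.sqrt_pos.2 (by norm_num)
    have h3t : c < 3 * t := by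
      have : c ^ 2 < (3 * t) ^ 2 := by rw [mul_pow, ht2]; linarith
      exact lt_of_pow_lt_pow_left₀ 2 (by positivity) this
    obtain ⟨N, hN⟩ := exists_pow_lt_of_lt_one (show 0 < (3 * t - c) / (3 * t) by
      apply div_pos (by linarith) (by positivity)) (show (1 / 2 : ℝ) < 1 by norm_num)
    refine ⟨N, fun hT => ?_⟩
    have key := tripod_norm (Γ := Γ) (fun u v => wt A u.1 v.1) (fun u v => wt_symm A _ _)
      (fun u v h => by
        by_contra h1
        exact h ((hadj u v).2 h1))
      (fun u v h => one_le_abs_wt A _ _ ((hadj u v).1 h)) c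
      (fun s f => by
        obtain ⟨F, hF⟩ : ∃ F : Vx G ι κ → ℝ, ∀ x : cp A b, F x.1 = f x :=
          ⟨fun v => if h : v ∈ cp A b then f ⟨v, h⟩ else 0, fun x => dif_pos x.2⟩
        have := quad_bound A c hc0 hA (s.map (Function.Embedding.subtype _)) F
        simp only [Finset.sum_map, Function.Embedding.subtype_apply, hF] at this
        exact this) N hT t ht0 ht2
    set y := (1 / 2 : ℝ) ^ N with hy
    have hy0 : 0 < y := by positivity
    have hy1 : y ≤ 1 := pow_le_one₀ (by norm_num) (by norm_num)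
    rw [lt_div_iff₀ (by positivity)] at hN
    nlinarith
  refine isCyclic_of_noTripod (S := stab A b) hconn (fun v => (Sum.isLeft v.1)) ?_ (dg A) ?_ N hN
    ?_ ?_ (Finset.univ.biUnion (fun p : ι ⊕ κ =>
      if h : ∃ v : cp A b, ix v.1 = p then {Classical.choose h} else ∅)) ?_ ?_
  · intro u v h
    rw [hadj] at h
    rcases u with ⟨p | q, hu⟩ <;> rcases v with ⟨p' | q', hv⟩
    · exact absurd rfl h
    · simp
    · simp
    · exact absurd rfl h
  · intro v
    obtain ⟨T, hT1, hT2⟩ := nbr_row A v.1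
    have hsub : (Subtype.val '' Γ.neighborSet v) ⊆ (T : Set (Vx G ι κ)) := by
      rintro _ ⟨u, hu, rfl⟩
      exact hT1 ((hadj v u).1 hu)
    have hfin : (Subtype.val '' Γ.neighborSet v).Finite := T.finite_toSet.subset hsub
    refine ⟨hfin.of_finite_image Subtype.val_injective.injOn, ?_⟩
    rw [← Set.ncard_image_of_injective _ Subtype.val_injective]
    exact (Set.ncard_le_ncard hsub T.finite_toSet).trans (by rw [Set.ncard_coe_finset]; exact hT2)
  · intro g u v h
    rw [hadj] at h ⊢
    exact adj_mv A g.1 _ _ h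
  · intro g v h
    exact Subtype.ext (mv_free g.1 v.1 (congrArg Subtype.val h))
  · intro v
    have hex : ∃ w : cp A b, ix w.1 = ix v.1 := ⟨v, rfl⟩
    set w := Classical.choose hex with hw
    have hwix : ix w.1 = ix v.1 := Classical.choose_spec hex
    have h1 : mv (ge v.1 * (ge w.1)⁻¹) w.1 = v.1 := by
      calc mv (ge v.1 * (ge w.1)⁻¹) w.1
          = mv (ge v.1 * (ge w.1)⁻¹) (mv (ge w.1) (bs (ix w.1))) := by rw [mv_ge_bs w.1]
        _ = v.1 := by rw [← mv_mul, inv_mul_cancel_right, hwix, mv_ge_bs]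
    have h2 : ge v.1 * (ge w.1)⁻¹ ∈ stab A b := by
      rw [mem_stab]
      have hb1 : (gr A).Reachable b v.1 := (mem_cp A b _).1 v.2
      have hb2 : (gr A).Reachable b w.1 := (mem_cp A b _).1 w.2
      have h3 := reachable_mv A (ge v.1 * (ge w.1)⁻¹) hb2
      rw [h1] at h3
      exact hb1.trans h3.symm
    refine ⟨⟨_, h2⟩, w, ?_, Subtype.ext h1⟩
    rw [Finset.mem_biUnion]
    refine ⟨ix v.1, Finset.mem_univ _, ?_⟩
    rw [dif_pos hex]
    exact Finset.mem_singleton_self _
  · intro g n hn h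
    exact Subtype.ext (htf g.1 n hn (by
      have := congrArg Subtype.val h
      simpa using this))

/-- The structure theorem. -/
theorem structure_thm [Fintype ι] [Fintype κ] [DecidableEq ι] [DecidableEq κ]
    (htf : ∀ g : G, ∀ n : ℕ, 0 < n → g ^ n = 1 → g = 1)
    (A : Matrix ι κ (MonoidAlgebra ℤ G)) (c : ℝ) (hc0 : 0 < c) (hc : c ^ 2 < 9 / 2)
    (hA : NormLE A c) :
    ∃ (ρ : ι ⊕ κ → ι ⊕ κ) (u : ι ⊕ κ → G) (C : ι ⊕ κ → Subgroup G),
      (∀ b, IsCyclic (C b)) ∧ ∀ i j h, (A i j).coeff h ≠ 0 →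
        ρ (Sum.inl i) = ρ (Sum.inr j) ∧
          u (Sum.inl i) * h * (u (Sum.inr j))⁻¹ ∈ C (ρ (Sum.inl i)) := by
  classical
  let st : Setoid (ι ⊕ κ) :=
    { r := fun p q => ∃ g : G, (gr A).Reachable (bs p) (mv g (bs q))
      iseqv := by
        refine ⟨fun p => ⟨1, by rw [mv_one]⟩, ?_, ?_⟩
        · rintro p q ⟨g, hg⟩
          refine ⟨g⁻¹, ?_⟩
          have := reachable_mv A g⁻¹ hg
          rw [← mv_mul, inv_mul_cancel, mv_one] at this
          exact this.symm
        · rintro p q r ⟨g, hg⟩ ⟨h, hh⟩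
          refine ⟨g * h, ?_⟩
          rw [mv_mul]
          exact hg.trans (reachable_mv A g hh) }
  let ρ : ι ⊕ κ → ι ⊕ κ := fun p => (Quotient.mk st p).out
  have hρ : ∀ p, ∃ g : G, (gr A).Reachable (bs (ρ p)) (mv g (bs p)) := fun p =>
    Quotient.exact (Quotient.out_eq (Quotient.mk st p))
  choose u hu using hρ
  refine ⟨ρ, u, fun b => stab A (bs b), fun b => stab_cyclic htf A c hc0 hc hA _, ?_⟩
  intro i j h hne
  have hadj : (gr A).Reachable (bs (Sum.inl i)) (mv h (bs (Sum.inr j))) := by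
    apply SimpleGraph.Adj.reachable
    rw [gr_adj]
    simp only [bs, mv, wt]
    simpa using hne
  have heq : ρ (Sum.inl i) = ρ (Sum.inr j) := by
    have : Quotient.mk st (Sum.inl i) = Quotient.mk st (Sum.inr j) := Quotient.sound ⟨h, hadj⟩
    simp only [ρ, this]
  refine ⟨heq, ?_⟩
  rw [mem_stab]
  have h1 := hu (Sum.inl i)
  have h2 := reachable_mv A (u (Sum.inl i)) hadj
  have h3 := hu (Sum.inr j)
  rw [← heq] at h3
  have h4 := reachable_mv A (u (Sum.inl i) * h * (u (Sum.inr j))⁻¹) h3
  have e : mv (u (Sum.inl i) * h * (u (Sum.inr j))⁻¹) (mv (u (Sum.inr j)) (bs (Sum.inr j)))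
      = mv (u (Sum.inl i)) (mv h (bs (Sum.inr j) : Vx G ι κ)) := by
    rw [← mv_mul, ← mv_mul]
    congr 1
    group
  rw [e] at h4
  exact (h1.trans h2).trans h4.symm

end TH57.Thr
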