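import Pool.Agent.TH57.Thr.BHS
import Pool.Agent.TH57.Thr.Struct

set_option autoImplicit false
set_option linter.style.haveILetI false
set_option linter.unusedSectionVars false

/-! Invertible matrices over `ℤΓ` of small norm are trivial in the Whitehead group. -/

namespace TH57.Thr

open Matrix Multiplicative
open scoped commutatorElement

section perm

variable {R : Type} [Ring R] {κ μ : Type} [Fintype κ] [DecidableEq κ] [Fintype μ] [DecidableEq μ]

/-- permutation matrices as units -/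
def pu (e : κ ≃ κ) : (Matrix κ κ R)ˣ where
  val := (1 : Matrix κ κ R).submatrix e id
  inv := (1 : Matrix κ κ R).submatrix id e
  val_inv := by
    rw [← Matrix.submatrix_mul _ _ e id e Function.bijective_id, Matrix.one_mul,
      Matrix.submatrix_one_equiv]
  inv_val := by
    rw [Matrix.submatrix_mul_equiv, Matrix.one_mul, Matrix.submatrix_id_id]

theorem re_eq (e : κ ≃ κ) (x : (Matrix κ κ R)ˣ) :
    Units.map (re e) x = pu e * x * (pu e)⁻¹ := by
  apply Units.ext
  change (x : Matrix κ κ R).submatrix e e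
    = (1 : Matrix κ κ R).submatrix e id * (x : Matrix κ κ R) * (1 : Matrix κ κ R).submatrix id e
  rw [← Matrix.submatrix_id_id (x : Matrix κ κ R), ← Matrix.submatrix_mul _ _ e id id
    Function.bijective_id, Matrix.one_mul, ← Matrix.submatrix_mul _ _ e id e
    Function.bijective_id, Matrix.mul_one, Matrix.submatrix_id_id]

theorem HH_form (U : Subgroup Rˣ) (i₀ : κ) (x : (Matrix κ κ R)ˣ) (hx : x ∈ HH U κ) :
    ∃ u ∈ U, ∃ c ∈ commutator (Matrix κ κ R)ˣ, x = Units.map (dgm i₀) u * c := by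
  have h1 : HH U κ ≤ (U.map (Units.map (dgm i₀))) ⊔ commutator (Matrix κ κ R)ˣ := by
    apply sup_le le_sup_right
    rw [Subgroup.closure_le]
    rintro _ ⟨i, u, hu, rfl⟩
    have h2 : Units.map (dgm i) u = Units.map (re (Equiv.swap i i₀)) (Units.map (dgm i₀) u) := by
      apply Units.ext
      change dgm i (u : R) = re (Equiv.swap i i₀) (dgm i₀ (u : R))
      rw [re_dgm]
      congr 2
      simp
    have h3 : Units.map (dgm i) u = Units.map (dgm i₀) u
        * ⁅(Units.map (dgm i₀) u)⁻¹, pu (R := R) (Equiv.swap i i₀)⁆ := by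
      rw [h2, re_eq, commutatorElement_def]
      group
    rw [h3]
    apply mul_mem
    · exact Subgroup.mem_sup_left (Subgroup.mem_map_of_mem _ hu)
    · apply Subgroup.mem_sup_right
      rw [commutator_def]
      exact Subgroup.commutator_mem_commutator (Subgroup.mem_top _) (Subgroup.mem_top _)
  have h2 := h1 hx
  rw [Subgroup.mem_sup_of_normal_right] at h2
  obtain ⟨_, ⟨u, hu, rfl⟩, c, hc, rfl⟩ := h2
  exact ⟨u, hu, c, hc, rfl⟩

end perm

/-- the form of the frozen statement -/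
theorem TT_frozen {Γ : Type} [Group Γ] (n : ℕ)
    (A : (Matrix (Fin n) (Fin n) (MonoidAlgebra ℤ Γ))ˣ) (h : TT (TU Γ) A) :
    ∃ (m : ℕ) (g : Γ) (ε : ℤˣ)
      (C : (Matrix (Fin n ⊕ Fin (m + 1)) (Fin n ⊕ Fin (m + 1)) (MonoidAlgebra ℤ Γ))ˣ),
      C ∈ commutator (Matrix (Fin n ⊕ Fin (m + 1)) (Fin n ⊕ Fin (m + 1))
              (MonoidAlgebra ℤ Γ))ˣ ∧
      Matrix.fromBlocks (↑A : Matrix (Fin n) (Fin n) (MonoidAlgebra ℤ Γ))
          (0 : Matrix (Fin n) (Fin (m + 1)) (MonoidAlgebra ℤ Γ))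
          (0 : Matrix (Fin (m + 1)) (Fin n) (MonoidAlgebra ℤ Γ))
          (1 : Matrix (Fin (m + 1)) (Fin (m + 1)) (MonoidAlgebra ℤ Γ)) =
        Matrix.diagonal (fun i : Fin n ⊕ Fin (m + 1) =>
            if i = Sum.inr (0 : Fin (m + 1)) then
              (MonoidAlgebra.single g ((ε : ℤ)) : MonoidAlgebra ℤ Γ) else 1) *
          (↑C : Matrix (Fin n ⊕ Fin (m + 1)) (Fin n ⊕ Fin (m + 1)) (MonoidAlgebra ℤ Γ)) := by
  obtain ⟨μ, i1, i2, h1⟩ := h
  have h2 := (TT_more (TU Γ) A μ h1 (Fin 1)).1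
  have hcard : Fintype.card (Fin (Fintype.card μ + 1)) = Fintype.card (μ ⊕ Fin 1) := by simp
  let e : Fin (Fintype.card μ + 1) ≃ (μ ⊕ Fin 1) := Fintype.equivOfCardEq hcard
  have h3 := re_mem (TU Γ) (Equiv.sumCongr (Equiv.refl (Fin n)) e) _ h2
  obtain ⟨u, ⟨g, ε, hu⟩, C, hC, h4⟩ := HH_form (TU Γ)
    (Sum.inr (0 : Fin (Fintype.card μ + 1))) _ h3
  refine ⟨Fintype.card μ, g, ε, C, hC, ?_⟩
  have h5 := congrArg Units.val h4
  rw [Units.val_mul] at h5
  convert h5 using 1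
  · ext (i | i) (j | j) <;> simp [stm, re, Matrix.one_apply]
  · congr 1
    change _ = dgm (Sum.inr (0 : Fin (Fintype.card μ + 1))) (u : MonoidAlgebra ℤ Γ)
    rw [dgm_apply, hu]
    congr 1
    funext i
    by_cases h : i = Sum.inr (0 : Fin (Fintype.card μ + 1))
    · subst h; simp
    · rw [if_neg h, Function.update_of_ne h]; rfl

section comap

variable {K Γ : Type} [Group K] [Group Γ] (f : K →* Γ) (hf : Function.Injective f)

theorem comap_mul (x : MonoidAlgebra ℤ K) (y : MonoidAlgebra ℤ Γ) :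
    MonoidAlgebra.comapDomain f hf (MonoidAlgebra.mapDomainRingHom ℤ f x * y)
      = x * MonoidAlgebra.comapDomain f hf y := by
  induction x using MonoidAlgebra.induction_linear with
  | zero => simp
  | add x1 x2 h1 h2 => rw [map_add, add_mul, MonoidAlgebra.comapDomain_add, h1, h2, add_mul]
  | single k z =>
    ext k'
    simp only [MonoidAlgebra.mapDomainRingHom_apply, MonoidAlgebra.mapDomain_single,
      MonoidAlgebra.coeff_comapDomain, Finsupp.comapDomain_apply,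
      MonoidAlgebra.coeff_single_mul_apply]
    rw [← map_inv, ← map_mul]

include hf in
/-- matrices with support in the range of an injective homomorphism -/
theorem lift_unit {κ : Type} [Fintype κ] [DecidableEq κ]
    (M : (Matrix κ κ (MonoidAlgebra ℤ Γ))ˣ)
    (hM : ∀ i j g, ((M : Matrix κ κ (MonoidAlgebra ℤ Γ)) i j).coeff g ≠ 0 → g ∈ f.range) :
    ∃ P Q : Matrix κ κ (MonoidAlgebra ℤ K), P * Q = 1 ∧
      mpm (MonoidAlgebra.mapDomainRingHom ℤ f) P = (M : Matrix κ κ (MonoidAlgebra ℤ Γ)) := by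
  let cm : Matrix κ κ (MonoidAlgebra ℤ Γ) → Matrix κ κ (MonoidAlgebra ℤ K) := fun X =>
    X.map (MonoidAlgebra.comapDomain f hf)
  have h1 : mpm (MonoidAlgebra.mapDomainRingHom ℤ f) (cm (M : Matrix κ κ (MonoidAlgebra ℤ Γ)))
      = (M : Matrix κ κ (MonoidAlgebra ℤ Γ)) := by
    ext1 i j
    change MonoidAlgebra.mapDomain f (MonoidAlgebra.comapDomain f hf
      ((M : Matrix κ κ (MonoidAlgebra ℤ Γ)) i j)) = _
    apply MonoidAlgebra.mapDomain_comapDomain
    intro g hg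
    exact hM i j g (Finsupp.mem_support_iff.1 hg)
  refine ⟨cm (M : Matrix κ κ (MonoidAlgebra ℤ Γ)), cm (↑M⁻¹ : Matrix κ κ (MonoidAlgebra ℤ Γ)),
    ?_, h1⟩
  have h2 : cm ((M : Matrix κ κ (MonoidAlgebra ℤ Γ)) * (↑M⁻¹ : Matrix κ κ (MonoidAlgebra ℤ Γ)))
      = cm (M : Matrix κ κ (MonoidAlgebra ℤ Γ)) * cm (↑M⁻¹ : Matrix κ κ (MonoidAlgebra ℤ Γ)) := by
    ext1 i j
    simp only [cm, Matrix.map_apply, Matrix.mul_apply]
    have hsum : ∀ (s : Finset κ) (F : κ → MonoidAlgebra ℤ Γ),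
        MonoidAlgebra.comapDomain f hf (∑ k ∈ s, F k)
          = ∑ k ∈ s, MonoidAlgebra.comapDomain f hf (F k) := fun s F =>
      map_sum (MonoidAlgebra.comapDomainAddMonoidHom (R := ℤ) f hf) F s
    rw [hsum]
    refine Finset.sum_congr rfl fun k _ => ?_
    rw [← comap_mul]
    congr 2
    exact (congrFun (congrFun h1 i) k).symm
  rw [← h2, Units.mul_inv]
  ext1 i j
  simp only [cm, Matrix.map_apply, Matrix.one_apply]
  split_ifs with h
  · have := comap_mul f hf (1 : MonoidAlgebra ℤ K) 1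
    rw [map_one, one_mul, one_mul] at this
    rw [this, MonoidAlgebra.one_def, MonoidAlgebra.one_def, ← map_one f,
      MonoidAlgebra.comapDomain_single_map]
  · exact MonoidAlgebra.comapDomain_zero _ _

end comap

section cyc

variable {Γ : Type} [Group Γ] (htf : ∀ g : Γ, ∀ k : ℕ, 0 < k → g ^ k = 1 → g = 1)

theorem TT_trivial {κ : Type} [Fintype κ] [DecidableEq κ]
    (M : (Matrix κ κ (MonoidAlgebra ℤ Γ))ˣ)
    (hM : ∀ i j g, ((M : Matrix κ κ (MonoidAlgebra ℤ Γ)) i j).coeff g ≠ 0 → g = 1) :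
    TT (TU Γ) M := by
  let au : MonoidAlgebra ℤ Γ →+* ℤ := (MonoidAlgebra.lift ℤ ℤ Γ 1).toRingHom
  have h1 : M = Units.map (mpm (Int.castRingHom (MonoidAlgebra ℤ Γ)))
      (Units.map (mpm au) M) := by
    apply Units.ext
    ext1 i j
    change (M : Matrix κ κ (MonoidAlgebra ℤ Γ)) i j
      = ((au ((M : Matrix κ κ (MonoidAlgebra ℤ Γ)) i j) : ℤ) : MonoidAlgebra ℤ Γ)
    have h2 : (M : Matrix κ κ (MonoidAlgebra ℤ Γ)) i j
        = MonoidAlgebra.single 1 (((M : Matrix κ κ (MonoidAlgebra ℤ Γ)) i j).coeff 1) := by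
      ext g
      by_cases hg : g = 1
      · subst hg; simp
      · have h3 : ((M : Matrix κ κ (MonoidAlgebra ℤ Γ)) i j).coeff g = 0 := by
          by_contra h
          exact hg (hM i j g h)
        simp [h3, hg]
    rw [h2]
    have h3 : ∀ z : ℤ, au (MonoidAlgebra.single 1 z) = z := fun z => by simp [au]
    rw [h3, int_single]
  rw [h1]
  exact TT_im _

include htf in
theorem TT_cyclic {κ : Type} [Fintype κ] [DecidableEq κ]
    (M : (Matrix κ κ (MonoidAlgebra ℤ Γ))ˣ) (C : Subgroup Γ) (hC : IsCyclic C)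
    (hM : ∀ i j g, ((M : Matrix κ κ (MonoidAlgebra ℤ Γ)) i j).coeff g ≠ 0 → g ∈ C) :
    TT (TU Γ) M := by
  rw [Subgroup.isCyclic_iff_exists_zpowers_eq_top] at hC
  obtain ⟨t, rfl⟩ := hC
  by_cases ht : t = 1
  · subst ht
    exact TT_trivial M fun i j g h => by simpa using hM i j g h
  let f : Multiplicative ℤ →* Γ := zpowersHom Γ t
  have hf : Function.Injective f := by
    rw [injective_iff_map_eq_one]
    intro k hk
    obtain ⟨k, rfl⟩ := ofAdd.surjective k
    have h1 : t ^ k = 1 := by simpa [f] using hk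
    by_contra h2
    have h3 : k ≠ 0 := fun h => h2 (by rw [h]; rfl)
    apply ht
    apply htf t k.natAbs (Int.natAbs_pos.2 h3)
    rcases Int.natAbs_eq k with h4 | h4
    · rw [h4, _root_.zpow_natCast] at h1; exact h1
    · rw [h4, _root_.zpow_neg, _root_.zpow_natCast, inv_eq_one] at h1; exact h1
  obtain ⟨P, Q, hPQ, hP⟩ := lift_unit f hf M (fun i j g h => by
    obtain ⟨k, hk⟩ := Subgroup.mem_zpowers_iff.1 (hM i j g h)
    exact ⟨ofAdd k, by simpa [f] using hk⟩)
  have h4 : Q * P = 1 := mul_eq_one_comm.1 hPQ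
  have h5 : M = Units.map (mpm (MonoidAlgebra.mapDomainRingHom ℤ f)) ⟨P, Q, hPQ, h4⟩ :=
    Units.ext hP.symm
  rw [h5]
  refine TT_map (TU (Multiplicative ℤ)) (TU Γ) (MonoidAlgebra.mapDomainRingHom ℤ f) ?_ _
    (TT_La κ _)
  rintro u ⟨g, ε, hu⟩
  refine ⟨f g, ε, ?_⟩
  change MonoidAlgebra.mapDomain f (u : La) = _
  rw [hu, MonoidAlgebra.mapDomain_single]

include htf in
theorem TT_blocks : ∀ (N : ℕ) (κ : Type) [Fintype κ] [DecidableEq κ], Fintype.card κ ≤ N →
    ∀ (β : Type) (s : κ → β) (C : β → Subgroup Γ) (_ : ∀ b, IsCyclic (C b))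
      (M : (Matrix κ κ (MonoidAlgebra ℤ Γ))ˣ)
      (_ : ∀ i j g, ((M : Matrix κ κ (MonoidAlgebra ℤ Γ)) i j).coeff g ≠ 0 →
        s i = s j ∧ g ∈ C (s i)), TT (TU Γ) M := by
  classical
  intro N
  induction N with
  | zero =>
    intro κ _ _ hcard β s C hC M hM
    have : IsEmpty κ := Fintype.card_eq_zero_iff.1 (Nat.le_zero.1 hcard)
    have h1 : M = 1 := Units.ext (by ext i; exact isEmptyElim i)
    rw [h1]
    exact TT_one _
  | succ N ih =>
    intro κ _ _ hcard β s C hC M hM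
    rcases isEmpty_or_nonempty κ with he | ⟨⟨i₀⟩⟩
    · have h1 : M = 1 := Units.ext (by ext i; exact isEmptyElim i)
      rw [h1]
      exact TT_one _
    let e : {i // s i = s i₀} ⊕ {i // ¬ s i = s i₀} ≃ κ := Equiv.sumCompl _
    let M' := Units.map (re (R := MonoidAlgebra ℤ Γ) e) M
    have hM'v : ∀ p q, M'.val p q
        = (M : Matrix κ κ (MonoidAlgebra ℤ Γ)) (e p) (e q) := fun p q => rfl
    have hz : ∀ i j, s i ≠ s j → (M : Matrix κ κ (MonoidAlgebra ℤ Γ)) i j = 0 := by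
      intro i j hij
      ext g
      by_contra h
      exact hij (hM i j g h).1
    set X := M'.val.toBlocks₁₁ with hX
    set Z := M'.val.toBlocks₂₂ with hZ
    have hM'b : M'.val = fromBlocks X 0 0 Z := by
      rw [← Matrix.fromBlocks_toBlocks M'.val]
      congr 1
      · ext1 p q
        change (M : Matrix κ κ (MonoidAlgebra ℤ Γ)) p.1 q.1 = 0
        exact hz _ _ (by rw [p.2]; exact fun h => q.2 h.symm)
      · ext1 p q
        change (M : Matrix κ κ (MonoidAlgebra ℤ Γ)) p.1 q.1 = 0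
        exact hz _ _ (by rw [q.2]; exact p.2)
    set Y := M'⁻¹.val with hY
    have h1 : M'.val * Y = 1 := M'.mul_inv
    have h2 : Y * M'.val = 1 := M'.inv_mul
    rw [hM'b, ← Matrix.fromBlocks_toBlocks Y, Matrix.fromBlocks_multiply, ← Matrix.fromBlocks_one,
      Matrix.fromBlocks_inj] at h1 h2
    obtain ⟨a1, _, _, a4⟩ := h1
    obtain ⟨b1, _, _, b4⟩ := h2
    simp only [Matrix.zero_mul, Matrix.mul_zero, add_zero, zero_add] at a1 a4 b1 b4
    let x : (Matrix {i // s i = s i₀} {i // s i = s i₀} (MonoidAlgebra ℤ Γ))ˣ :=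
      ⟨X, Y.toBlocks₁₁, a1, b1⟩
    let z : (Matrix {i // ¬ s i = s i₀} {i // ¬ s i = s i₀} (MonoidAlgebra ℤ Γ))ˣ :=
      ⟨Z, Y.toBlocks₂₂, a4, b4⟩
    have hx : TT (TU Γ) x := by
      apply TT_cyclic htf x (C (s i₀)) (hC _)
      intro p q g hg
      have := (hM p.1 q.1 g hg).2
      rwa [p.2] at this
    have hz' : TT (TU Γ) z := by
      apply ih {i // ¬ s i = s i₀} ?_ β (fun p => s p.1) C hC z
      · intro p q g hg
        exact hM p.1 q.1 g hg
      · have h3 : Fintype.card {i // s i = s i₀} + Fintype.card {i // ¬ s i = s i₀}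
            = Fintype.card κ := by
          rw [← Fintype.card_sum]; exact Fintype.card_congr e
        have h4 : 0 < Fintype.card {i // s i = s i₀} := Fintype.card_pos_iff.2 ⟨⟨i₀, rfl⟩⟩
        omega
    have h5 : TT (TU Γ) M' := TT_tri (TU Γ) x z 0 M' hM'b hx hz'
    have h6 := TT_re (TU Γ) e.symm M' h5
    have h7 : M = Units.map (re e.symm) M' := by
      apply Units.ext
      ext1 i j
      change _ = (M : Matrix κ κ (MonoidAlgebra ℤ Γ)) (e (e.symm i)) (e (e.symm j))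
      rw [Equiv.apply_symm_apply, Equiv.apply_symm_apply]
    rw [h7]
    exact h6

theorem aug_perm {κ : Type} [Fintype κ] [DecidableEq κ] (B : (Matrix κ κ (MonoidAlgebra ℤ Γ))ˣ) :
    ∃ σ : Equiv.Perm κ, ∀ i, (B : Matrix κ κ (MonoidAlgebra ℤ Γ)) (σ i) i ≠ 0 := by
  let au : MonoidAlgebra ℤ Γ →+* ℤ := (MonoidAlgebra.lift ℤ ℤ Γ 1).toRingHom
  have h1 : IsUnit (Units.map (mpm (κ := κ) au) B : Matrix κ κ ℤ).det :=
    (Matrix.isUnit_iff_isUnit_det _).1 (Units.isUnit _)
  have h2 := h1.ne_zero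
  rw [Matrix.det_apply] at h2
  obtain ⟨σ, _, hσ⟩ := Finset.exists_ne_zero_of_sum_ne_zero h2
  refine ⟨σ, fun i h => hσ ?_⟩
  rw [Finset.prod_eq_zero (Finset.mem_univ i), smul_zero]
  change au ((B : Matrix κ κ (MonoidAlgebra ℤ Γ)) (σ i) i) = 0
  rw [h, map_zero]

/-- invertible diagonal matrices of group elements -/
noncomputable def dgu {κ : Type} [Fintype κ] [DecidableEq κ] (a : κ → Γ) :
    (Matrix κ κ (MonoidAlgebra ℤ Γ))ˣ where
  val := Matrix.diagonal fun i => MonoidAlgebra.single (a i) 1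
  inv := Matrix.diagonal fun i => MonoidAlgebra.single (a i)⁻¹ 1
  val_inv := by
    rw [Matrix.diagonal_mul_diagonal, ← Matrix.diagonal_one]
    congr 1
    funext i
    rw [MonoidAlgebra.single_mul_single, mul_inv_cancel, mul_one, MonoidAlgebra.one_def]
  inv_val := by
    rw [Matrix.diagonal_mul_diagonal, ← Matrix.diagonal_one]
    congr 1
    funext i
    rw [MonoidAlgebra.single_mul_single, inv_mul_cancel, mul_one, MonoidAlgebra.one_def]

include htf in
theorem TT_dgu {κ : Type} [Fintype κ] [DecidableEq κ] (a : κ → Γ) :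
    TT (TU Γ) (dgu a) := by
  apply TT_blocks htf _ κ le_rfl κ id (fun i => Subgroup.zpowers (a i))
    (fun b => inferInstance) (dgu a)
  intro i j g h
  change (Matrix.diagonal (fun i => MonoidAlgebra.single (a i) (1 : ℤ)) i j).coeff g ≠ 0 at h
  by_cases hij : i = j
  · subst hij
    refine ⟨rfl, ?_⟩
    rw [Matrix.diagonal_apply_eq] at h
    by_cases hg : a i = g
    · rw [← hg]; exact Subgroup.mem_zpowers _
    · exfalso; apply h
      simp [hg]
  · rw [Matrix.diagonal_apply_ne _ hij] at h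
    exact absurd rfl h

/-- **Small norm invertible matrices are stably trivial.** -/
theorem TT_small (htf : ∀ g : Γ, ∀ k : ℕ, 0 < k → g ^ k = 1 → g = 1)
    {κ : Type} [Fintype κ] [DecidableEq κ] (A : (Matrix κ κ (MonoidAlgebra ℤ Γ))ˣ)
    (c : ℝ) (hc0 : 0 < c) (hc : c ^ 2 < 9 / 2)
    (hA : NormLE (A : Matrix κ κ (MonoidAlgebra ℤ Γ)) c) : TT (TU Γ) A := by
  obtain ⟨ρ, u, C, hC, hst⟩ := structure_thm htf _ c hc0 hc hA
  let B : (Matrix κ κ (MonoidAlgebra ℤ Γ))ˣ := dgu (fun i => u (Sum.inl i)) * A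
    * (dgu (fun j => u (Sum.inr j)))⁻¹
  have hB : ∀ i j, (B : Matrix κ κ (MonoidAlgebra ℤ Γ)) i j
      = MonoidAlgebra.single (u (Sum.inl i)) 1 * (A : Matrix κ κ (MonoidAlgebra ℤ Γ)) i j
        * MonoidAlgebra.single (u (Sum.inr j))⁻¹ 1 := by
    intro i j
    change (Matrix.diagonal (fun i => MonoidAlgebra.single (u (Sum.inl i)) (1 : ℤ))
      * (A : Matrix κ κ (MonoidAlgebra ℤ Γ))
      * Matrix.diagonal (fun j => MonoidAlgebra.single (u (Sum.inr j))⁻¹ (1 : ℤ)) :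
        Matrix κ κ (MonoidAlgebra ℤ Γ)) i j = _
    rw [Matrix.mul_diagonal, Matrix.diagonal_mul]
  have hBc : ∀ i j g, ((B : Matrix κ κ (MonoidAlgebra ℤ Γ)) i j).coeff g ≠ 0 →
      ρ (Sum.inl i) = ρ (Sum.inr j) ∧ g ∈ C (ρ (Sum.inl i)) := by
    intro i j g hg
    rw [hB, MonoidAlgebra.coeff_mul_single_apply, MonoidAlgebra.coeff_single_mul_apply, one_mul,
      mul_one, inv_inv] at hg
    have h1 := hst i j _ hg
    refine ⟨h1.1, ?_⟩
    have h2 := h1.2
    have h3 : u (Sum.inl i) * ((u (Sum.inl i))⁻¹ * (g * u (Sum.inr j))) * (u (Sum.inr j))⁻¹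
        = g := by group
    rwa [h3] at h2
  obtain ⟨σ, hσ⟩ := aug_perm B
  have hlab : ∀ i, ρ (Sum.inl (σ i)) = ρ (Sum.inr i) := by
    intro i
    have h1 := hσ i
    by_contra h2
    apply h1
    ext g
    by_contra h3
    exact h2 (hBc _ _ g h3).1
  have hP : TT (TU Γ) (pu (R := MonoidAlgebra ℤ Γ) σ) := by
    have h1 : pu (R := MonoidAlgebra ℤ Γ) σ
        = Units.map (mpm (Int.castRingHom (MonoidAlgebra ℤ Γ))) (pu (R := ℤ) σ) := by
      apply Units.ext
      ext1 i j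
      change (1 : Matrix κ κ (MonoidAlgebra ℤ Γ)) (σ i) j
        = (((1 : Matrix κ κ ℤ) (σ i) j : ℤ) : MonoidAlgebra ℤ Γ)
      rw [Matrix.one_apply, Matrix.one_apply]
      split_ifs <;> simp
    rw [h1]
    exact TT_im _
  have hPB : TT (TU Γ) (pu (R := MonoidAlgebra ℤ Γ) σ * B) := by
    apply TT_blocks htf _ κ le_rfl _ (fun i => ρ (Sum.inr i)) C hC
    intro i j g hg
    have h1 : ((pu (R := MonoidAlgebra ℤ Γ) σ * B : (Matrix κ κ (MonoidAlgebra ℤ Γ))ˣ) :
        Matrix κ κ (MonoidAlgebra ℤ Γ)) i j = (B : Matrix κ κ (MonoidAlgebra ℤ Γ)) (σ i) j := by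
      change ((1 : Matrix κ κ (MonoidAlgebra ℤ Γ)).submatrix σ id
        * (B : Matrix κ κ (MonoidAlgebra ℤ Γ))) i j = _
      rw [← Matrix.submatrix_id_id (B : Matrix κ κ (MonoidAlgebra ℤ Γ)),
        ← Matrix.submatrix_mul _ _ σ id id Function.bijective_id, Matrix.one_mul,
        Matrix.submatrix_id_id]
      rfl
    rw [h1] at hg
    have h2 := hBc _ _ g hg
    rw [hlab] at h2
    exact h2
  have hA2 : A = (dgu (fun i => u (Sum.inl i)))⁻¹ * ((pu (R := MonoidAlgebra ℤ Γ) σ)⁻¹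
      * (pu (R := MonoidAlgebra ℤ Γ) σ * B)) * dgu (fun j => u (Sum.inr j)) := by
    simp only [B]; group
  rw [hA2]
  exact TT_mul _ _ _ (TT_mul _ _ _ (TT_inv _ _ (TT_dgu htf _))
    (TT_mul _ _ _ (TT_inv _ _ hP) hPB)) (TT_dgu htf _)

end cyc

end TH57.Thr
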