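import Pool.Agent.TH57.Thr.KOne

set_option autoImplicit false
set_option linter.style.haveILetI false
set_option linter.unusedSectionVars false

/-! Every finitely presented module over `ℤG` has a presentation matrix of norm close to
`3 / √2`. -/

namespace TH57.Thr

open Matrix

variable {G : Type} [Group G]

theorem vecMul_submatrix' {R K L K' L' : Type} [Ring R] [Fintype K] [Fintype K']
    (e : K' ≃ K) (e' : L' ≃ L) (A : Matrix K L R) (x : K' → R) :
    x ᵥ* (A.submatrix e e') = ((x ∘ e.symm) ᵥ* A) ∘ e' := by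
  funext j
  simp only [Matrix.vecMul, dotProduct, Function.comp_apply, Matrix.submatrix_apply]
  exact Fintype.sum_equiv e _ _ fun i => by simp

theorem NormLE_re3 {K L K' L' : Type} [Fintype K] [Fintype L] [Fintype K'] [Fintype L']
    (e : K' ≃ K) (e' : L' ≃ L) (A : Matrix K L (MonoidAlgebra ℤ G)) (c : ℝ) (hA : NormLE A c) :
    NormLE (A.submatrix e e') c := by
  intro x
  have h1 := hA (x ∘ e.symm)
  have h2 : normSq (x ∘ e.symm) = normSq x := by
    rw [normSq_eq, normSq_eq]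
    exact Fintype.sum_equiv e.symm _ _ fun _ => rfl
  have h3 : x ᵥ* toReal (A.submatrix e e') = ((x ∘ e.symm) ᵥ* toReal A) ∘ e' :=
    vecMul_submatrix' e e' (toReal A) x
  have h4 : normSq (((x ∘ e.symm) ᵥ* toReal A) ∘ e') = normSq ((x ∘ e.symm) ᵥ* toReal A) := by
    rw [normSq_eq, normSq_eq]
    exact Fintype.sum_equiv e' _ _ fun _ => rfl
  rw [h3, h4, ← h2]
  exact h1

theorem pres_red (P : Type) [AddCommGroup P] [Module (MonoidAlgebra ℤ G) P]
    (hP : Module.FinitePresentation (MonoidAlgebra ℤ G) P) (c : ℝ) (hc : 9 / 2 < c ^ 2) :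
    ∃ (m n : ℕ) (A : Matrix (Fin m) (Fin n) (MonoidAlgebra ℤ G)), NormLE A c ∧
      Nonempty (P ≃ₗ[MonoidAlgebra ℤ G]
        ((Fin n → MonoidAlgebra ℤ G) ⧸ LinearMap.range A.vecMulLinear)) := by
  obtain ⟨n, Ks, e0, hK⟩ := Module.FinitePresentation.exists_fin (MonoidAlgebra ℤ G) P
  obtain ⟨m, g, hg⟩ := Ks.fg_iff_exists_fin_linearMap.1 hK
  set A : Matrix (Fin m) (Fin n) (MonoidAlgebra ℤ G) := LinearMap.toMatrixRight' g with hA
  have hgA : A.vecMulLinear = g := LinearMap.toMatrixRight'.symm_apply_apply g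
  obtain ⟨q, iq1, iq2, X, F, hF, hq, hX⟩ := good_all hc A
  obtain ⟨u, hu, _⟩ := El_unit F hF
  have hF1 : F * (↑u⁻¹ : Matrix (Fin n ⊕ q) (Fin n ⊕ q) (MonoidAlgebra ℤ G)) = 1 := by
    rw [← hu, Units.mul_inv]
  have hF2 : (↑u⁻¹ : Matrix (Fin n ⊕ q) (Fin n ⊕ q) (MonoidAlgebra ℤ G)) * F = 1 := by
    rw [← hu, Units.inv_mul]
  set F' : Matrix (Fin n ⊕ q) (Fin n ⊕ q) (MonoidAlgebra ℤ G) := ↑u⁻¹ with hF'
  set M : Matrix (Fin m ⊕ q) (Fin n ⊕ q) (MonoidAlgebra ℤ G) := fromBlocks A X 0 1 with hM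
  have hN : NormLE (M * F) c := by
    intro x
    refine (hX x).trans ?_
    rw [normSq_sum x]
    have h2 := normSq_nonneg (x ∘ Sum.inl)
    nlinarith
  let e : Fin (m + Fintype.card q) ≃ Fin m ⊕ q :=
    finSumFinEquiv.symm.trans (Equiv.sumCongr (Equiv.refl _) (Fintype.equivFin q).symm)
  let e' : Fin (n + Fintype.card q) ≃ Fin n ⊕ q :=
    finSumFinEquiv.symm.trans (Equiv.sumCongr (Equiv.refl _) (Fintype.equivFin q).symm)
  refine ⟨m + Fintype.card q, n + Fintype.card q, (M * F).submatrix e e',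
    NormLE_re3 e e' _ c hN, ⟨?_⟩⟩
  let S := LinearMap.range A.vecMulLinear
  let Ψ : (Fin (n + Fintype.card q) → MonoidAlgebra ℤ G) →ₗ[MonoidAlgebra ℤ G]
      ((Fin n → MonoidAlgebra ℤ G) ⧸ S) :=
    S.mkQ ∘ₗ LinearMap.fst _ _ _ ∘ₗ
      (LinearEquiv.sumArrowLequivProdArrow (Fin n) q (MonoidAlgebra ℤ G)
        (MonoidAlgebra ℤ G)).toLinearMap ∘ₗ F'.vecMulLinear ∘ₗ
        (LinearEquiv.funCongrLeft (MonoidAlgebra ℤ G) (MonoidAlgebra ℤ G) e'.symm).toLinearMap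
  have hΨ : ∀ v, Ψ v = S.mkQ (((v ∘ e'.symm) ᵥ* F') ∘ Sum.inl) := fun v => rfl
  have hsurj : Function.Surjective Ψ := by
    intro a
    obtain ⟨a, rfl⟩ := Submodule.mkQ_surjective _ a
    refine ⟨(Sum.elim a 0 ᵥ* F) ∘ e', ?_⟩
    rw [hΨ]
    congr 1
    have h1 : ((Sum.elim a (0 : q → MonoidAlgebra ℤ G) ᵥ* F) ∘ e') ∘ e'.symm
        = Sum.elim a 0 ᵥ* F := by
      funext i; simp
    rw [h1, Matrix.vecMul_vecMul, hF1, Matrix.vecMul_one, Sum.elim_comp_inl]
  have hker : LinearMap.ker Ψ = LinearMap.range ((M * F).submatrix e e').vecMulLinear := by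
    ext v
    rw [LinearMap.mem_ker, hΨ]
    constructor
    · intro h
      rw [← LinearMap.mem_ker, Submodule.ker_mkQ] at h
      obtain ⟨x1, hx1⟩ := h
      set w := (v ∘ e'.symm) ᵥ* F' with hw
      have hx1' : x1 ᵥ* A = w ∘ Sum.inl := hx1
      set y := w ∘ Sum.inr - x1 ᵥ* X with hy
      have h2 : Sum.elim x1 y ᵥ* M = w := by
        rw [hM, Matrix.vecMul_fromBlocks, Sum.elim_comp_inl, Sum.elim_comp_inr, Matrix.vecMul_zero,
          add_zero, Matrix.vecMul_one, hx1', hy, add_sub_cancel, Sum.elim_comp_inl_inr]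
      refine ⟨Sum.elim x1 y ∘ e, ?_⟩
      rw [Matrix.vecMulLinear_apply, vecMul_submatrix']
      have h3 : (Sum.elim x1 y ∘ e) ∘ e.symm = Sum.elim x1 y := by
        funext i; simp
      rw [h3, ← Matrix.vecMul_vecMul, h2, hw, Matrix.vecMul_vecMul, hF2, Matrix.vecMul_one]
      funext i; simp
    · rintro ⟨x, rfl⟩
      rw [Matrix.vecMulLinear_apply, vecMul_submatrix']
      have h3 : (((x ∘ e.symm) ᵥ* (M * F)) ∘ e') ∘ e'.symm = (x ∘ e.symm) ᵥ* (M * F) := by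
        funext i; simp
      rw [h3, Matrix.vecMul_vecMul, Matrix.mul_assoc, hF1, Matrix.mul_one]
      have h4 : ((x ∘ e.symm) ᵥ* M) ∘ Sum.inl = ((x ∘ e.symm) ∘ Sum.inl) ᵥ* A := by
        conv_lhs => rw [← Sum.elim_comp_inl_inr (x ∘ e.symm)]
        rw [hM, Matrix.vecMul_fromBlocks, Sum.elim_comp_inl]
        simp
      rw [h4, ← LinearMap.mem_ker, Submodule.ker_mkQ]
      exact ⟨_, rfl⟩
  have hKS : Ks = S := by rw [← hg, ← hgA]
  exact (e0.trans (Submodule.quotEquivOfEq _ _ hKS)).trans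
    ((Submodule.quotEquivOfEq _ _ hker.symm).trans
      (LinearMap.quotKerEquivOfSurjective Ψ hsurj)).symm

end TH57.Thr
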