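import Pool.Agent.TH57.Thr.IntMat

set_option autoImplicit false
set_option linter.style.haveILetI false
set_option linter.unusedSectionVars false

/-! Invertible matrices over `ℤ[t, t⁻¹]` are stably trivial (Bass, Heller, Swan). -/

namespace TH57.Thr

open Matrix Multiplicative

/-- the trivial units `± g` -/
def TU (Γ : Type) [Group Γ] : Subgroup (MonoidAlgebra ℤ Γ)ˣ where
  carrier := {u | ∃ (g : Γ) (ε : ℤˣ), (u : MonoidAlgebra ℤ Γ) = MonoidAlgebra.single g (ε : ℤ)}
  mul_mem' := by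
    rintro u v ⟨g, ε, h1⟩ ⟨h, δ, h2⟩
    exact ⟨g * h, ε * δ, by rw [Units.val_mul, h1, h2, MonoidAlgebra.single_mul_single]; simp⟩
  one_mem' := ⟨1, 1, by simp [MonoidAlgebra.one_def]⟩
  inv_mem' := by
    rintro u ⟨g, ε, h1⟩
    refine ⟨g⁻¹, ε⁻¹, ?_⟩
    apply Units.inv_eq_of_mul_eq_one_left
    rw [h1, MonoidAlgebra.single_mul_single, inv_mul_cancel, MonoidAlgebra.one_def]
    congr 1
    exact ε.inv_mul

theorem mem_TU {Γ : Type} [Group Γ] (u : (MonoidAlgebra ℤ Γ)ˣ) :
    u ∈ TU Γ ↔ ∃ (g : Γ) (ε : ℤˣ), (u : MonoidAlgebra ℤ Γ) = MonoidAlgebra.single g (ε : ℤ) :=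
  Iff.rfl

section general

variable {Γ : Type} [Group Γ] {κ : Type} [Fintype κ] [DecidableEq κ]

/-- integer matrices -/
noncomputable def im : Matrix κ κ ℤ →+* Matrix κ κ (MonoidAlgebra ℤ Γ) :=
  RingHom.mapMatrix (Int.castRingHom (MonoidAlgebra ℤ Γ))

theorem int_single (z : ℤ) : ((z : ℤ) : MonoidAlgebra ℤ Γ) = MonoidAlgebra.single 1 z := by
  induction z using Int.induction_on with
  | zero => simp
  | succ z ih => push_cast; push_cast at ih; rw [ih, MonoidAlgebra.single_add]; rfl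
  | pred z ih => push_cast; push_cast at ih; rw [ih, MonoidAlgebra.single_sub]; rfl

theorem TT_im (g : (Matrix κ κ ℤ)ˣ) :
    TT (TU Γ) (Units.map (mpm (Int.castRingHom (MonoidAlgebra ℤ Γ))) g) := by
  refine TT_map ⊤ (TU Γ) (Int.castRingHom (MonoidAlgebra ℤ Γ)) ?_ g (TT_int _ κ rfl g)
  intro u _
  exact ⟨1, u, int_single _⟩

end general

/-- Laurent polynomials -/
abbrev La := MonoidAlgebra ℤ (Multiplicative ℤ)

/-- the variable -/
noncomputable def tt : La := MonoidAlgebra.single (ofAdd 1) 1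

/-- the variable as a unit -/
noncomputable def tu : Laˣ where
  val := tt
  inv := MonoidAlgebra.single (ofAdd (-1)) 1
  val_inv := by
    unfold tt
    rw [MonoidAlgebra.single_mul_single, MonoidAlgebra.one_def]; rfl
  inv_val := by
    unfold tt
    rw [MonoidAlgebra.single_mul_single, MonoidAlgebra.one_def]; rfl

section pencil

variable {κ : Type} [Fintype κ] [DecidableEq κ]

/-- the pencil `1 - e + t e` -/
noncomputable def Lp (e : Matrix κ κ ℤ) : Matrix κ κ La := im (1 - e) + tt • im e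

theorem Lp_conj (h : (Matrix κ κ ℤ)ˣ) (e : Matrix κ κ ℤ) :
    im (h : Matrix κ κ ℤ) * Lp e * im (↑h⁻¹ : Matrix κ κ ℤ)
      = Lp ((h : Matrix κ κ ℤ) * e * (↑h⁻¹ : Matrix κ κ ℤ)) := by
  unfold Lp
  have h1 : (1 : Matrix κ κ ℤ) - (h : Matrix κ κ ℤ) * e * (↑h⁻¹ : Matrix κ κ ℤ)
      = (h : Matrix κ κ ℤ) * (1 - e) * (↑h⁻¹ : Matrix κ κ ℤ) := by
    rw [mul_sub, sub_mul, mul_one, Units.mul_inv]
  rw [h1, map_mul, map_mul, map_mul, map_mul, mul_add, add_mul, Matrix.mul_smul,
    Matrix.smul_mul]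

theorem exists_eig [Nonempty κ] (e : Matrix κ κ ℤ) (K : ℕ) (h : (e * (1 - e)) ^ K = 0) :
    ∃ y : κ → ℤ, y ≠ 0 ∧ (y ᵥ* e = 0 ∨ y ᵥ* e = y) := by
  classical
  obtain ⟨i₀⟩ := ‹Nonempty κ›
  set q := e * (1 - e) with hq
  set x : κ → ℤ := Pi.single i₀ 1 with hx
  have hx0 : x ≠ 0 := by
    intro h0
    have := congrFun h0 i₀
    simp [hx] at this
  have hex : ∃ j, x ᵥ* q ^ j = 0 := ⟨K, by rw [h, Matrix.vecMul_zero]⟩
  have hj := Nat.find_spec hex
  have hjm : ∀ m, m < Nat.find hex → x ᵥ* q ^ m ≠ 0 := fun m hm => Nat.find_min hex hm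
  rcases hfind : Nat.find hex with _ | j
  · rw [hfind, pow_zero, Matrix.vecMul_one] at hj
    exact absurd hj hx0
  · rw [hfind] at hj hjm
    set y := x ᵥ* q ^ j with hy
    have hy0 : y ≠ 0 := hjm j (Nat.lt_succ_self j)
    have hyq : y ᵥ* q = 0 := by rw [hy, Matrix.vecMul_vecMul, ← pow_succ]; exact hj
    by_cases hye : y ᵥ* e = 0
    · exact ⟨y, hy0, Or.inl hye⟩
    · refine ⟨y ᵥ* e, hye, Or.inr ?_⟩
      rw [hq, ← Matrix.vecMul_vecMul, Matrix.vecMul_sub, Matrix.vecMul_one, sub_eq_zero] at hyq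
      exact hyq.symm

theorem tri_pow {R : Type} [Ring R] {μ : Type} [Fintype μ] [DecidableEq μ] (a : Matrix κ κ R)
    (c : Matrix μ κ R) (b : Matrix μ μ R) (K : ℕ) :
    ∃ c', (fromBlocks a 0 c b) ^ K = fromBlocks (a ^ K) 0 c' (b ^ K) := by
  induction K with
  | zero => exact ⟨0, by simp⟩
  | succ K ih =>
    obtain ⟨c', hc'⟩ := ih
    refine ⟨c' * a + b ^ K * c, ?_⟩
    rw [pow_succ, hc', Matrix.fromBlocks_multiply, pow_succ, pow_succ]
    simp

theorem pencil : ∀ (N : ℕ) (κ : Type) [Fintype κ] [DecidableEq κ], Fintype.card κ = N →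
    ∀ (e : Matrix κ κ ℤ) (K : ℕ), (e * (1 - e)) ^ K = 0 →
      ∃ u : (Matrix κ κ La)ˣ, (u : Matrix κ κ La) = Lp e ∧ TT (TU (Multiplicative ℤ)) u := by
  intro N
  induction N with
  | zero =>
    intro κ _ _ hN e K _
    have : IsEmpty κ := Fintype.card_eq_zero_iff.1 hN
    exact ⟨1, Subsingleton.elim _ _, TT_one _⟩
  | succ N ih =>
    intro κ _ _ hN e K hK
    have σ : κ ≃ Unit ⊕ Fin N := Fintype.equivOfCardEq (by rw [hN]; simp [add_comm])
    suffices hs : ∀ e : Matrix (Unit ⊕ Fin N) (Unit ⊕ Fin N) ℤ, (e * (1 - e)) ^ K = 0 →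
        ∃ u : (Matrix (Unit ⊕ Fin N) (Unit ⊕ Fin N) La)ˣ,
          (u : Matrix _ _ La) = Lp e ∧ TT (TU (Multiplicative ℤ)) u by
      obtain ⟨u, hu1, hu2⟩ := hs (re σ.symm e) (by
        have h1 : re σ.symm e * (1 - re σ.symm e) = re σ.symm (e * (1 - e)) := by
          rw [map_mul]
          congr 1
          ext i j
          simp [re, Matrix.one_apply]
        rw [h1, ← map_pow, hK]
        rfl)
      refine ⟨Units.map (re σ) u, ?_, TT_re _ σ u hu2⟩
      change re σ (u : Matrix _ _ La) = _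
      rw [hu1]
      ext1 i j
      simp [re, Lp, im, Matrix.one_apply]
    clear hK e
    intro e hK
    obtain ⟨y, hy0, hye⟩ := exists_eig e K hK
    obtain ⟨ε, hε, hyε⟩ : ∃ ε : ℤ, (ε = 0 ∨ ε = 1) ∧ y ᵥ* e = ε • y := by
      rcases hye with h | h
      · exact ⟨0, Or.inl rfl, by rw [h, zero_smul]⟩
      · exact ⟨1, Or.inr rfl, by rw [h, one_smul]⟩
    obtain ⟨h, hh, d, hd⟩ := row_reduce y (Sum.inl ())
    obtain ⟨hu, hu1, hu2⟩ := El_unit h hh
    have hd0 : d ≠ 0 := by
      rintro rfl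
      apply hy0
      have h1 : y ᵥ* h = 0 := by rw [hd]; simp
      have h2 : (y ᵥ* h) ᵥ* (↑hu⁻¹ : Matrix (Unit ⊕ Fin N) (Unit ⊕ Fin N) ℤ) = 0 := by
        rw [h1, Matrix.zero_vecMul]
      rw [← hu1, Matrix.vecMul_vecMul, Units.mul_inv, Matrix.vecMul_one] at h2
      exact h2
    set e' : Matrix (Unit ⊕ Fin N) (Unit ⊕ Fin N) ℤ :=
      (↑hu⁻¹ : Matrix (Unit ⊕ Fin N) (Unit ⊕ Fin N) ℤ) * e * (hu : Matrix _ _ ℤ) with he'
    have hrow : ∀ j, e' (Sum.inl ()) j = if j = Sum.inl () then ε else 0 := by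
      intro j
      have h1 : (y ᵥ* h) ᵥ* e' = ε • (y ᵥ* h) := by
        rw [he', ← hu1, ← Matrix.vecMul_vecMul, ← Matrix.vecMul_vecMul, Matrix.vecMul_vecMul y,
          Units.mul_inv, Matrix.vecMul_one, hyε, Matrix.smul_vecMul]
      rw [hd] at h1
      have h2 := congrFun h1 j
      have h3 : (Function.update (0 : Unit ⊕ Fin N → ℤ) (Sum.inl ()) d ᵥ* e') j
          = d * e' (Sum.inl ()) j := by
        simp only [Matrix.vecMul, dotProduct]
        rw [Finset.sum_eq_single (Sum.inl ())]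
        · rw [Function.update_self]
        · intro k _ hk
          rw [Function.update_of_ne hk]; simp
        · intro hk; exact absurd (Finset.mem_univ _) hk
      rw [h3, Pi.smul_apply, smul_eq_mul] at h2
      by_cases hj : j = Sum.inl ()
      · rw [if_pos hj]
        subst hj
        rw [Function.update_self, mul_comm ε] at h2
        exact mul_left_cancel₀ hd0 h2
      · rw [if_neg hj]
        rw [Function.update_of_ne hj, Pi.zero_apply, mul_zero] at h2
        exact (mul_eq_zero.1 h2).resolve_left hd0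
    set c := e'.toBlocks₂₁ with hc
    set e'' := e'.toBlocks₂₂ with he''
    set E1 : Matrix Unit Unit ℤ := Matrix.of fun _ _ => ε with hE1
    have hblk : e' = fromBlocks E1 0 c e'' := by
      rw [← Matrix.fromBlocks_toBlocks e']
      congr 1
      · ext i j
        simp only [toBlocks₁₁, Matrix.of_apply]
        rw [show i = () from rfl, hrow, if_pos rfl]
        rfl
      · ext i j
        simp only [toBlocks₁₂, Matrix.of_apply, Matrix.zero_apply]
        rw [show i = () from rfl, hrow, if_neg Sum.inr_ne_inl]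
    have hq' : (e' * (1 - e')) ^ K = 0 := by
      have h1 : e' * (1 - e') = (↑hu⁻¹ : Matrix (Unit ⊕ Fin N) (Unit ⊕ Fin N) ℤ) * (e * (1 - e))
          * (hu : Matrix _ _ ℤ) := by
        have h2 : 1 - e' = (↑hu⁻¹ : Matrix (Unit ⊕ Fin N) (Unit ⊕ Fin N) ℤ) * (1 - e)
            * (hu : Matrix _ _ ℤ) := by
          rw [he', mul_sub, sub_mul, mul_one, Units.inv_mul]
        rw [h2, he']
        simp only [mul_assoc]
        rw [← mul_assoc (hu : Matrix (Unit ⊕ Fin N) (Unit ⊕ Fin N) ℤ)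
          (↑hu⁻¹ : Matrix (Unit ⊕ Fin N) (Unit ⊕ Fin N) ℤ), Units.mul_inv, one_mul]
      rw [h1, Units.conj_pow', hK, mul_zero, zero_mul]
    have hq'' : (e'' * (1 - e'')) ^ K = 0 := by
      have h1 : e' * (1 - e') = fromBlocks (E1 * (1 - E1))
          0 (c * (1 - E1) + e'' * -c) (e'' * (1 - e'')) := by
        have h2 : 1 - e' = fromBlocks (1 - E1) 0 (-c) (1 - e'') := by
          rw [hblk]
          ext (i | i) (j | j) <;> simp [Matrix.one_apply]
        rw [h2, hblk, Matrix.fromBlocks_multiply]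
        simp
      obtain ⟨c', hc'⟩ := tri_pow (E1 * (1 - E1)) (c * (1 - E1) + e'' * -c) (e'' * (1 - e'')) K
      rw [← h1, hq'] at hc'
      have h3 := congrArg Matrix.toBlocks₂₂ hc'
      rw [Matrix.toBlocks_fromBlocks₂₂] at h3
      rw [← h3]
      rfl
    obtain ⟨u'', hu''1, hu''2⟩ := ih (Fin N) (by simp) e'' K hq''
    obtain ⟨a, ha1, ha2⟩ : ∃ a : (Matrix Unit Unit La)ˣ,
        (a : Matrix Unit Unit La) = Lp E1 ∧ TT (TU (Multiplicative ℤ)) a := by
      rcases hε with rfl | rfl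
      · refine ⟨1, ?_, TT_one _⟩
        ext1 i j
        simp [Lp, im, Matrix.one_apply, hE1]
      · refine ⟨Units.map (dgm ()) tu, ?_, TT_of_mem _ _ (dgm_mem_HH _ _ _
          ((mem_TU tu).2 ⟨ofAdd 1, 1, rfl⟩))⟩
        ext1 i j
        simp [Lp, im, Matrix.one_apply, dgm_apply, tu, hE1]
    obtain ⟨x, hx⟩ := mk_tri a u'' (Lp e').toBlocks₂₁
    have hxL : (x : Matrix (Unit ⊕ Fin N) (Unit ⊕ Fin N) La) = Lp e' := by
      rw [hx, ha1, hu''1, ← Matrix.fromBlocks_toBlocks (Lp e')]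
      congr 1
      · ext1 i j
        simp [Lp, im, toBlocks₁₁, hblk, Matrix.one_apply]
      · ext1 i j
        simp [Lp, im, toBlocks₁₂, hblk, Matrix.one_apply]
      · ext1 i j
        simp [Lp, im, toBlocks₂₂, hblk, Matrix.one_apply]
    have hxT : TT (TU (Multiplicative ℤ)) x := TT_tri _ a u'' _ x hx ha2 hu''2
    set g := Units.map (mpm (Int.castRingHom La)) hu with hg
    refine ⟨g * x * g⁻¹, ?_, TT_conj _ x g hxT⟩
    have e1 : (g : Matrix (Unit ⊕ Fin N) (Unit ⊕ Fin N) La) = im (hu : Matrix _ _ ℤ) := rfl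
    have e2 : ((g⁻¹ : (Matrix (Unit ⊕ Fin N) (Unit ⊕ Fin N) La)ˣ) : Matrix _ _ La)
        = im (↑hu⁻¹ : Matrix (Unit ⊕ Fin N) (Unit ⊕ Fin N) ℤ) := by
      rw [hg, ← map_inv]; rfl
    rw [Units.val_mul, Units.val_mul, e1, e2, hxL, Lp_conj, he']
    congr 1
    simp only [← mul_assoc]
    rw [Units.mul_inv, one_mul, mul_assoc, Units.mul_inv, mul_one]

/-- the coefficient matrices -/
def cf (k : ℤ) (M : Matrix κ κ La) : Matrix κ κ ℤ := Matrix.of fun i j => (M i j).coeff (ofAdd k)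

theorem cf_add (k : ℤ) (M N : Matrix κ κ La) : cf k (M + N) = cf k M + cf k N := by
  ext i j; simp [cf]

theorem cf_im_mul (k : ℤ) (A : Matrix κ κ ℤ) (M : Matrix κ κ La) :
    cf k (im A * M) = A * cf k M := by
  ext i j
  simp only [cf, Matrix.of_apply, Matrix.mul_apply, im, RingHom.mapMatrix_apply, Matrix.map_apply,
    eq_intCast, MonoidAlgebra.coeff_sum, Finsupp.finsetSum_apply]
  refine Finset.sum_congr rfl fun l _ => ?_
  rw [int_single, MonoidAlgebra.coeff_single_mul_apply]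
  simp

theorem cf_smul (k : ℤ) (M : Matrix κ κ La) : cf k (tt • M) = cf (k - 1) M := by
  ext i j
  simp only [cf, Matrix.of_apply, Matrix.smul_apply, smul_eq_mul, tt]
  rw [MonoidAlgebra.coeff_single_mul_apply, one_mul]
  congr 1
  rw [← ofAdd_neg, ← ofAdd_add]
  congr 1
  ring

theorem cf_one (k : ℤ) : cf k (1 : Matrix κ κ La) = if k = 0 then 1 else 0 := by
  ext i j
  by_cases hk : k = 0
  · subst hk
    by_cases hij : i = j
    · subst hij
      simp [cf, MonoidAlgebra.one_def]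
    · simp [cf, hij]
  · by_cases hij : i = j
    · subst hij
      have : ¬ (1 : Multiplicative ℤ) = ofAdd k := by
        intro h
        apply hk
        have := congrArg toAdd h
        simpa using this.symm
      simp [cf, MonoidAlgebra.one_def, hk, this]
    · simp [cf, hij, hk]

theorem cf_bound (M : Matrix κ κ La) : ∃ K : ℕ, ∀ k : ℤ, K ≤ k.natAbs → cf k M = 0 := by
  classical
  refine ⟨(Finset.univ.sup fun p : κ × κ => (M p.1 p.2).coeff.support.sup
    fun z => (toAdd z).natAbs) + 1, fun k hk => ?_⟩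
  ext i j
  simp only [cf, Matrix.of_apply, Matrix.zero_apply]
  by_contra h
  have h1 : ofAdd k ∈ (M i j).coeff.support := Finsupp.mem_support_iff.2 h
  have h2 : k.natAbs ≤ (M i j).coeff.support.sup fun z => (toAdd z).natAbs :=
    Finset.le_sup (f := fun z => (toAdd z).natAbs) h1
  have h3 : ((M i j).coeff.support.sup fun z => (toAdd z).natAbs)
      ≤ Finset.univ.sup fun p : κ × κ => (M p.1 p.2).coeff.support.sup
        fun z => (toAdd z).natAbs :=
    Finset.le_sup (f := fun p : κ × κ => (M p.1 p.2).coeff.support.sup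
        fun z => (toAdd z).natAbs) (Finset.mem_univ (i, j))
  omega

theorem nilp (e : Matrix κ κ ℤ) (Y : Matrix κ κ La) (h : Lp e * Y = 1) :
    ∃ K, (e * (1 - e)) ^ K = 0 := by
  obtain ⟨K, hK⟩ := cf_bound Y
  have h0 : ∀ k : ℤ, (1 - e) * cf k Y + e * cf (k - 1) Y = if k = 0 then 1 else 0 := by
    intro k
    rw [← cf_one, ← h, Lp, add_mul, cf_add, cf_im_mul, Matrix.smul_mul, cf_smul, cf_im_mul]
  have hc : Commute e (1 - e) := (Commute.one_right e).sub_right (Commute.refl e)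
  have hc' : Commute (-e) (1 - e) := hc.neg_left
  have h1 : ∀ j : ℕ, (1 - e) ^ j * cf j Y = (-e) ^ j * cf 0 Y := by
    intro j
    induction j with
    | zero => simp
    | succ j ih =>
      have h2 := h0 ((j : ℤ) + 1)
      rw [if_neg (by omega), add_sub_cancel_right, add_eq_zero_iff_eq_neg, ← neg_mul] at h2
      rw [pow_succ, mul_assoc]
      push_cast
      rw [h2, ← mul_assoc, ← (hc'.pow_right j).eq, mul_assoc, ih, ← mul_assoc, ← pow_succ']
  have h2 : ∀ j : ℕ, (-e) ^ j * cf (-1 - j) Y = (1 - e) ^ j * cf (-1) Y := by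
    intro j
    induction j with
    | zero => simp
    | succ j ih =>
      have h3 := h0 (-1 - (j : ℤ))
      rw [if_neg (by omega), add_eq_zero_iff_eq_neg'] at h3
      have h3' : (-e) * cf (-1 - (j : ℤ) - 1) Y = (1 - e) * cf (-1 - (j : ℤ)) Y := by
        rw [neg_mul, h3, neg_neg]
      rw [pow_succ, mul_assoc]
      push_cast
      rw [show (-1 : ℤ) - (j + 1) = -1 - j - 1 by ring, h3', ← mul_assoc,
        (hc'.pow_left j).eq, mul_assoc, ih, ← mul_assoc, ← pow_succ']
  have h3 : (-e) ^ K * cf 0 Y = 0 := by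
    rw [← h1, hK K (by simp), mul_zero]
  have h4 : (1 - e) ^ K * cf (-1) Y = 0 := by
    rw [← h2, hK (-1 - K) (by omega), mul_zero]
  have h5 := h0 0
  rw [if_pos rfl] at h5
  refine ⟨K, ?_⟩
  have h6 : ((-e) * (1 - e)) ^ K = 0 := by
    rw [hc'.mul_pow]
    calc (-e) ^ K * (1 - e) ^ K = (-e) ^ K * (1 - e) ^ K * 1 := (mul_one _).symm
      _ = (-e) ^ K * (1 - e) ^ K * ((1 - e) * cf 0 Y + e * cf (0 - 1) Y) := by rw [h5]
      _ = (1 - e) ^ K * (1 - e) * ((-e) ^ K * cf 0 Y)
          + (-e) ^ K * e * ((1 - e) ^ K * cf (-1) Y) := by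
        have c1 : Commute ((-e) ^ K) ((1 - e) ^ K * (1 - e)) := by
          rw [← pow_succ]; exact (hc'.pow_left K).pow_right (K + 1)
        have c2 : Commute ((1 - e) ^ K) e := (hc.symm).pow_left K
        rw [mul_add]
        congr 1
        · rw [← mul_assoc, mul_assoc ((-e) ^ K), c1.eq, mul_assoc]
        · rw [← mul_assoc, mul_assoc ((-e) ^ K), c2.eq, ← mul_assoc, mul_assoc _ _ (cf _ Y)]
          rfl
      _ = 0 := by rw [h3, h4, mul_zero, mul_zero, add_zero]
  rw [neg_mul, neg_pow] at h6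
  rcases Nat.even_or_odd K with hK' | hK'
  · rw [hK'.neg_one_pow, one_mul] at h6; exact h6
  · rw [hK'.neg_one_pow, neg_mul, one_mul, neg_eq_zero] at h6; exact h6

/-- augmentation at `t = 1` -/
noncomputable def aug : La →+* ℤ := (MonoidAlgebra.lift ℤ ℤ (Multiplicative ℤ) 1).toRingHom

theorem aug_single (g : Multiplicative ℤ) (z : ℤ) : aug (MonoidAlgebra.single g z) = z := by
  simp [aug]

theorem TT_linear (u : (Matrix κ κ La)ˣ) (A B : Matrix κ κ ℤ)
    (hu : (u : Matrix κ κ La) = im A + tt • im B) : TT (TU (Multiplicative ℤ)) u := by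
  set g : (Matrix κ κ ℤ)ˣ := Units.map (mpm aug) u with hg
  have hgv : (g : Matrix κ κ ℤ) = A + B := by
    change mpm aug (u : Matrix κ κ La) = _
    rw [hu]
    ext i j
    simp [mpm, im, tt, aug_single]
  set gi := Units.map (mpm (Int.castRingHom La)) g with hgi
  set e : Matrix κ κ ℤ := (↑g⁻¹ : Matrix κ κ ℤ) * B with he
  have h1e : 1 - e = (↑g⁻¹ : Matrix κ κ ℤ) * A := by
    have h1 : (↑g⁻¹ : Matrix κ κ ℤ) * (A + B) = 1 := by rw [← hgv, Units.inv_mul]
    rw [mul_add] at h1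
    rw [he, ← h1, add_sub_cancel_right]
  set u' := gi⁻¹ * u with hu'
  have e2 : ((gi⁻¹ : (Matrix κ κ La)ˣ) : Matrix κ κ La) = im (↑g⁻¹ : Matrix κ κ ℤ) := by
    rw [hgi, ← map_inv]; rfl
  have hu'v : (u' : Matrix κ κ La) = Lp e := by
    rw [hu', Units.val_mul, e2, hu, mul_add, Matrix.mul_smul, ← map_mul, ← map_mul, ← h1e, ← he]
    rfl
  obtain ⟨K, hK⟩ := nilp e (↑u'⁻¹ : Matrix κ κ La) (by rw [← hu'v, Units.mul_inv])
  obtain ⟨v, hv1, hv2⟩ := pencil _ κ rfl e K hK
  have h3 : u' = v := Units.ext (by rw [hu'v, hv1])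
  have h4 : u = gi * v := by rw [← h3, hu']; group
  rw [h4]
  exact TT_mul _ _ _ (TT_im g) hv2

end pencil

/-- polynomial matrices of degree at most `d` -/
def Pol {κ : Type} (d : ℕ) (M : Matrix κ κ La) : Prop :=
  ∀ i j, ∀ k : ℤ, (M i j).coeff (ofAdd k) ≠ 0 → 0 ≤ k ∧ k ≤ d

theorem coeff_single_ofAdd (a b : ℤ) (z : ℤ) :
    (MonoidAlgebra.single (ofAdd a) z : La).coeff (ofAdd b) = if b = a then z else 0 := by
  by_cases h : b = a
  · subst h; simp
  · have : ¬ (ofAdd a : Multiplicative ℤ) = ofAdd b := fun h2 => h (ofAdd.injective h2).symm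
    simp [h, this]

theorem TT_pol : ∀ (d : ℕ) (κ : Type) [Fintype κ] [DecidableEq κ] (u : (Matrix κ κ La)ˣ),
    Pol d (u : Matrix κ κ La) → TT (TU (Multiplicative ℤ)) u := by
  have base : ∀ (κ : Type) [Fintype κ] [DecidableEq κ] (u : (Matrix κ κ La)ˣ),
      Pol 1 (u : Matrix κ κ La) → TT (TU (Multiplicative ℤ)) u := by
    intro κ _ _ u hu
    apply TT_linear u (cf 0 (u : Matrix κ κ La)) (cf 1 (u : Matrix κ κ La))
    ext1 i j
    ext k
    obtain ⟨k, rfl⟩ := ofAdd.surjective k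
    simp only [im, cf, RingHom.mapMatrix_apply, Matrix.add_apply, Matrix.map_apply,
      Matrix.of_apply, Matrix.smul_apply, smul_eq_mul, eq_intCast, int_single, tt,
      MonoidAlgebra.single_mul_single, one_mul, mul_one, MonoidAlgebra.coeff_add,
      Finsupp.add_apply]
    rw [show (1 : Multiplicative ℤ) = ofAdd 0 from rfl, coeff_single_ofAdd, coeff_single_ofAdd]
    by_cases h0 : k = 0
    · subst h0; simp
    · by_cases h1 : k = 1
      · subst h1; simp
      · rw [if_neg h0, if_neg h1, add_zero]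
        by_contra h
        have := hu i j k h
        push_cast at this
        omega
  intro d
  induction d with
  | zero =>
    intro κ _ _ u hu
    exact base κ u fun i j k h => by
      have := hu i j k h
      push_cast at this ⊢
      omega
  | succ d ih =>
    intro κ _ _ u hu
    rcases Nat.eq_zero_or_pos d with hd | hd
    · subst hd
      exact base κ u hu
    set A : Matrix κ κ La := (u : Matrix κ κ La) with hA
    let X : Matrix κ κ La := Matrix.of fun i j =>
      MonoidAlgebra.single (ofAdd (d : ℤ)) ((A i j).coeff (ofAdd ((d : ℤ) + 1)))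
    obtain ⟨w1, hw1, hw1'⟩ := El_unit
      (1 + (fromBlocks 0 (tt • 1) 0 0 : Matrix (κ ⊕ κ) (κ ⊕ κ) La))
      (el_unip (Finset.univ.filter fun v : κ ⊕ κ => v.isLeft) _ (by
        rintro (i | i) (j | j) h <;> simp at h ⊢))
    obtain ⟨w2, hw2, hw2'⟩ := El_unit
      (1 + (fromBlocks 0 0 (-X) 0 : Matrix (κ ⊕ κ) (κ ⊕ κ) La))
      (el_unip (Finset.univ.filter fun v : κ ⊕ κ => v.isRight) _ (by
        rintro (i | i) (j | j) h <;> simp at h ⊢))
    have hv : ((w1 * Units.map (stm κ) u * w2 : (Matrix (κ ⊕ κ) (κ ⊕ κ) La)ˣ) :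
        Matrix (κ ⊕ κ) (κ ⊕ κ) La) = fromBlocks (A - tt • X) (tt • 1) (-X) 1 := by
      rw [Units.val_mul, Units.val_mul, hw1, hw2]
      have e1 : ((Units.map (stm κ) u : (Matrix (κ ⊕ κ) (κ ⊕ κ) La)ˣ) :
          Matrix (κ ⊕ κ) (κ ⊕ κ) La) = fromBlocks A 0 0 1 := rfl
      rw [e1, ← Matrix.fromBlocks_one, Matrix.fromBlocks_add, Matrix.fromBlocks_add,
        Matrix.fromBlocks_multiply, Matrix.fromBlocks_multiply]
      simp [sub_eq_add_neg]
    have hT := ih (κ ⊕ κ) (w1 * Units.map (stm κ) u * w2) (by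
      rw [hv]
      rintro (i | i) (j | j) k hk
      · simp only [fromBlocks_apply₁₁, Matrix.sub_apply, Matrix.smul_apply, smul_eq_mul, X,
          Matrix.of_apply, tt, MonoidAlgebra.single_mul_single, one_mul,
          MonoidAlgebra.coeff_sub, Finsupp.sub_apply] at hk
        rw [← ofAdd_add, coeff_single_ofAdd] at hk
        by_cases h1 : k = 1 + d
        · subst h1
          rw [if_pos rfl, add_comm 1 (d : ℤ), sub_self] at hk
          exact absurd rfl hk
        · rw [if_neg h1, sub_zero] at hk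
          have := hu i j k hk
          push_cast at this
          omega
      · simp only [fromBlocks_apply₁₂, Matrix.smul_apply, smul_eq_mul, tt,
          Matrix.one_apply] at hk
        by_cases hij : i = j
        · rw [if_pos hij, mul_one, coeff_single_ofAdd] at hk
          by_cases h1 : k = 1
          · omega
          · rw [if_neg h1] at hk; exact absurd rfl hk
        · rw [if_neg hij, mul_zero] at hk
          exact absurd rfl hk
      · simp only [fromBlocks_apply₂₁, Matrix.neg_apply, X, Matrix.of_apply] at hk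
        rw [← MonoidAlgebra.single_neg, coeff_single_ofAdd] at hk
        by_cases h1 : k = d
        · omega
        · rw [if_neg h1] at hk; exact absurd rfl hk
      · simp only [fromBlocks_apply₂₂, Matrix.one_apply] at hk
        by_cases hij : i = j
        · rw [if_pos hij, MonoidAlgebra.one_def, show (1 : Multiplicative ℤ) = ofAdd 0 from rfl,
            coeff_single_ofAdd] at hk
          by_cases h1 : k = 0
          · omega
          · rw [if_neg h1] at hk; exact absurd rfl hk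
        · rw [if_neg hij] at hk
          exact absurd rfl hk)
    apply TT_unst (μ := κ)
    have h5 : Units.map (stm κ) u = w1⁻¹ * (w1 * Units.map (stm κ) u * w2) * w2⁻¹ := by group
    rw [h5]
    exact TT_mul _ _ _ (TT_mul _ _ _ (TT_inv _ _ (hw1' _)) hT) (TT_inv _ _ (hw2' _))

/-- **Bass–Heller–Swan**: the Whitehead group of the infinite cyclic group vanishes. -/
theorem TT_La (κ : Type) [Fintype κ] [DecidableEq κ] (u : (Matrix κ κ La)ˣ) :
    TT (TU (Multiplicative ℤ)) u := by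
  classical
  -- the scalar matrix `t`
  obtain ⟨v, hv1, hv2⟩ := pencil _ κ rfl (1 : Matrix κ κ ℤ) 1 (by simp)
  have hv : (v : Matrix κ κ La) = tt • 1 := by
    rw [hv1]; simp [Lp]
  obtain ⟨K, hK⟩ := cf_bound (u : Matrix κ κ La)
  have hpow : ∀ n : ℕ, TT (TU (Multiplicative ℤ)) (v ^ n) := by
    intro n
    induction n with
    | zero => rw [pow_zero]; exact TT_one _
    | succ n ih => rw [pow_succ]; exact TT_mul _ _ _ ih hv2
  have hcf : ∀ n : ℕ, ∀ k : ℤ, cf k ((v ^ n * u : (Matrix κ κ La)ˣ) : Matrix κ κ La)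
      = cf (k - n) (u : Matrix κ κ La) := by
    intro n
    induction n with
    | zero => intro k; simp
    | succ n ih =>
      intro k
      rw [pow_succ', mul_assoc, Units.val_mul, hv, Matrix.smul_mul, Matrix.one_mul, cf_smul, ih]
      congr 1
      push_cast
      ring
  have hT : TT (TU (Multiplicative ℤ)) (v ^ K * u) := by
    apply TT_pol (2 * K)
    intro i j k hk
    have h1 := hcf K k
    have h2 : cf (k - K) (u : Matrix κ κ La) ≠ 0 := by
      intro h3
      rw [h3] at h1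
      exact hk (congrFun (congrFun h1 i) j)
    have h3 : ¬ K ≤ (k - K).natAbs := fun h4 => h2 (hK _ h4)
    push_cast
    omega
  have h5 : u = (v ^ K)⁻¹ * (v ^ K * u) := by group
  rw [h5]
  exact TT_mul _ _ _ (TT_inv _ _ (hpow K)) hT

end TH57.Thr
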