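import Pool.Agent.TH57.Thr.KOne

set_option autoImplicit false
set_option linter.style.haveILetI false
set_option linter.unusedSectionVars false

/-! Invertible integer matrices are products of elementary matrices and signs. -/

namespace TH57.Thr

open Matrix

section gen

variable {R : Type} [Ring R] {κ μ : Type} [Fintype κ] [DecidableEq κ] [Fintype μ] [DecidableEq μ]

theorem vecMul_transv (x : κ → R) (i j : κ) (a : R) :
    x ᵥ* (1 + Matrix.single i j a) = Function.update x j (x j + x i * a) := by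
  rw [Matrix.vecMul_add, Matrix.vecMul_one]
  funext k
  by_cases h : k = j
  · subst h
    simp [Matrix.vecMul, dotProduct, Matrix.single_apply, ite_and]
  · have h' : ¬ j = k := fun h2 => h h2.symm
    simp [Matrix.vecMul, dotProduct, Matrix.single_apply, h, h']

/-- lower triangular blocks -/
theorem tri_unit (a : (Matrix κ κ R)ˣ) (b : Matrix μ μ R) (c : Matrix μ κ R)
    (x : (Matrix (κ ⊕ μ) (κ ⊕ μ) R)ˣ) (hx : (x : Matrix (κ ⊕ μ) (κ ⊕ μ) R) = fromBlocks ↑a 0 c b) :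
    ∃ b' : (Matrix μ μ R)ˣ, (b' : Matrix μ μ R) = b := by
  set y : Matrix (κ ⊕ μ) (κ ⊕ μ) R := ↑x⁻¹ with hy
  have h1 : (x : Matrix (κ ⊕ μ) (κ ⊕ μ) R) * y = 1 := by rw [hy]; exact x.mul_inv
  have h2 : y * (x : Matrix (κ ⊕ μ) (κ ⊕ μ) R) = 1 := by rw [hy]; exact x.inv_mul
  rw [hx, ← Matrix.fromBlocks_toBlocks y, Matrix.fromBlocks_multiply, ← Matrix.fromBlocks_one,
    Matrix.fromBlocks_inj] at h1
  rw [hx, ← Matrix.fromBlocks_toBlocks y, Matrix.fromBlocks_multiply, ← Matrix.fromBlocks_one,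
    Matrix.fromBlocks_inj] at h2
  obtain ⟨_, h12, _, h14⟩ := h1
  obtain ⟨_, _, _, h24⟩ := h2
  rw [Matrix.zero_mul, add_zero] at h12
  have h3 : y.toBlocks₁₂ = 0 := by
    have := congrArg (fun z => (↑a⁻¹ : Matrix κ κ R) * z) h12
    simp only [← Matrix.mul_assoc] at this
    rw [Units.inv_mul, Matrix.one_mul, Matrix.mul_zero] at this
    exact this
  rw [h3, Matrix.mul_zero, zero_add] at h14
  rw [Matrix.mul_zero, zero_add] at h24
  exact ⟨⟨b, y.toBlocks₂₂, h14, h24⟩, rfl⟩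

theorem mk_tri (a : (Matrix κ κ R)ˣ) (b : (Matrix μ μ R)ˣ) (c : Matrix μ κ R) :
    ∃ x : (Matrix (κ ⊕ μ) (κ ⊕ μ) R)ˣ,
      (x : Matrix (κ ⊕ μ) (κ ⊕ μ) R) = fromBlocks ↑a 0 c ↑b := by
  refine ⟨⟨fromBlocks ↑a 0 c ↑b,
    fromBlocks ↑a⁻¹ 0 (-((↑b⁻¹ : Matrix μ μ R) * c * (↑a⁻¹ : Matrix κ κ R))) ↑b⁻¹, ?_, ?_⟩, rfl⟩
  · rw [Matrix.fromBlocks_multiply, ← Matrix.fromBlocks_one]
    congr 1
    · simp
    · simp
    · rw [Matrix.mul_neg, ← Matrix.mul_assoc, ← Matrix.mul_assoc, Units.mul_inv, Matrix.one_mul,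
        add_neg_cancel]
    · simp
  · rw [Matrix.fromBlocks_multiply, ← Matrix.fromBlocks_one]
    congr 1
    · simp
    · simp
    · rw [Matrix.neg_mul, Matrix.mul_assoc, Matrix.mul_assoc, Units.inv_mul, Matrix.mul_one,
        neg_add_cancel]
    · simp

end gen

section int

variable {κ : Type} [Fintype κ] [DecidableEq κ]

/-- Row reduction over the integers. -/
theorem row_reduce (x : κ → ℤ) (i₀ : κ) :
    ∃ h ∈ El (R := ℤ) κ, ∃ d : ℤ, x ᵥ* h = Function.update (0 : κ → ℤ) i₀ d := by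
  classical
  have hne : {s : ℕ | ∃ h ∈ El (R := ℤ) κ, ∑ i, ((x ᵥ* h) i).natAbs = s}.Nonempty :=
    ⟨_, 1, one_mem _, rfl⟩
  obtain ⟨h, hh, hs⟩ := Nat.sInf_mem hne
  have hmin : ∀ h' ∈ El (R := ℤ) κ, ∑ i, ((x ᵥ* h) i).natAbs ≤ ∑ i, ((x ᵥ* h') i).natAbs := by
    intro h' hh'
    rw [hs]
    exact Nat.sInf_le ⟨h', hh', rfl⟩
  set y := x ᵥ* h with hy
  have hone : ∀ i j, i ≠ j → y i ≠ 0 → y j ≠ 0 → ¬ (y i).natAbs ≤ (y j).natAbs := by
    intro i j hij hi hj hle
    obtain ⟨a, ha⟩ : ∃ a : ℤ, (y j + y i * a).natAbs < (y j).natAbs := by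
      rcases lt_or_gt_of_ne hi with h1 | h1 <;> rcases lt_or_gt_of_ne hj with h2 | h2
      · exact ⟨-1, by omega⟩
      · exact ⟨1, by omega⟩
      · exact ⟨1, by omega⟩
      · exact ⟨-1, by omega⟩
    have h1 := hmin (h * (1 + Matrix.single i j a)) (mul_mem hh (el_transv i j hij a))
    have h2 : x ᵥ* (h * (1 + Matrix.single i j a)) = Function.update y j (y j + y i * a) := by
      rw [← Matrix.vecMul_vecMul, vecMul_transv]
    rw [h2] at h1
    have h3 : ∑ k, (Function.update y j (y j + y i * a) k).natAbs < ∑ k, (y k).natAbs := by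
      apply Finset.sum_lt_sum
      · intro k _
        by_cases hk : k = j
        · subst hk; simp only [Function.update_self]; exact ha.le
        · rw [Function.update_of_ne hk]
      · exact ⟨j, Finset.mem_univ _, by simp only [Function.update_self]; exact ha⟩
    omega
  have hone' : ∀ i j, y i ≠ 0 → y j ≠ 0 → i = j := by
    intro i j hi hj
    by_contra hij
    rcases le_total (y i).natAbs (y j).natAbs with h1 | h1
    · exact hone i j hij hi hj h1
    · exact hone j i (Ne.symm hij) hj hi h1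
  by_cases hz : ∀ i, i ≠ i₀ → y i = 0
  · refine ⟨h, hh, y i₀, ?_⟩
    funext k
    by_cases hk : k = i₀
    · subst hk; simp [hy]
    · rw [Function.update_of_ne hk]; exact hz k hk
  · push Not at hz
    obtain ⟨k, hk, hyk⟩ := hz
    have hy0 : ∀ i, i ≠ k → y i = 0 := fun i hi => by
      by_contra h1
      exact hi (hone' i k h1 hyk)
    refine ⟨h * (1 + Matrix.single k i₀ 1) * (1 + Matrix.single i₀ k (-1)),
      mul_mem (mul_mem hh (el_transv _ _ hk _)) (el_transv _ _ hk.symm _), y k, ?_⟩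
    rw [← Matrix.vecMul_vecMul, ← Matrix.vecMul_vecMul, ← hy, vecMul_transv, vecMul_transv]
    funext i
    by_cases h1 : i = k
    · subst h1
      simp [Function.update_of_ne hk, hy0 i₀ hk.symm]
    · rw [Function.update_of_ne h1]
      by_cases h2 : i = i₀
      · subst h2
        simp [hy0 i hk.symm]
      · rw [Function.update_of_ne h2, Function.update_of_ne h2, hy0 i h1]; rfl

theorem TT_unitMat {R : Type} [Ring R] (U : Subgroup Rˣ) (u : Rˣ) (hu : u ∈ U)
    (a : (Matrix Unit Unit R)ˣ) (ha : (a : Matrix Unit Unit R) () () = u) : TT U a := by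
  apply TT_of_mem
  have : a = Units.map (dgm ()) u := by
    apply Units.ext
    ext i j
    simp [dgm_apply, ← ha]
  rw [this]
  exact dgm_mem_HH U _ u hu

theorem TT_int : ∀ (N : ℕ) (κ : Type) [Fintype κ] [DecidableEq κ], Fintype.card κ = N →
    ∀ g : (Matrix κ κ ℤ)ˣ, TT ⊤ g := by
  intro N
  induction N with
  | zero =>
    intro κ _ _ hN g
    have : IsEmpty κ := Fintype.card_eq_zero_iff.1 hN
    have h1 : g = 1 := Units.ext (Subsingleton.elim _ _)
    rw [h1]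
    exact TT_one _
  | succ N ih =>
    intro κ _ _ hN g
    -- reindex
    have e : κ ≃ Unit ⊕ Fin N := Fintype.equivOfCardEq (by rw [hN]; simp [add_comm])
    suffices hs : ∀ g : (Matrix (Unit ⊕ Fin N) (Unit ⊕ Fin N) ℤ)ˣ, TT ⊤ g by
      have h1 := TT_re ⊤ e _ (hs (Units.map (re e.symm) g))
      convert h1 using 1
      apply Units.ext
      ext i j
      simp [re]
    intro g
    obtain ⟨h, hh, d, hd⟩ := row_reduce
      (fun j => (g : Matrix (Unit ⊕ Fin N) (Unit ⊕ Fin N) ℤ) (Sum.inl ()) j) (Sum.inl ())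
    obtain ⟨hu, hu1, hu2⟩ := El_unit h hh
    set x := g * hu with hx
    have hx1 : ∀ j, (x : Matrix (Unit ⊕ Fin N) (Unit ⊕ Fin N) ℤ) (Sum.inl ()) j = Function.update (0 : Unit ⊕ Fin N → ℤ) (Sum.inl ()) d j := by
      intro j
      rw [← hd, hx, Units.val_mul, hu1]
      rfl
    set a : Matrix Unit Unit ℤ := (x : Matrix (Unit ⊕ Fin N) (Unit ⊕ Fin N) ℤ).toBlocks₁₁ with ha
    set c : Matrix (Fin N) Unit ℤ := (x : Matrix (Unit ⊕ Fin N) (Unit ⊕ Fin N) ℤ).toBlocks₂₁ with hc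
    set b : Matrix (Fin N) (Fin N) ℤ := (x : Matrix (Unit ⊕ Fin N) (Unit ⊕ Fin N) ℤ).toBlocks₂₂ with hb
    have hxb : (x : Matrix (Unit ⊕ Fin N) (Unit ⊕ Fin N) ℤ) = fromBlocks a 0 c b := by
      rw [← Matrix.fromBlocks_toBlocks (x : Matrix (Unit ⊕ Fin N) (Unit ⊕ Fin N) ℤ)]
      congr 1
      ext i j
      have := hx1 (Sum.inr j)
      simp only [toBlocks₁₂, Matrix.of_apply, Matrix.zero_apply]
      rw [show i = () from rfl, this, Function.update_of_ne Sum.inr_ne_inl]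
      rfl
    -- the corner is a unit
    obtain ⟨au, hau⟩ : ∃ au : (Matrix Unit Unit ℤ)ˣ, (au : Matrix Unit Unit ℤ) = a := by
      have h1 : (x : Matrix (Unit ⊕ Fin N) (Unit ⊕ Fin N) ℤ) * (↑x⁻¹ : Matrix (Unit ⊕ Fin N) (Unit ⊕ Fin N) ℤ) = 1 := x.mul_inv
      rw [hxb, ← Matrix.fromBlocks_toBlocks (↑x⁻¹ : Matrix (Unit ⊕ Fin N) (Unit ⊕ Fin N) ℤ),
        Matrix.fromBlocks_multiply, ← Matrix.fromBlocks_one, Matrix.fromBlocks_inj] at h1
      have h2 := h1.1
      rw [Matrix.zero_mul, add_zero] at h2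
      exact ⟨⟨a, _, h2, mul_eq_one_comm.1 h2⟩, rfl⟩
    rw [← hau] at hxb
    obtain ⟨bu, hbu⟩ := tri_unit au b c x hxb
    rw [← hbu] at hxb
    have ha1 : IsUnit (a () ()) := by
      have h1 : (au : Matrix Unit Unit ℤ) * (↑au⁻¹ : Matrix Unit Unit ℤ) = 1 := au.mul_inv
      have h2 := congrFun (congrFun h1 ()) ()
      rw [Matrix.mul_apply, Finset.univ_unique, Finset.sum_singleton, Matrix.one_apply_eq, hau] at h2
      exact IsUnit.of_mul_eq_one _ h2
    obtain ⟨w, hw⟩ := ha1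
    have hTa : TT ⊤ au := TT_unitMat ⊤ w (Subgroup.mem_top _) au (by rw [hau, ← hw])
    have hTb : TT ⊤ bu := ih (Fin N) (by simp) bu
    have hTx : TT ⊤ x := TT_tri ⊤ au bu c x hxb hTa hTb
    have h3 : g = x * hu⁻¹ := by rw [hx]; group
    rw [h3]
    exact TT_mul ⊤ _ _ hTx (TT_inv ⊤ _ (hu2 ⊤))

end int

end TH57.Thr
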