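import Mathlib

set_option autoImplicit false
set_option linter.style.haveILetI false

/-! Every virtually cyclic group has a cyclic subgroup, trivial or infinite, whose index divides
the order of a finite subgroup. -/

namespace TH57.Thr

open Subgroup

theorem vc_index {V : Type*} [Group V] (s : V) (hs : (zpowers s).FiniteIndex) :
    ∃ (t : V) (F : Subgroup V), Finite F ∧ (∀ n : ℤ, t ^ n = 1 → t = 1 ∨ n = 0) ∧
      (zpowers t).FiniteIndex ∧ (zpowers t).index ∣ Nat.card F := by
  classical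
  rcases finite_or_infinite V with hV | hV
  · refine ⟨1, ⊤, inferInstance, fun n _ => Or.inl rfl, inferInstance, ?_⟩
    rw [zpowers_one_eq_bot, index_bot, Nat.card_congr (Subgroup.topEquiv (G := V)).toEquiv]
  set P := (zpowers s).normalCore with hP
  haveI : P.FiniteIndex := inferInstance
  have hPle : P ≤ zpowers s := normalCore_le _
  haveI hPn : P.Normal := normalCore_normal _
  obtain ⟨s0, hs0⟩ : ∃ s0 : V, zpowers s0 = P :=
    (P.isCyclic_iff_exists_zpowers_eq_top).1 (isCyclic_of_le hPle)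
  have hs0P : s0 ∈ P := by rw [← hs0]; exact mem_zpowers s0
  have hinf : ∀ n : ℤ, s0 ^ n = 1 → n = 0 := by
    intro n hn
    by_contra hn0
    have hc := P.card_mul_index
    rw [Nat.card_eq_zero_of_infinite (α := V)] at hc
    have hP0 : Nat.card P = 0 := (mul_eq_zero.1 hc).resolve_right FiniteIndex.index_ne_zero
    rw [← hs0, Nat.card_zpowers, orderOf_eq_zero_iff] at hP0
    exact hP0 (isOfFinOrder_iff_zpow_eq_one.2 ⟨n, hn0, hn⟩)
  have hinj : ∀ a b : ℤ, s0 ^ a = s0 ^ b → a = b := by
    intro a b h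
    have h1 : s0 ^ (a - b) = 1 := by rw [zpow_sub, h, mul_inv_cancel]
    have := hinf _ h1
    omega
  have hconj : ∀ g : V, g * s0 * g⁻¹ = s0 ∨ g * s0 * g⁻¹ = s0⁻¹ := by
    intro g
    have h1 : g * s0 * g⁻¹ ∈ P := hPn.conj_mem s0 hs0P g
    have h2 : g⁻¹ * s0 * g⁻¹⁻¹ ∈ P := hPn.conj_mem s0 hs0P g⁻¹
    rw [← hs0, mem_zpowers_iff] at h1 h2
    obtain ⟨a, ha⟩ := h1
    obtain ⟨b, hb⟩ := h2
    have h3 : s0 ^ (a * b) = s0 ^ (1 : ℤ) := by
      rw [zpow_mul, ha, conj_zpow, hb, zpow_one]
      group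
    have h4 := hinj _ _ h3
    rcases Int.mul_eq_one_iff_eq_one_or_neg_one.1 h4 with ⟨h5, _⟩ | ⟨h5, _⟩
    · left; rw [← ha, h5, zpow_one]
    · right; rw [← ha, h5, zpow_neg, zpow_one]
  -- the centralizer
  set C : Subgroup V := centralizer ({s0} : Set V) with hC
  have hmC : ∀ g : V, g ∈ C ↔ g * s0 * g⁻¹ = s0 := by
    intro g
    rw [hC, mem_centralizer_singleton_iff, mul_inv_eq_iff_eq_mul]
  have hCz : ∀ g ∈ C, ∀ k : ℤ, g * s0 ^ k = s0 ^ k * g := by
    intro g hg k
    have h1 := (hmC g).1 hg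
    have h2 : g * s0 ^ k * g⁻¹ = s0 ^ k := by rw [← conj_zpow, h1]
    rwa [mul_inv_eq_iff_eq_mul] at h2
  have hPC : P ≤ C := by
    intro x hx
    rw [← hs0, mem_zpowers_iff] at hx
    obtain ⟨k, rfl⟩ := hx
    rw [hmC, ((Commute.refl s0).zpow_left k).eq, mul_inv_cancel_right]
  haveI hCf : C.FiniteIndex := Subgroup.finiteIndex_of_le hPC
  have hPcen : P.subgroupOf C ≤ center C := by
    intro x hx
    rw [mem_subgroupOf, ← hs0, mem_zpowers_iff] at hx
    obtain ⟨k, hk⟩ := hx
    rw [mem_center_iff]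
    intro g
    apply Subtype.ext
    change (g : V) * x = x * g
    rw [← hk]
    exact hCz g g.2 k
  haveI : (P.subgroupOf C).FiniteIndex := inferInstance
  haveI : (center C).FiniteIndex := Subgroup.finiteIndex_of_le hPcen
  set n := (center C).index with hn
  set M := (P.subgroupOf C).index with hM
  have hn0 : n ≠ 0 := FiniteIndex.index_ne_zero
  have hM0 : M ≠ 0 := FiniteIndex.index_ne_zero
  set q := n * M with hq
  have hq0 : q ≠ 0 := Nat.mul_ne_zero hn0 hM0
  have hmulq : ∀ x y : C, (x * y) ^ q = x ^ q * y ^ q := by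
    intro x y
    have h1 : (x * y) ^ n = x ^ n * y ^ n := by
      have h2 := congrArg (fun z : center C => (z : C))
        (map_mul (MonoidHom.transferCenterPow C) x y)
      rw [MonoidHom.transferCenterPow_apply] at h2
      rw [h2, Subgroup.coe_mul, MonoidHom.transferCenterPow_apply,
        MonoidHom.transferCenterPow_apply]
    have h3 : Commute (x ^ n) (y ^ n) := by
      have h4 : (x ^ n : C) ∈ center C := by
        rw [← MonoidHom.transferCenterPow_apply]; exact (MonoidHom.transferCenterPow C x).2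
      exact ((mem_center_iff.1 h4) (y ^ n)).symm
    rw [hq, pow_mul, h1, h3.mul_pow, ← pow_mul, ← pow_mul]
  have hmulV : ∀ x ∈ C, ∀ y ∈ C, (x * y) ^ q = x ^ q * y ^ q := by
    intro x hx y hy
    exact congrArg Subtype.val (hmulq ⟨x, hx⟩ ⟨y, hy⟩)
  have hmemP : ∀ x ∈ C, x ^ q ∈ P := by
    intro x hx
    have h1 := Subgroup.pow_index_mem (P.subgroupOf C) ((⟨x, hx⟩ : C) ^ n)
    rw [mem_subgroupOf] at h1
    rw [hq, pow_mul]
    exact h1
  have hpz : ∀ x ∈ C, ∃ k : ℤ, s0 ^ k = x ^ q := by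
    intro x hx
    have := hmemP x hx
    rw [← hs0, mem_zpowers_iff] at this
    exact this
  let f : C →* V :=
    { toFun := fun x => (x : V) ^ q
      map_one' := by simp
      map_mul' := fun x y => hmulV x x.2 y y.2 }
  have hf : ∀ x : C, f x = (x : V) ^ q := fun _ => rfl
  -- the finite subgroup
  let F : Subgroup V :=
    { carrier := {y | y ∈ C ∧ y ^ q = 1}
      mul_mem' := by
        rintro a b ⟨ha, ha1⟩ ⟨hb, hb1⟩
        exact ⟨mul_mem ha hb, by rw [hmulV a ha b hb, ha1, hb1, mul_one]⟩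
      one_mem' := ⟨one_mem _, one_pow _⟩
      inv_mem' := by
        rintro a ⟨ha, ha1⟩
        exact ⟨inv_mem ha, by rw [inv_pow, ha1, inv_one]⟩ }
  have hF : ∀ y, y ∈ F ↔ y ∈ C ∧ y ^ q = 1 := fun _ => Iff.rfl
  have hzq : ∀ j : ℤ, (s0 ^ j) ^ q = 1 → j = 0 := by
    intro j h
    rw [← zpow_natCast, ← zpow_mul] at h
    have h1 := hinf _ h
    rcases mul_eq_zero.1 h1 with h2 | h2
    · exact h2
    · exact absurd (by exact_mod_cast h2) hq0
  haveI hFfin : Finite F := by
    haveI : Finite (V ⧸ P) := Subgroup.finite_quotient_of_finiteIndex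
    refine Finite.of_injective (fun y : F => (QuotientGroup.mk y.1 : V ⧸ P)) ?_
    intro a b hab
    simp only at hab
    rw [QuotientGroup.eq, ← hs0, mem_zpowers_iff] at hab
    obtain ⟨j, hj⟩ := hab
    have h1 : (a.1)⁻¹ * b.1 ∈ F := mul_mem (inv_mem a.2) b.2
    have h2 := ((hF _).1 h1).2
    rw [← hj] at h2
    have h3 := hzq j h2
    rw [h3, zpow_zero] at hj
    exact Subtype.ext (inv_mul_eq_one.1 hj.symm)
  -- the element
  have hrange : f.range ≤ P := by
    rintro _ ⟨x, rfl⟩
    exact hmemP x x.2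
  haveI : IsCyclic P := by rw [← hs0]; infer_instance
  obtain ⟨y0, hy0⟩ := (f.range.isCyclic_iff_exists_zpowers_eq_top).1 (isCyclic_of_le hrange)
  obtain ⟨t, ht⟩ : y0 ∈ f.range := by rw [← hy0]; exact mem_zpowers y0
  have ht' : (t : V) ^ q = y0 := ht
  obtain ⟨k, hk⟩ := hpz t t.2
  have hk0 : k ≠ 0 := by
    rintro rfl
    rw [zpow_zero] at hk
    have h1 : f ⟨s0, hPC hs0P⟩ ∈ zpowers y0 := by rw [hy0]; exact ⟨_, rfl⟩
    rw [← ht', ← hk, zpowers_one_eq_bot, mem_bot, hf] at h1
    have h2 : s0 ^ ((q : ℕ) : ℤ) = 1 := by rw [zpow_natCast]; exact h1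
    have := hinf _ h2
    exact hq0 (by exact_mod_cast this)
  have htinf : ∀ j : ℤ, (t : V) ^ j = 1 → j = 0 := by
    intro j hj
    have h1 : s0 ^ (k * j) = 1 := by
      rw [zpow_mul, hk, ← zpow_natCast, ← zpow_mul, mul_comm, zpow_mul, hj, one_zpow]
    rcases mul_eq_zero.1 (hinf _ h1) with h2 | h2
    · exact absurd h2 hk0
    · exact h2
  set T := zpowers (t : V) with hT
  have hTC : T ≤ C := by rw [hT, zpowers_le]; exact t.2
  -- the index in the centralizer
  have hrel : T.relIndex C = Nat.card F := by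
    unfold Subgroup.relIndex Subgroup.index
    symm
    refine Nat.card_congr (Equiv.ofBijective
      (fun y : F => (QuotientGroup.mk (⟨y.1, ((hF _).1 y.2).1⟩ : C) : C ⧸ T.subgroupOf C)) ⟨?_, ?_⟩)
    · intro a b hab
      simp only at hab
      rw [QuotientGroup.eq, mem_subgroupOf] at hab
      change (a.1)⁻¹ * b.1 ∈ T at hab
      rw [hT, mem_zpowers_iff] at hab
      obtain ⟨j, hj⟩ := hab
      have h1 : (a.1)⁻¹ * b.1 ∈ F := mul_mem (inv_mem a.2) b.2
      have h2 := ((hF _).1 h1).2
      rw [← hj, ← zpow_natCast, ← zpow_mul] at h2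
      have h3 := htinf _ h2
      rcases mul_eq_zero.1 h3 with h4 | h4
      · rw [h4, zpow_zero] at hj
        exact Subtype.ext (inv_mul_eq_one.1 hj.symm)
      · exact absurd (by exact_mod_cast h4) hq0
    · intro c
      induction c using QuotientGroup.induction_on with
      | H c =>
        have h1 : f c ∈ zpowers y0 := by rw [hy0]; exact ⟨_, rfl⟩
        rw [mem_zpowers_iff] at h1
        obtain ⟨j, hj⟩ := h1
        have h2 : ((c * t ^ (-j) : C) : V) ∈ F := by
          refine ⟨(c * t ^ (-j) : C).2, ?_⟩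
          rw [← hf, map_mul, map_zpow, ht, ← hj, zpow_neg, mul_inv_cancel]
        refine ⟨⟨_, h2⟩, ?_⟩
        simp only
        rw [QuotientGroup.eq, mem_subgroupOf]
        change ((c : V) * ((t ^ (-j) : C) : V))⁻¹ * c ∈ T
        rw [Subgroup.coe_zpow, hT, mem_zpowers_iff]
        exact ⟨j, by group⟩
  have hindex : T.index = Nat.card F * C.index := by
    rw [← Subgroup.relIndex_mul_index hTC, hrel]
  have hT0 : T.index ≠ 0 := by
    rw [hindex]
    exact Nat.mul_ne_zero Nat.card_pos.ne' FiniteIndex.index_ne_zero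
  by_cases htop : C = ⊤
  · refine ⟨t, F, hFfin, fun j hj => Or.inr (htinf j hj), ⟨hT0⟩, ?_⟩
    rw [hindex, htop, index_top, mul_one]
  · obtain ⟨x, hx⟩ : ∃ x, x ∉ C := by
      by_contra hcon
      push Not at hcon
      exact htop (eq_top_iff.2 fun y _ => hcon y)
    have hxs : x * s0 * x⁻¹ = s0⁻¹ := (hconj x).resolve_left fun h => hx ((hmC x).2 h)
    have hs2 : s0 ≠ s0⁻¹ := by
      intro h
      have : s0 ^ (2 : ℤ) = 1 := by
        rw [zpow_ofNat, pow_two]
        nth_rewrite 2 [h]
        exact mul_inv_cancel s0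
      have := hinf _ this
      omega
    have hCindex : C.index = 2 := by
      rw [index_eq_two_iff]
      refine ⟨x, fun b => ?_⟩
      have h1 : b * x * s0 * (b * x)⁻¹ = (b * s0 * b⁻¹)⁻¹ := by
        have : b * x * s0 * (b * x)⁻¹ = b * (x * s0 * x⁻¹) * b⁻¹ := by group
        rw [this, hxs]; group
      by_cases hb : b ∈ C
      · right
        refine ⟨hb, fun h => ?_⟩
        rw [hmC, h1, (hmC b).1 hb] at h
        exact hs2 h.symm
      · left
        refine ⟨?_, hb⟩
        rw [hmC, h1, (hconj b).resolve_left fun h => hb ((hmC b).2 h), inv_inv]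
    -- `F` is normal
    have hCn : ∀ v : V, ∀ y ∈ C, v * y * v⁻¹ ∈ C := by
      intro v y hy
      rw [hmC]
      have hy1 := hCz y hy
      have e1 : v * y * v⁻¹ * s0 * (v * y * v⁻¹)⁻¹
          = v * (y * (v⁻¹ * s0 * v⁻¹⁻¹) * y⁻¹) * v⁻¹ := by group
      rcases hconj v⁻¹ with h | h
      · rw [e1, h]
        have := hy1 1
        rw [zpow_one] at this
        rw [this, mul_inv_cancel_right]
        have h' : s0 = v * s0 * v⁻¹ := by
          calc s0 = v * (v⁻¹ * s0 * v⁻¹⁻¹) * v⁻¹ := by group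
            _ = _ := by rw [h]
        exact h'.symm
      · rw [e1, h]
        have := hy1 (-1)
        rw [zpow_neg, zpow_one] at this
        rw [this, mul_inv_cancel_right]
        have h' : s0 = v * s0⁻¹ * v⁻¹ := by
          calc s0 = v * (v⁻¹ * s0 * v⁻¹⁻¹) * v⁻¹ := by group
            _ = _ := by rw [h]
        exact h'.symm
    have hFn : ∀ v : V, ∀ y ∈ F, v * y * v⁻¹ ∈ F := by
      intro v y hy
      exact ⟨hCn v y hy.1, by rw [conj_pow, hy.2, mul_one, mul_inv_cancel]⟩
    have hx2 : x * x ∈ F := by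
      have h1 : x * x ∈ C := by
        rw [hmC]
        have : x * x * s0 * (x * x)⁻¹ = x * (x * s0 * x⁻¹) * x⁻¹ := by group
        rw [this, hxs]
        have : x * s0⁻¹ * x⁻¹ = (x * s0 * x⁻¹)⁻¹ := by group
        rw [this, hxs, inv_inv]
      refine ⟨h1, ?_⟩
      obtain ⟨j, hj⟩ := hpz _ h1
      have h2 : x * s0 ^ j * x⁻¹ = s0 ^ j := by
        rw [hj]
        have : x * (x * x) ^ q * x⁻¹ = (x * (x * x) * x⁻¹) ^ q := by rw [conj_pow]
        rw [this]
        congr 1
        group
      rw [← conj_zpow, hxs, inv_zpow', ] at h2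
      have h3 := hinj _ _ h2
      have h4 : j = 0 := by omega
      rw [← hj, h4, zpow_zero]
    have hxF : x ∉ F := fun h => hx h.1
    let F' : Subgroup V :=
      { carrier := {y | y ∈ F ∨ y * x ∈ F}
        mul_mem' := by
          rintro a b (ha | ha) (hb | hb)
          · exact Or.inl (mul_mem ha hb)
          · right; rw [mul_assoc]; exact mul_mem ha hb
          · right
            have : a * b * x = (a * x) * (x⁻¹ * b * x⁻¹⁻¹) := by group
            rw [this]
            exact mul_mem ha (hFn _ _ hb)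
          · left
            have : a * b = (a * x) * (x⁻¹ * (b * x) * x⁻¹⁻¹) * (x * x)⁻¹ := by group
            rw [this]
            exact mul_mem (mul_mem ha (hFn _ _ hb)) (inv_mem hx2)
        one_mem' := Or.inl (one_mem _)
        inv_mem' := by
          rintro a (ha | ha)
          · exact Or.inl (inv_mem ha)
          · right
            have : a⁻¹ * x = (x * x) * (x⁻¹ * (a * x)⁻¹ * x⁻¹⁻¹) := by group
            change a⁻¹ * x ∈ F
            rw [this]
            exact mul_mem hx2 (hFn _ _ (inv_mem ha)) }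
    have hF' : ∀ y, y ∈ F' ↔ y ∈ F ∨ y * x ∈ F := fun _ => Iff.rfl
    have hFF' : F ≤ F' := fun y hy => Or.inl hy
    have hidx : (F.subgroupOf F').index = 2 := by
      rw [index_eq_two_iff]
      refine ⟨⟨x, Or.inr hx2⟩, fun b => ?_⟩
      rw [mem_subgroupOf, mem_subgroupOf]
      by_cases hb : (b : V) ∈ F
      · right
        refine ⟨hb, fun h => hxF ?_⟩
        have h' : (b : V) * x ∈ F := h
        have : x = (b : V)⁻¹ * ((b : V) * x) := by group
        rw [this]
        exact mul_mem (inv_mem hb) h'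
      · left
        exact ⟨((hF' b).1 b.2).resolve_left hb, hb⟩
    have hcard : Nat.card F' = Nat.card F * 2 := by
      rw [← card_mul_index (F.subgroupOf F'), hidx,
        Nat.card_congr (Subgroup.subgroupOfEquivOfLe hFF').toEquiv]
    haveI : Finite F' := by
      apply Nat.finite_of_card_ne_zero
      rw [hcard]
      exact Nat.mul_ne_zero Nat.card_pos.ne' two_ne_zero
    refine ⟨t, F', inferInstance, fun j hj => Or.inr (htinf j hj), ⟨hT0⟩, ?_⟩
    rw [hindex, hCindex, hcard]

end TH57.Thr
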