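import Pool.Agent.TH57.Thr.Ati2
import Pool.Agent.TH57.Thr.VCI
import Pool.Agent.W649.ZL.Coord

set_option autoImplicit false
set_option linter.style.haveILetI false
set_option linter.unusedSectionVars false

/-! Kernel dimensions of matrices over group rings of virtually cyclic subgroups: the matrix is
tensored with a permutation representation, which multiplies the kernel dimension by the degree,
and restricted to a torsion-free cyclic subgroup. -/

namespace TH57.Thr.Ati

open Pool.Agent.W649.ZL Matrix

section cyc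

variable {G : Type} [Group G]

theorem cv_inj' (H : Subgroup G) (htf : ∀ g ∈ H, ∀ n : ℕ, 0 < n → g ^ n = 1 → g = 1)
    (hH : IsCyclic H) (x : MonoidAlgebra ℂ G) (hx : x ∈ SR H) (hx0 : x ≠ 0) (f : EE G Unit)
    (hf : ∀ u, cv x (fun v => f (v, ())) u = 0) : f = 0 := by
  have hs := supp_of_mem_SR H x hx
  rw [Subgroup.isCyclic_iff_exists_zpowers_eq_top] at hH
  obtain ⟨t, rfl⟩ := hH
  by_cases ht : t = 1
  · subst ht
    have h1 : x = MonoidAlgebra.single 1 (x.coeff 1) := by
      ext g
      by_cases hg : g = 1
      · subst hg; simp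
      · have h3 : x.coeff g = 0 := by
          by_contra h
          exact hg (by simpa using hs g h)
        simp [h3, hg]
    have h2 : x.coeff 1 ≠ 0 := by
      intro h
      apply hx0
      rw [h1, h]
      simp
    ext ⟨u, a⟩
    have := hf u
    rw [h1, cv_single, one_mul] at this
    exact (mul_eq_zero.1 this).resolve_left h2
  · have hno : ¬ IsOfFinOrder t := by
      intro h
      obtain ⟨n, hn, h1⟩ := isOfFinOrder_iff_pow_eq_one.1 h
      exact ht (htf t (Subgroup.mem_zpowers t) n hn h1)
    -- the inverted element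
    let α : G →₀ ℂ := x.coeff.mapDomain (fun g => g⁻¹)
    have hαv : ∀ g, α g = x.coeff g⁻¹ := by
      intro g
      have := Finsupp.mapDomain_apply (f := fun g : G => g⁻¹) inv_injective x.coeff g⁻¹
      rwa [inv_inv] at this
    have hα : α ≠ 0 := by
      intro h
      apply hx0
      ext g
      have := hαv g⁻¹
      rw [h, inv_inv] at this
      exact this.symm
    have hinj := cop_zpowers_injective t hno α hα (by
      intro g hg
      rw [Finsupp.mem_support_iff, hαv] at hg
      have := hs _ hg
      exact (Subgroup.inv_mem_iff _).1 this)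
    apply hinj
    rw [map_zero]
    ext ⟨u, a⟩
    rw [cop_apply]
    have h1 := hf u
    unfold cv at h1
    have h2 : ∑ k ∈ α.support, α k * f (k⁻¹ * u, ())
        = α.sum fun k c => c * f (k⁻¹ * u, ()) := rfl
    rw [h2]
    change (x.coeff.mapDomain (fun g => g⁻¹)).sum (fun k c => c * f (k⁻¹ * u, ())) = 0
    rw [Finsupp.sum_mapDomain_index (by simp) (by intros; ring)]
    simpa using h1

variable {K L : Type} [Fintype K] [Fintype L] [DecidableEq K] [DecidableEq L]

theorem comp_inj' (H : Subgroup G) (htf : ∀ g ∈ H, ∀ n : ℕ, 0 < n → g ^ n = 1 → g = 1)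
    (hH : IsCyclic H) (x : MonoidAlgebra ℂ G) (hx : x ∈ SR H) (hx0 : x ≠ 0) (F : EE G K) (k : K)
    (hf : ∀ u, cv x (fun v => F (v, k)) u = 0) (u : G) : F (u, k) = 0 := by
  have h1 : elem (I := Unit) (1 : G) () k F = 0 := by
    apply cv_inj' H htf hH x hx hx0
    intro u
    have h2 : (fun v => elem (I := Unit) (1 : G) () k F (v, ())) = fun v => F (v, k) := by
      funext v
      rw [elem_apply, if_pos rfl, inv_one, one_mul]
    rw [h2]
    exact hf u
  have h2 : elem (I := Unit) (1 : G) () k F (u, ()) = 0 := by rw [h1]; rfl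
  rw [elem_apply, if_pos rfl, inv_one, one_mul] at h2
  exact h2

/-- Integrality for matrices over torsion-free cyclic subgroups of an arbitrary group. -/
theorem kap_int' {β : Type} (r : K → β)
    (s : L → β) (C : β → Subgroup G) (htf : ∀ b, ∀ g ∈ C b, ∀ n : ℕ, 0 < n → g ^ n = 1 → g = 1)
    (hC : ∀ b, IsCyclic (C b)) :
    ∀ (N : ℕ) (B : Matrix K L (MonoidAlgebra ℂ G)),
      (∀ i j, B i j ∈ SR (C (r i))) → (∀ i j, B i j ≠ 0 → r i = s j) →
      (∃ T : Finset K, T.card ≤ N ∧ ∀ i, i ∉ T → ∀ j, B i j = 0) → ∃ d : ℤ, kap B = d := by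
  classical
  intro N
  induction N with
  | zero =>
    intro B _ _ hT
    obtain ⟨T, hT1, hT2⟩ := hT
    have hT0 : T = ∅ := Finset.card_eq_zero.1 (Nat.le_zero.1 hT1)
    have hB : B = 0 := by
      ext1 i j
      exact hT2 i (by rw [hT0]; exact Finset.notMem_empty _) j
    refine ⟨Fintype.card K, ?_⟩
    unfold kap
    have h1 : LinearMap.ker (Rop B : EE G K →ₗ[ℂ] EE G L) = ⊤ := by
      rw [eq_top_iff]
      intro F _
      change Rop B F = 0
      ext ⟨u, j⟩
      rw [Rop_apply, hB]
      simp [cv_zero]
    rw [h1, vd_top]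
    simp
  | succ N ih =>
    intro B hB1 hB2 hT
    obtain ⟨T, hT1, hT2⟩ := hT
    by_cases hall : ∀ i j, B i j = 0
    · exact ih B hB1 hB2 ⟨∅, by simp, fun i _ j => hall i j⟩
    push Not at hall
    obtain ⟨i₀, j₀, hp0⟩ := hall
    set p := B i₀ j₀ with hp
    have hlab := hB2 i₀ j₀ hp0
    have hpC : p ∈ SR (C (r i₀)) := hB1 i₀ j₀
    have hi₀T : i₀ ∈ T := by
      by_contra h
      exact hp0 (hT2 i₀ h j₀)
    let dd : K → MonoidAlgebra ℂ G := fun i => if i ≠ i₀ ∧ r i = r i₀ then p else 1
    let U : Matrix K K (MonoidAlgebra ℂ G) := fun i k =>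
      if i = k then dd i else if k = i₀ then -B i j₀ else 0
    have hUoff : ∀ i k, i ≠ k → k ≠ i₀ → U i k = 0 := by
      intro i k h1 h2
      simp only [U]
      rw [if_neg h1, if_neg h2]
    have hUd : ∀ i, U i i = dd i := fun i => by simp [U]
    have hU0 : ∀ i, i ≠ i₀ → U i i₀ = -B i j₀ := by
      intro i h
      change (if i = i₀ then dd i else if i₀ = i₀ then -B i j₀ else 0) = _
      rw [if_neg h, if_pos rfl]
    have hdd0 : dd i₀ = 1 := by simp [dd]
    -- injectivity
    have hUinj : Function.Injective (Rop U) := by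
      rw [injective_iff_map_eq_zero]
      intro F hF
      have hc : ∀ k, ∀ u, ∑ i, cv (U i k) (fun v => F (v, i)) u = 0 := by
        intro k u
        rw [← Rop_apply, hF]; rfl
      have h1 : ∀ k, k ≠ i₀ → ∀ u, F (u, k) = 0 := by
        intro k hk
        have h2 : ∀ u, cv (dd k) (fun v => F (v, k)) u = 0 := by
          intro u
          have h3 := hc k u
          rw [Finset.sum_eq_single k] at h3
          · rw [hUd] at h3; exact h3
          · intro i _ hik
            rw [hUoff i k hik hk, cv_zero]
          · intro h; exact absurd (Finset.mem_univ _) h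
        by_cases h3 : r k = r i₀
        · have h4 : dd k = p := by simp only [dd]; rw [if_pos ⟨hk, h3⟩]
          rw [h4] at h2
          exact comp_inj' _ (htf (r i₀)) (hC (r i₀)) p hpC hp0 F k h2
        · have h4 : dd k = 1 := by simp only [dd]; rw [if_neg fun h => h3 h.2]
          rw [h4] at h2
          intro u
          have := h2 u
          rwa [cv_one] at this
      ext ⟨u, k⟩
      by_cases hk : k = i₀
      · subst hk
        have h3 := hc k u
        rw [Finset.sum_eq_single k] at h3
        · rw [hUd, hdd0, cv_one] at h3; exact h3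
        · intro i _ hik
          have : (fun v => F (v, i)) = fun _ => (0 : ℂ) := funext fun v => h1 i hik v
          rw [this, cv_zerof]
        · intro h; exact absurd (Finset.mem_univ _) h
      · exact h1 k hk u
    -- the product
    have hUB : ∀ i j, (U * B) i j = if i = i₀ then B i₀ j else dd i * B i j - B i j₀ * B i₀ j := by
      intro i j
      rw [Matrix.mul_apply]
      by_cases hi : i = i₀
      · subst hi
        rw [if_pos rfl, Finset.sum_eq_single i]
        · rw [hUd, hdd0, one_mul]
        · intro k _ hk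
          rw [hUoff i k hk.symm hk, zero_mul]
        · intro h; exact absurd (Finset.mem_univ _) h
      · rw [if_neg hi, ← Finset.add_sum_erase _ _ (Finset.mem_univ i), hUd]
        rw [Finset.sum_eq_single i₀]
        · rw [hU0 i hi, neg_mul, sub_eq_add_neg]
        · intro k hk hk2
          rw [hUoff i k (Finset.ne_of_mem_erase hk).symm hk2, zero_mul]
        · intro h
          exact absurd (Finset.mem_erase.2 ⟨fun h => hi h.symm, Finset.mem_univ _⟩) h
    have hzl : ∀ i j, r i ≠ s j → B i j = 0 := fun i j h => by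
      by_contra h2; exact h (hB2 i j h2)
    have hUBcol : ∀ i, i ≠ i₀ → (U * B) i j₀ = 0 := by
      intro i hi
      rw [hUB, if_neg hi]
      by_cases h3 : r i = r i₀
      · have h4 : dd i = p := by simp only [dd]; rw [if_pos ⟨hi, h3⟩]
        rw [h4, SR_comm (C (r i₀)) (hC _) p (B i j₀) hpC (h3 ▸ hB1 i j₀), sub_self]
      · have h4 : B i j₀ = 0 := hzl i j₀ (by rw [← hlab]; exact h3)
        rw [h4, mul_zero, zero_mul, sub_zero]
    -- the next matrix
    let B' : Matrix K L (MonoidAlgebra ℂ G) := fun i j => if i = i₀ then 0 else (U * B) i j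
    have hB'1 : ∀ i j, B' i j ∈ SR (C (r i)) := by
      intro i j
      simp only [B']
      split_ifs with hi
      · exact zero_mem _
      · rw [hUB, if_neg hi]
        by_cases h3 : r i = r i₀
        · have h4 : dd i = p := by simp only [dd]; rw [if_pos ⟨hi, h3⟩]
          rw [h4]
          exact sub_mem (mul_mem (h3 ▸ hpC) (hB1 i j)) (mul_mem (hB1 i j₀) (h3 ▸ hB1 i₀ j))
        · have h4 : dd i = 1 := by simp only [dd]; rw [if_neg fun h => h3 h.2]
          have h5 : B i j₀ = 0 := hzl i j₀ (by rw [← hlab]; exact h3)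
          rw [h4, h5, one_mul, zero_mul, sub_zero]
          exact hB1 i j
    have hB'2 : ∀ i j, B' i j ≠ 0 → r i = s j := by
      intro i j h
      by_contra hne
      apply h
      simp only [B']
      split_ifs with hi
      · rfl
      · rw [hUB, if_neg hi, hzl i j hne, mul_zero, zero_sub, neg_eq_zero]
        by_cases h3 : r i = r i₀
        · rw [hzl i₀ j (by rw [← h3]; exact hne), mul_zero]
        · rw [hzl i j₀ (by rw [← hlab]; exact h3), zero_mul]
    obtain ⟨d, hd⟩ := ih B' hB'1 hB'2 ⟨T.erase i₀, by
        rw [Finset.card_erase_of_mem hi₀T]; omega, by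
      intro i hi j
      simp only [B']
      split_ifs with h
      · rfl
      · have hiT : i ∉ T := fun h2 => hi (Finset.mem_erase.2 ⟨h, h2⟩)
        rw [hUB, if_neg h, hT2 i hiT, hT2 i hiT, mul_zero, zero_mul, sub_zero]⟩
    refine ⟨d - 1, ?_⟩
    rw [← kap_mul_left U hUinj B]
    -- compare the kernels
    set Q := LinearMap.ker (Rop B' : EE G K →ₗ[ℂ] EE G L) with hQ
    let T0 : EE G K →L[ℂ] EE G Unit := elem (I := Unit) (1 : G) () i₀
    have hT0 : ∀ F : EE G K, ∀ u, T0 F (u, ()) = F (u, i₀) := by
      intro F u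
      change elem (I := Unit) (1 : G) () i₀ F (u, ()) = _
      rw [elem_apply, if_pos rfl, inv_one, one_mul]
    have hrel : ∀ F : EE G K, (∀ u, F (u, i₀) = 0) → Rop B' F = Rop (U * B) F := by
      intro F hF
      ext ⟨u, j⟩
      rw [Rop_apply, Rop_apply]
      refine Finset.sum_congr rfl fun i _ => ?_
      by_cases hi : i = i₀
      · subst hi
        have : (fun v => F (v, i)) = fun _ => (0 : ℂ) := funext fun v => hF v
        rw [this, cv_zerof, cv_zerof]
      · simp only [B']
        rw [if_neg hi]
    have hker : LinearMap.ker (Rop (U * B) : EE G K →ₗ[ℂ] EE G L)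
        = Q ⊓ LinearMap.ker (T0 : EE G K →ₗ[ℂ] EE G Unit) := by
      ext F
      constructor
      · intro h
        have h1 : Rop (U * B) F = 0 := h
        have h2 : ∀ u, F (u, i₀) = 0 := by
          apply comp_inj' _ (htf (r i₀)) (hC (r i₀)) p hpC hp0 F i₀
          intro u
          have h3 : Rop (U * B) F (u, j₀) = 0 := by rw [h1]; rfl
          rw [Rop_apply, Finset.sum_eq_single i₀] at h3
          · rw [hUB, if_pos rfl] at h3; exact h3
          · intro i _ hi
            rw [hUBcol i hi, cv_zero]
          · intro h; exact absurd (Finset.mem_univ _) h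
        refine ⟨?_, ?_⟩
        · change Rop B' F = 0
          rw [hrel F h2, h1]
        · change T0 F = 0
          ext ⟨u, a⟩
          rw [hT0, h2]; rfl
      · rintro ⟨h1, h2⟩
        have h1' : Rop B' F = 0 := h1
        have h2' : T0 F = 0 := h2
        have h3 : ∀ u, F (u, i₀) = 0 := by
          intro u
          rw [← hT0, h2']; rfl
        change Rop (U * B) F = 0
        rw [← hrel F h3, h1']
    have hmap : Q.map (T0 : EE G K →ₗ[ℂ] EE G Unit) = ⊤ := by
      rw [eq_top_iff]
      intro f _
      refine ⟨elem (I := K) (1 : G) i₀ () f, ?_, ?_⟩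
      · change Rop B' (elem (I := K) (1 : G) i₀ () f) = 0
        ext ⟨u, j⟩
        rw [Rop_apply]
        refine Finset.sum_eq_zero fun i _ => ?_
        by_cases hi : i = i₀
        · simp only [B']
          rw [if_pos hi, cv_zero]
        · have : (fun v => elem (I := K) (1 : G) i₀ () f (v, i)) = fun _ => (0 : ℂ) := by
            funext v
            rw [elem_apply, if_neg hi]
          rw [this, cv_zerof]
      · change T0 (elem (I := K) (1 : G) i₀ () f) = f
        ext ⟨u, a⟩
        rw [hT0, elem_apply, if_pos rfl, inv_one, one_mul]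
    have hrn := rank_nullity T0 (elem_eqv _ _ _) (inv_ker (Rop B') (Rop_eqv B'))
      (ContinuousLinearMap.isClosed_ker (Rop B'))
    rw [← hQ, ← hker, hmap, vd_top] at hrn
    have hd' : vd Q = d := hd
    rw [hd'] at hrn
    unfold kap
    push_cast
    simp only [Fintype.card_unit, Nat.cast_one] at hrn
    linarith

end cyc

section perm

variable {G : Type} [Group G] {J K X : Type}

/-- composition with a permutation of the index set -/
noncomputable def pm (e : (G × J) ≃ (G × J)) (F : EE G J) : EE G J :=
  ⟨fun x => F (e x), memlp_comp_equiv e F⟩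

theorem pm_apply (e : (G × J) ≃ (G × J)) (F : EE G J) (x : G × J) : pm e F x = F (e x) := rfl

theorem isometry_pm (e : (G × J) ≃ (G × J)) : Isometry (pm e : EE G J → EE G J) := by
  apply Isometry.of_dist_eq
  intro f g
  rw [dist_eq_norm, dist_eq_norm]
  have e1 : pm e f - pm e g = pm e (f - g) := by
    ext x; rfl
  rw [e1]
  have e2 : ‖pm e (f - g)‖ ^ 2 = ‖f - g‖ ^ 2 := by
    rw [norm_sq_tsum, norm_sq_tsum]
    exact e.tsum_eq (fun x => ‖(f - g) x‖ ^ 2)
  exact (sq_eq_sq₀ (norm_nonneg _) (norm_nonneg _)).1 e2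

theorem pm_dl (e : (G × J) ≃ (G × J)) (x : G × J) (he : e x = x) :
    pm e (dl x) = (dl x : EE G J) := by
  ext y
  rw [pm_apply]
  by_cases hy : y = x
  · rw [hy, he]
  · rw [dl_apply_ne _ _ hy, dl_apply_ne]
    intro h
    apply hy
    apply e.injective
    rw [h, he]

theorem vd_pm [Fintype J] (e : (G × J) ≃ (G × J)) (he : ∀ j, e ((1 : G), j) = ((1 : G), j))
    (P Q : Submodule ℂ (EE G J)) (hP : IsClosed (P : Set (EE G J)))
    (hQ : IsClosed (Q : Set (EE G J))) (h : pm e '' (P : Set (EE G J)) = Q) : vd Q = vd P := by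
  rw [vd_eq_infDist _ hP, vd_eq_infDist _ hQ]
  refine Finset.sum_congr rfl fun j _ => ?_
  rw [← h]
  conv_lhs => rw [← pm_dl e ((1 : G), j) (he j)]
  rw [Metric.infDist_image (isometry_pm e)]

/-! direct sums -/

theorem memlp_emb [DecidableEq X] (x : X) (q : EE G K) :
    Memℓp (fun y : G × (X × K) => if y.2.1 = x then q (y.1, y.2.2) else 0) 2 := by
  rw [memlp_two_iff]
  have h1 := (memlp_two_iff _).1 q.2
  have hinj : Function.Injective (fun z : G × K => ((z.1, (x, z.2)) : G × (X × K))) := by
    rintro ⟨a, c⟩ ⟨a', c'⟩ hh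
    simp only [Prod.mk.injEq, true_and] at hh
    rw [hh.1, hh.2]
  refine (hinj.summable_iff (fun y hy => ?_)).1 ?_
  · have h2 : y.2.1 ≠ x := by
      intro h
      apply hy
      exact ⟨(y.1, y.2.2), by rw [← h]⟩
    rw [if_neg h2]
    simp
  · convert h1 using 1
    ext z
    simp

/-- the embedding of a summand -/
noncomputable def emb [DecidableEq X] (x : X) (q : EE G K) : EE G (X × K) :=
  ⟨fun y => if y.2.1 = x then q (y.1, y.2.2) else 0, memlp_emb x q⟩

theorem emb_apply [DecidableEq X] (x : X) (q : EE G K) (y : G × (X × K)) :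
    emb x q y = if y.2.1 = x then q (y.1, y.2.2) else 0 := rfl

theorem norm_emb [DecidableEq X] (x : X) (q : EE G K) : ‖emb x q‖ = ‖q‖ := by
  have e2 : ‖emb x q‖ ^ 2 = ‖q‖ ^ 2 := by
    rw [norm_sq_tsum, norm_sq_tsum]
    have hinj : Function.Injective (fun z : G × K => ((z.1, (x, z.2)) : G × (X × K))) := by
      rintro ⟨a, c⟩ ⟨a', c'⟩ hh
      simp only [Prod.mk.injEq, true_and] at hh
      rw [hh.1, hh.2]
    have h3 : Function.support (fun y : G × (X × K) => ‖emb x q y‖ ^ 2)
        ⊆ Set.range (fun z : G × K => ((z.1, (x, z.2)) : G × (X × K))) := by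
      intro y hy
      by_contra hcon
      apply hy
      have h2 : y.2.1 ≠ x := by
        intro h
        apply hcon
        exact ⟨(y.1, y.2.2), by rw [← h]⟩
      simp only
      rw [emb_apply, if_neg h2]
      simp
    rw [← hinj.tsum_eq h3]
    refine tsum_congr fun z => ?_
    rw [emb_apply, if_pos rfl]
  exact (sq_eq_sq₀ (norm_nonneg _) (norm_nonneg _)).1 e2

theorem coord_emb [DecidableEq X] (x x' : X) (q : EE G K) :
    coord x' (emb x q) = if x' = x then q else 0 := by
  ext y
  rw [coord_apply, emb_apply]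
  split_ifs <;> rfl

/-- all coordinates in `Q` -/
noncomputable def coP (X : Type) (Q : Submodule ℂ (EE G K)) : Submodule ℂ (EE G (X × K)) :=
  ⨅ x : X, Q.comap (coord x : EE G (X × K) →L[ℂ] EE G K).toLinearMap

theorem mem_coP (Q : Submodule ℂ (EE G K)) (H : EE G (X × K)) :
    H ∈ coP X Q ↔ ∀ x, coord x H ∈ Q := by
  unfold coP
  rw [Submodule.mem_iInf]
  rfl

theorem coP_closed (Q : Submodule ℂ (EE G K)) (hQ : IsClosed (Q : Set (EE G K))) :
    IsClosed (coP X Q : Set (EE G (X × K))) := by
  have h1 : (coP X Q : Set (EE G (X × K))) = ⋂ x : X, (coord x : EE G (X × K) → EE G K) ⁻¹' Q := by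
    ext H
    rw [SetLike.mem_coe, mem_coP, Set.mem_iInter]
    rfl
  rw [h1]
  exact isClosed_iInter fun x => hQ.preimage (coord x).continuous

theorem vd_coP [Fintype X] [Fintype K] (Q : Submodule ℂ (EE G K))
    (hQ : IsClosed (Q : Set (EE G K))) : vd (coP X Q) = Fintype.card X * vd Q := by
  classical
  rw [vd_eq_infDist _ (coP_closed Q hQ), vd_eq_infDist _ hQ, Fintype.sum_prod_type]
  have key : ∀ (x : X) (k : K), Metric.infDist (dl ((1 : G), (x, k))) (coP X Q : Set (EE G (X × K)))
      = Metric.infDist (dl ((1 : G), k)) (Q : Set (EE G K)) := by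
    intro x k
    have hdl : emb x (dl ((1 : G), k) : EE G K) = (dl ((1 : G), (x, k)) : EE G (X × K)) := by
      ext ⟨u, x', k'⟩
      rw [emb_apply]
      by_cases h : (u, (x', k')) = ((1 : G), (x, k))
      · rw [h, dl_apply_self, if_pos rfl, dl_apply_self]
      · rw [dl_apply_ne _ _ h]
        split_ifs with h1
        · apply dl_apply_ne
          intro h2
          apply h
          simp only at h1
          simp only [Prod.mk.injEq] at h2 ⊢
          exact ⟨h2.1, h1, h2.2⟩
        · rfl
    apply le_antisymm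
    · rw [Metric.le_infDist ⟨0, Q.zero_mem⟩]
      intro q hq
      refine (Metric.infDist_le_dist_of_mem (y := emb x q) ?_).trans ?_
      · rw [SetLike.mem_coe, mem_coP]
        intro x'
        rw [coord_emb]
        split_ifs
        · exact hq
        · exact zero_mem _
      · rw [dist_eq_norm, dist_eq_norm, ← hdl]
        have : emb x (dl ((1 : G), k) : EE G K) - emb x q = emb x (dl ((1 : G), k) - q) := by
          ext y
          change emb x (dl ((1 : G), k) : EE G K) y - emb x q y = _
          rw [emb_apply, emb_apply, emb_apply]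
          split_ifs
          · rfl
          · ring
        rw [this, norm_emb]
    · rw [Metric.le_infDist ⟨0, (coP X Q).zero_mem⟩]
      intro H hH
      refine (Metric.infDist_le_dist_of_mem (y := coord x H) ((mem_coP Q H).1 hH x)).trans ?_
      rw [dist_eq_norm, dist_eq_norm]
      have h1 : (dl ((1 : G), k) : EE G K) = coord x (dl ((1 : G), (x, k))) := by
        rw [← hdl, coord_emb, if_pos rfl]
      rw [h1, ← map_sub]
      exact norm_coordFun_le x _
  rw [Finset.sum_congr rfl fun x _ => Finset.sum_congr rfl fun k _ => by rw [key x k]]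
  rw [Finset.sum_const, Finset.card_univ, nsmul_eq_mul]

end perm

end TH57.Thr.Ati
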