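import Pool.Agent.TH57.Thr.Fell
import Pool.Agent.TH57.Thr.Struct2

set_option autoImplicit false
set_option linter.style.haveILetI false
set_option linter.unusedSectionVars false

/-! Kernel dimensions of complex matrices whose support lies in the support of an integer matrix
of norm less than `3 / √2`, all groups. -/

namespace TH57.Thr.Ati

open Pool.Agent.W649.ZL Matrix

variable {G : Type} [Group G] {K L : Type} [Fintype K] [Fintype L] [DecidableEq K] [DecidableEq L]

theorem kap_pattern (N : ℕ) (hfin : ∀ H : Subgroup G, Finite H → Nat.card H ∣ N)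
    (P : Matrix K L (MonoidAlgebra ℤ G)) (c : ℝ) (hc0 : 0 < c) (hc : c ^ 2 < 9 / 2)
    (hP : NormLE P c) (A : Matrix K L (MonoidAlgebra ℂ G))
    (hA : ∀ i j g, (A i j).coeff g ≠ 0 → (P i j).coeff g ≠ 0) :
    ∃ d : ℤ, (N : ℝ) * kap A = d := by
  classical
  obtain ⟨ρ, u, C, hC, hst⟩ := structure_vc P c hc0 hc hP
  let D1 : Matrix K K (MonoidAlgebra ℂ G) :=
    Matrix.diagonal fun i => MonoidAlgebra.single (u (Sum.inl i)) 1
  let D1' : Matrix K K (MonoidAlgebra ℂ G) :=
    Matrix.diagonal fun i => MonoidAlgebra.single (u (Sum.inl i))⁻¹ 1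
  let D2 : Matrix L L (MonoidAlgebra ℂ G) :=
    Matrix.diagonal fun j => MonoidAlgebra.single (u (Sum.inr j))⁻¹ 1
  let D2' : Matrix L L (MonoidAlgebra ℂ G) :=
    Matrix.diagonal fun j => MonoidAlgebra.single (u (Sum.inr j)) 1
  have h1 : D1 * D1' = 1 := by
    simp only [D1, D1']
    rw [Matrix.diagonal_mul_diagonal, ← Matrix.diagonal_one]
    congr 1
    funext i
    rw [MonoidAlgebra.single_mul_single, mul_inv_cancel, mul_one, MonoidAlgebra.one_def]
  have h2 : D2 * D2' = 1 := by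
    simp only [D2, D2']
    rw [Matrix.diagonal_mul_diagonal, ← Matrix.diagonal_one]
    congr 1
    funext i
    rw [MonoidAlgebra.single_mul_single, inv_mul_cancel, mul_one, MonoidAlgebra.one_def]
  have hB : ∀ i j, (D1 * A * D2) i j = MonoidAlgebra.single (u (Sum.inl i)) 1 * A i j
      * MonoidAlgebra.single (u (Sum.inr j))⁻¹ 1 := by
    intro i j
    simp only [D1, D2]
    rw [Matrix.mul_diagonal, Matrix.diagonal_mul]
  have hBc : ∀ i j g, ((D1 * A * D2) i j).coeff g ≠ 0 →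
      ρ (Sum.inl i) = ρ (Sum.inr j) ∧ g ∈ C (ρ (Sum.inl i)) := by
    intro i j g hg
    rw [hB, MonoidAlgebra.coeff_mul_single_apply, MonoidAlgebra.coeff_single_mul_apply, one_mul,
      mul_one, inv_inv] at hg
    have h1 := hst i j _ (hA i j _ hg)
    refine ⟨h1.1, ?_⟩
    have h2 := h1.2
    have h3 : u (Sum.inl i) * ((u (Sum.inl i))⁻¹ * (g * u (Sum.inr j))) * (u (Sum.inr j))⁻¹
        = g := by group
    rwa [h3] at h2
  have h3 : kap (D1 * A * D2) = kap A := by
    rw [kap_unit_right _ h2, kap_mul_left D1 (Rop_inj h1)]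
  rw [← h3]
  exact kap_vc N hfin (fun i => ρ (Sum.inl i)) (fun j => ρ (Sum.inr j)) C hC _ hBc

open Classical in
/-- The von Neumann dimension of the kernel of right multiplication by the matrix `A` over the
complex group ring on `ℓ²(G)^m`: the sum over `i` of `1 - dist(δ_(i,1), kernel)²`. -/
noncomputable def kerDimC {m n : ℕ} (A : Matrix (Fin m) (Fin n) (G →₀ ℂ)) : ℝ :=
  ∑ i : Fin m, (1 - (Metric.infDist
    (lp.single 2 (i, (1 : G)) (1 : ℂ) : lp (fun _ : Fin m × G => ℂ) 2)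
    {x : lp (fun _ : Fin m × G => ℂ) 2 | ∀ (j : Fin n) (g : G),
      ∑ i' : Fin m, (A i' j).sum (fun h c => x (i', g * h⁻¹) * c) = 0}) ^ 2)

theorem kerDimC_eq {m n : ℕ} (A : Matrix (Fin m) (Fin n) (G →₀ ℂ)) :
    kerDimC A = kap (fun i j => MonoidAlgebra.ofCoeff (A i j) :
      Matrix (Fin m) (Fin n) (MonoidAlgebra ℂ G)) := by
  refine Eq.trans ?_ (kerC_dim (fun i j => MonoidAlgebra.ofCoeff (A i j) :
      Matrix (Fin m) (Fin n) (MonoidAlgebra ℂ G)))
  rfl

/-- **Atiyah conjecture with torsion below the threshold.** -/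
theorem kerDimC_pattern (N : ℕ) (hfin : ∀ H : Subgroup G, Finite H → Nat.card H ∣ N) {m n : ℕ}
    (P : Matrix (Fin m) (Fin n) (MonoidAlgebra ℤ G)) (c : ℝ) (hc0 : 0 < c) (hc : c ^ 2 < 9 / 2)
    (hP : NormLE P c) (A : Matrix (Fin m) (Fin n) (G →₀ ℂ))
    (hA : ∀ i j g, A i j g ≠ 0 → (P i j).coeff g ≠ 0) :
    ∃ d : ℤ, (N : ℝ) * kerDimC A = d := by
  rw [kerDimC_eq]
  exact kap_pattern N hfin P c hc0 hc hP _ hA

end TH57.Thr.Ati
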