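import Mathlib

set_option autoImplicit false
set_option linter.unusedSectionVars false

/-! Block patterns over group rings with arbitrary coefficient ring: inverses of patterned
matrices are patterned; patterned invertible matrices are products of invertible matrices over
group rings of the subgroups in the pattern. -/

namespace TH57.Thr

open Matrix

variable {R : Type} [Ring R] {Γ : Type} [Group Γ]

section trunc

variable {K : Type} [Group K] (f : K →* Γ) (hf : Function.Injective f)

theorem comap_mulR (x : MonoidAlgebra R K) (y : MonoidAlgebra R Γ) :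
    MonoidAlgebra.comapDomain f hf (MonoidAlgebra.mapDomainRingHom R f x * y)
      = x * MonoidAlgebra.comapDomain f hf y := by
  induction x using MonoidAlgebra.induction_linear with
  | zero => simp
  | add x1 x2 h1 h2 => rw [map_add, add_mul, MonoidAlgebra.comapDomain_add, h1, h2, add_mul]
  | single k z =>
    ext k'
    simp only [MonoidAlgebra.mapDomainRingHom_apply, MonoidAlgebra.mapDomain_single,
      MonoidAlgebra.coeff_comapDomain, Finsupp.comapDomain_apply,
      MonoidAlgebra.coeff_single_mul_apply]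
    rw [← map_inv, ← map_mul]

theorem map_comapR (x : MonoidAlgebra R Γ) (hx : ∀ g, x.coeff g ≠ 0 → g ∈ f.range) :
    MonoidAlgebra.mapDomainRingHom R f (MonoidAlgebra.comapDomain f hf x) = x := by
  change MonoidAlgebra.mapDomain f (MonoidAlgebra.comapDomain f hf x) = _
  apply MonoidAlgebra.mapDomain_comapDomain
  intro g hg
  exact hx g (Finsupp.mem_support_iff.1 hg)

end trunc

/-- truncation to a subgroup -/
noncomputable def trc (H : Subgroup Γ) (x : MonoidAlgebra R Γ) : MonoidAlgebra R Γ :=
  MonoidAlgebra.mapDomainRingHom R H.subtype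
    (MonoidAlgebra.comapDomain H.subtype H.subtype_injective x)

theorem trc_of (H : Subgroup Γ) (x : MonoidAlgebra R Γ) (hx : ∀ g, x.coeff g ≠ 0 → g ∈ H) :
    trc H x = x :=
  map_comapR H.subtype H.subtype_injective x (by rw [Subgroup.range_subtype]; exact hx)

theorem trc_supp (H : Subgroup Γ) (x : MonoidAlgebra R Γ) (g : Γ) (hg : (trc H x).coeff g ≠ 0) :
    g ∈ H := by
  by_contra h
  apply hg
  change (MonoidAlgebra.mapDomain H.subtype
    (MonoidAlgebra.comapDomain H.subtype H.subtype_injective x)).coeff g = 0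
  rw [MonoidAlgebra.coeff_mapDomain]
  apply Finsupp.mapDomain_of_notMem_range
  rintro ⟨y, rfl⟩
  exact h y.2

theorem trc_add (H : Subgroup Γ) (x y : MonoidAlgebra R Γ) : trc H (x + y) = trc H x + trc H y := by
  unfold trc
  rw [MonoidAlgebra.comapDomain_add, map_add]

theorem trc_zero (H : Subgroup Γ) : trc H (0 : MonoidAlgebra R Γ) = 0 := by
  unfold trc
  rw [MonoidAlgebra.comapDomain_zero, map_zero]

theorem trc_sum {ι : Type} (H : Subgroup Γ) (s : Finset ι) (F : ι → MonoidAlgebra R Γ) :
    trc H (∑ i ∈ s, F i) = ∑ i ∈ s, trc H (F i) := by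
  classical
  induction s using Finset.induction_on with
  | empty => simp [trc_zero]
  | insert a s ha ih => rw [Finset.sum_insert ha, Finset.sum_insert ha, trc_add, ih]

theorem trc_mul (H : Subgroup Γ) (x y : MonoidAlgebra R Γ) (hx : ∀ g, x.coeff g ≠ 0 → g ∈ H) :
    trc H (x * y) = x * trc H y := by
  obtain ⟨x', hx'⟩ : ∃ x', MonoidAlgebra.mapDomainRingHom R H.subtype x' = x := ⟨_, trc_of H x hx⟩
  subst hx'
  unfold trc
  rw [comap_mulR, map_mul]

theorem one_supp (H : Subgroup Γ) (g : Γ) (hg : (1 : MonoidAlgebra R Γ).coeff g ≠ 0) : g ∈ H := by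
  have : g = 1 := by
    by_contra h
    apply hg
    rw [MonoidAlgebra.one_def, MonoidAlgebra.coeff_single, Finsupp.single_eq_of_ne h]
  rw [this]; exact one_mem _

theorem coeff_ne_of {x : MonoidAlgebra R Γ} {g : Γ} (h : x.coeff g ≠ 0) : x ≠ 0 := by
  rintro rfl
  exact h rfl

theorem eq_zero_of {x : MonoidAlgebra R Γ} (h : ∀ g, ¬ x.coeff g ≠ 0) : x = 0 := by
  ext g
  by_contra h1
  exact h g h1

/-- The inverse of a matrix with a block pattern has the same block pattern. -/
theorem inv_pattern {ι κ β : Type} [Fintype ι] [Fintype κ] [DecidableEq ι] [DecidableEq κ]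
    (r : ι → β) (c : κ → β) (C : β → Subgroup Γ)
    (B : Matrix ι κ (MonoidAlgebra R Γ)) (E : Matrix κ ι (MonoidAlgebra R Γ))
    (h1 : B * E = 1) (h2 : E * B = 1)
    (hB : ∀ i j g, (B i j).coeff g ≠ 0 → r i = c j ∧ g ∈ C (r i)) :
    ∀ j i g, (E j i).coeff g ≠ 0 → c j = r i ∧ g ∈ C (c j) := by
  classical
  have hB0 : ∀ i j, r i ≠ c j → B i j = 0 := fun i j h =>
    eq_zero_of fun g hg => h (hB i j g hg).1
  let E' : Matrix κ ι (MonoidAlgebra R Γ) := fun j i =>
    if c j = r i then trc (C (r i)) (E j i) else 0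
  have h3 : B * E' = 1 := by
    ext1 i k
    rw [Matrix.mul_apply]
    by_cases hik : r i = r k
    · have h4 : ∀ j, B i j * E' j k = trc (C (r k)) (B i j * E j k) := by
        intro j
        by_cases hj : c j = r k
        · simp only [E', if_pos hj]
          rw [trc_mul]
          intro g hg
          rw [← hik]
          exact (hB i j g hg).2
        · rw [hB0 i j (fun h => hj (by rw [← h, hik])), zero_mul, zero_mul, trc_zero]
      rw [Finset.sum_congr rfl fun j _ => h4 j, ← trc_sum, ← Matrix.mul_apply, h1]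
      apply trc_of
      intro g hg
      rw [Matrix.one_apply] at hg
      split_ifs at hg with h5
      · exact one_supp _ g hg
      · exact absurd rfl hg
    · rw [Matrix.one_apply_ne (fun h => hik (by rw [h]))]
      apply Finset.sum_eq_zero
      intro j _
      by_cases hj : c j = r k
      · rw [hB0 i j (fun h => hik (by rw [h, hj])), zero_mul]
      · simp only [E', if_neg hj, mul_zero]
  have h4 : E' = E := by
    calc E' = (E * B) * E' := by rw [h2, Matrix.one_mul]
      _ = E := by rw [Matrix.mul_assoc, h3, Matrix.mul_one]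
  intro j i g hg
  rw [← h4] at hg
  simp only [E'] at hg
  by_cases hj : c j = r i
  · rw [if_pos hj] at hg
    refine ⟨hj, ?_⟩
    rw [hj]
    exact trc_supp _ _ g hg
  · rw [if_neg hj] at hg
    exact absurd rfl hg

variable {κ : Type} [Fintype κ] [DecidableEq κ]

/-- the image of `GL_κ(R[H])` in `GL_κ(R[Γ])` -/
noncomputable def glim (R : Type) [Ring R] (κ : Type) [Fintype κ] [DecidableEq κ]
    (H : Subgroup Γ) : Subgroup (Matrix κ κ (MonoidAlgebra R Γ))ˣ :=
  (Units.map ((MonoidAlgebra.mapDomainRingHom R H.subtype).mapMatrix :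
    Matrix κ κ (MonoidAlgebra R H) →+* Matrix κ κ (MonoidAlgebra R Γ)).toMonoidHom).range

theorem mem_glim (H : Subgroup Γ) (M : (Matrix κ κ (MonoidAlgebra R Γ))ˣ)
    (h1 : ∀ i j g, ((M : Matrix κ κ (MonoidAlgebra R Γ)) i j).coeff g ≠ 0 → g ∈ H)
    (h2 : ∀ i j g, ((↑M⁻¹ : Matrix κ κ (MonoidAlgebra R Γ)) i j).coeff g ≠ 0 → g ∈ H) :
    M ∈ glim R κ H := by
  let φ := (MonoidAlgebra.mapDomainRingHom R H.subtype).mapMatrix (m := κ)
  have hφ : Function.Injective φ := by
    intro X Y hXY
    ext1 i j
    have h := congrFun (congrFun hXY i) j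
    exact MonoidAlgebra.mapDomain_injective H.subtype_injective h
  let cm : Matrix κ κ (MonoidAlgebra R Γ) → Matrix κ κ (MonoidAlgebra R H) := fun X =>
    X.map (MonoidAlgebra.comapDomain H.subtype H.subtype_injective)
  have hcm : ∀ X : Matrix κ κ (MonoidAlgebra R Γ), (∀ i j g, (X i j).coeff g ≠ 0 → g ∈ H) →
      φ (cm X) = X := by
    intro X hX
    ext1 i j
    exact trc_of H _ (hX i j)
  refine ⟨⟨cm M, cm (↑M⁻¹ : Matrix κ κ (MonoidAlgebra R Γ)), ?_, ?_⟩, ?_⟩
  · apply hφ
    rw [map_mul, hcm _ h1, hcm _ h2, map_one, Units.mul_inv]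
  · apply hφ
    rw [map_mul, hcm _ h1, hcm _ h2, map_one, Units.inv_mul]
  · apply Units.ext
    exact hcm _ h1

/-- restriction of a block diagonal matrix to a set of blocks -/
noncomputable def rst {β : Type} [DecidableEq β] (r : κ → β) (T : Finset β) (X : Matrix κ κ (MonoidAlgebra R Γ)) :
    Matrix κ κ (MonoidAlgebra R Γ) := fun i j => if r i ∈ T then X i j else (1 : Matrix κ κ _) i j

theorem rst_mul {β : Type} [DecidableEq β] (r : κ → β) (T : Finset β)
    (X Y : Matrix κ κ (MonoidAlgebra R Γ)) (hX : ∀ i j, r i ≠ r j → X i j = 0) :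
    rst r T X * rst r T Y = rst r T (X * Y) := by
  ext1 i k
  rw [Matrix.mul_apply]
  simp only [rst]
  by_cases hi : r i ∈ T
  · rw [if_pos hi, Matrix.mul_apply]
    refine Finset.sum_congr rfl fun j _ => ?_
    rw [if_pos hi]
    by_cases hij : r i = r j
    · rw [if_pos (by rw [← hij]; exact hi)]
    · rw [hX i j hij, zero_mul, zero_mul]
  · rw [if_neg hi]
    rw [Finset.sum_eq_single i]
    · rw [if_neg hi, Matrix.one_apply_eq, one_mul, if_neg hi]
    · intro j _ hj
      rw [if_neg hi, Matrix.one_apply_ne (Ne.symm hj), zero_mul]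
    · intro h; exact absurd (Finset.mem_univ i) h

theorem rst_one {β : Type} [DecidableEq β] (r : κ → β) (T : Finset β) :
    rst r T (1 : Matrix κ κ (MonoidAlgebra R Γ)) = 1 := by
  ext1 i j
  simp only [rst, ite_self]

theorem rst_insert {β : Type} [DecidableEq β] (r : κ → β) (T : Finset β) (b : β) (hb : b ∉ T)
    (X : Matrix κ κ (MonoidAlgebra R Γ)) (hX : ∀ i j, r i ≠ r j → X i j = 0) :
    rst r (insert b T) X = rst r {b} X * rst r T X := by
  ext1 i k
  rw [Matrix.mul_apply]
  simp only [rst]
  by_cases hi : r i = b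
  · rw [if_pos (by rw [hi]; exact Finset.mem_insert_self _ _)]
    rw [Finset.sum_eq_single k]
    · rw [if_pos (by rw [hi]; exact Finset.mem_singleton_self _)]
      by_cases hk : r k ∈ T
      · rw [if_pos hk, hX i k (fun h => hb (by rw [← hi, h]; exact hk)), zero_mul]
      · rw [if_neg hk, Matrix.one_apply_eq, mul_one]
    · intro j _ hj
      rw [if_pos (by rw [hi]; exact Finset.mem_singleton_self _)]
      by_cases hij : r i = r j
      · rw [if_neg (fun h => hb (by rw [← hi, hij]; exact h)), Matrix.one_apply_ne hj, mul_zero]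
      · rw [hX i j hij, zero_mul]
    · intro h; exact absurd (Finset.mem_univ k) h
  · have h1 : r i ∉ ({b} : Finset β) := fun h => hi (Finset.mem_singleton.1 h)
    rw [Finset.sum_eq_single i]
    · rw [if_neg h1, Matrix.one_apply_eq, one_mul]
      by_cases h2 : r i ∈ T
      · rw [if_pos h2, if_pos (Finset.mem_insert_of_mem h2)]
      · rw [if_neg h2, if_neg (fun h => h2 (Finset.mem_of_mem_insert_of_ne h hi))]
    · intro j _ hj
      rw [if_neg h1, Matrix.one_apply_ne (Ne.symm hj), zero_mul]
    · intro h; exact absurd (Finset.mem_univ i) h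

/-- A patterned invertible matrix is a product of invertible matrices over the group rings of the
subgroups of the pattern. -/
theorem mem_of_pattern {β : Type} (r : κ → β) (C : β → Subgroup Γ)
    (M : (Matrix κ κ (MonoidAlgebra R Γ))ˣ)
    (h1 : ∀ i j g, ((M : Matrix κ κ (MonoidAlgebra R Γ)) i j).coeff g ≠ 0 → r i = r j ∧ g ∈ C (r i))
    (W : Subgroup (Matrix κ κ (MonoidAlgebra R Γ))ˣ)
    (hW : ∀ i, glim R κ (C (r i)) ≤ W) : M ∈ W := by
  classical
  have h2 := inv_pattern r r C _ _ M.mul_inv M.inv_mul h1
  have z1 : ∀ i j, r i ≠ r j → (M : Matrix κ κ (MonoidAlgebra R Γ)) i j = 0 := fun i j h =>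
    eq_zero_of fun g hg => h (h1 i j g hg).1
  have z2 : ∀ i j, r i ≠ r j → (↑M⁻¹ : Matrix κ κ (MonoidAlgebra R Γ)) i j = 0 := fun i j h =>
    eq_zero_of fun g hg => h (h2 i j g hg).1
  let U : Finset β → (Matrix κ κ (MonoidAlgebra R Γ))ˣ := fun T =>
    { val := rst r T M
      inv := rst r T (↑M⁻¹ : Matrix κ κ (MonoidAlgebra R Γ))
      val_inv := by rw [rst_mul r T _ _ z1, Units.mul_inv, rst_one]
      inv_val := by rw [rst_mul r T _ _ z2, Units.inv_mul, rst_one] }
  have key : ∀ T : Finset β, (∀ b ∈ T, ∃ i, r i = b) → U T ∈ W := by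
    intro T
    induction T using Finset.induction_on with
    | empty =>
      intro _
      have : U ∅ = 1 := by
        apply Units.ext
        ext1 i j
        change rst r ∅ (M : Matrix κ κ (MonoidAlgebra R Γ)) i j = _
        simp only [rst, Finset.notMem_empty, if_false]
        rfl
      rw [this]
      exact one_mem _
    | insert b T hb ih =>
      intro hT
      have h3 : U (insert b T) = U {b} * U T := Units.ext (rst_insert r T b hb _ z1)
      rw [h3]
      refine mul_mem ?_ (ih fun b' hb' => hT b' (Finset.mem_insert_of_mem hb'))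
      obtain ⟨i₀, hi₀⟩ := hT b (Finset.mem_insert_self _ _)
      apply hW i₀
      rw [hi₀]
      apply mem_glim
      · intro i j g hg
        change (rst r {b} (M : Matrix κ κ (MonoidAlgebra R Γ)) i j).coeff g ≠ 0 at hg
        simp only [rst] at hg
        by_cases hi : r i = b
        · rw [if_pos (by rw [hi]; exact Finset.mem_singleton_self _)] at hg
          rw [← hi]
          exact (h1 i j g hg).2
        · rw [if_neg (fun h => hi (Finset.mem_singleton.1 h))] at hg
          rw [Matrix.one_apply] at hg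
          split_ifs at hg with h5
          · exact one_supp _ g hg
          · exact absurd rfl hg
      · intro i j g hg
        change (rst r {b} (↑M⁻¹ : Matrix κ κ (MonoidAlgebra R Γ)) i j).coeff g ≠ 0 at hg
        simp only [rst] at hg
        by_cases hi : r i = b
        · rw [if_pos (by rw [hi]; exact Finset.mem_singleton_self _)] at hg
          rw [← hi]
          exact (h2 i j g hg).2
        · rw [if_neg (fun h => hi (Finset.mem_singleton.1 h))] at hg
          rw [Matrix.one_apply] at hg
          split_ifs at hg with h5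
          · exact one_supp _ g hg
          · exact absurd rfl hg
  have h3 : M = U (Finset.univ.image r) := by
    apply Units.ext
    ext1 i j
    change _ = rst r (Finset.univ.image r) (M : Matrix κ κ (MonoidAlgebra R Γ)) i j
    simp only [rst]
    rw [if_pos (Finset.mem_image_of_mem r (Finset.mem_univ i))]
  rw [h3]
  apply key
  intro b hb
  rw [Finset.mem_image] at hb
  obtain ⟨i, _, hi⟩ := hb
  exact ⟨i, hi⟩

end TH57.Thr
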