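import Pool.Agent.TH57.Thr.Red

set_option autoImplicit false
set_option linter.style.haveILetI false
set_option linter.unusedSectionVars false

/-! The distance of an invertible matrix over `ℤΓ` from the identity: everything happens at
distance `√2`. -/

namespace TH57.Thr

open Matrix
open scoped commutatorElement

section lin

variable {G : Type} [Group G]

/-- a linear model of the matrix `B` with norm at most `√2` -/
def L2 {p n : Type} [Fintype p] [Fintype n] (B : Matrix p n (MonoidAlgebra ℤ G)) : Prop :=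
  ∃ (q : Type) (_ : Fintype q) (_ : DecidableEq q) (X : Matrix p q (MonoidAlgebra ℤ G))
    (Y : Matrix q n (MonoidAlgebra ℤ G)) (Z W : Matrix q q (MonoidAlgebra ℤ G)),
    1 + Z ∈ El (R := MonoidAlgebra ℤ G) q ∧ (1 + Z) * W = 1 ∧ W * (1 + Z) = 1 ∧
    X * W * Y = -B ∧ 3 ≤ Fintype.card q ∧
    ∀ (x : p → MonoidAlgebra ℝ G) (y : q → MonoidAlgebra ℝ G),
      normSq (x ᵥ* toReal X + y ᵥ* toReal Z) + normSq (y ᵥ* toReal Y)
        ≤ 2 * (normSq x + normSq y)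

theorem normSq_zero {ι : Type} [Fintype ι] : normSq (0 : ι → MonoidAlgebra ℝ G) = 0 := by
  rw [normSq_eq]
  exact Finset.sum_eq_zero fun i _ => n1_zero

theorem el_ext' {R : Type} [Ring R] {κ μ : Type} [Fintype κ] [DecidableEq κ] [Fintype μ]
    [DecidableEq μ] (F : Matrix κ κ R) (hF : F ∈ El (R := R) κ) :
    fromBlocks (1 : Matrix μ μ R) 0 0 F ∈ El (R := R) (μ ⊕ κ) := by
  have h1 := el_reindex (Equiv.sumComm μ κ) _ (el_ext (μ := μ) F hF)
  convert h1 using 1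
  ext (i | i) (j | j) <;> simp

theorem vecMul_fromCols' {p q r : Type} [Fintype p] (x : p → MonoidAlgebra ℝ G)
    (A : Matrix p q (MonoidAlgebra ℤ G)) (B : Matrix p r (MonoidAlgebra ℤ G)) :
    x ᵥ* toReal (fromCols A B) = Sum.elim (x ᵥ* toReal A) (x ᵥ* toReal B) := by
  funext j
  rcases j with j | j <;> rfl

theorem vecMul_fromRows' {p q r : Type} [Fintype p] [Fintype q]
    (x : p ⊕ q → MonoidAlgebra ℝ G)
    (A : Matrix p r (MonoidAlgebra ℤ G)) (B : Matrix q r (MonoidAlgebra ℤ G)) :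
    x ᵥ* toReal (fromRows A B) = (x ∘ Sum.inl) ᵥ* toReal A + (x ∘ Sum.inr) ᵥ* toReal B := by
  funext j
  simp [Matrix.vecMul, dotProduct, Fintype.sum_sum_type, toReal]

theorem L2_base {p n : Type} [Fintype p] [Fintype n] [DecidableEq n]
    (B : Matrix p n (MonoidAlgebra ℤ G)) (hB : NS B 2) : L2 B := by
  refine ⟨n ⊕ Fin 3, inferInstance, inferInstance, fromCols (-B) 0, fromRows 1 0, 0, 1,
    by rw [add_zero]; exact one_mem _, by simp, by simp, ?_, ?_, fun x y => ?_⟩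
  · rw [Matrix.mul_one, Matrix.fromCols_mul_fromRows]; simp
  · rw [Fintype.card_sum, Fintype.card_fin]; omega
  · rw [vecMul_fromCols', vecMul_fromRows', toReal_zero, toReal_zero, toReal_zero, toReal_neg,
      toReal_one, Matrix.vecMul_zero, Matrix.vecMul_zero, Matrix.vecMul_zero, add_zero,
      Matrix.vecMul_one, add_zero, normSq_elim, normSq_zero, add_zero, Matrix.vecMul_neg,
      normSq_neg, normSq_sum y]
    have h1 := hB x
    have h2 := normSq_nonneg (y ∘ Sum.inl)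
    have h3 := normSq_nonneg (y ∘ Sum.inr)
    linarith

theorem L2_mul {p r n : Type} [Fintype p] [Fintype r] [DecidableEq r] [Fintype n]
    (P : Matrix p r (MonoidAlgebra ℤ G)) (hP : NS P 2) (C : Matrix r n (MonoidAlgebra ℤ G))
    (hC : L2 C) : L2 (P * C) := by
  obtain ⟨q, i1, i2, X, Y, Z, W, hZ, hW1, hW2, hXY, hq, hn⟩ := hC
  refine ⟨r ⊕ q, inferInstance, inferInstance, fromCols (-P) 0, fromRows 0 Y,
    fromBlocks 0 X 0 Z, fromBlocks 1 (-(X * W)) 0 W, ?_, ?_, ?_, ?_, ?_, fun x y => ?_⟩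
  · have h1 : (1 + fromBlocks 0 X 0 Z : Matrix (r ⊕ q) (r ⊕ q) (MonoidAlgebra ℤ G))
        = fromBlocks (1 : Matrix r r (MonoidAlgebra ℤ G)) 0 0 (1 + Z)
          * (1 + fromBlocks 0 X 0 0 : Matrix (r ⊕ q) (r ⊕ q) (MonoidAlgebra ℤ G)) := by
      rw [← Matrix.fromBlocks_one, Matrix.fromBlocks_add, Matrix.fromBlocks_add,
        Matrix.fromBlocks_multiply]
      simp
    rw [h1]
    exact mul_mem (el_ext' _ hZ) (el_unip (Finset.univ.filter fun v : r ⊕ q => v.isLeft) _ (by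
      rintro (i | i) (j | j) h <;> simp at h ⊢))
  · rw [← Matrix.fromBlocks_one, Matrix.fromBlocks_add, Matrix.fromBlocks_multiply]
    simp [hW1]
  · rw [← Matrix.fromBlocks_one, Matrix.fromBlocks_add, Matrix.fromBlocks_multiply]
    simp [hW2, Matrix.mul_assoc]
  · rw [Matrix.fromCols_mul_fromBlocks, Matrix.fromCols_mul_fromRows]
    simp only [Matrix.mul_zero, Matrix.zero_mul, add_zero, zero_add, Matrix.mul_neg,
      Matrix.neg_mul, neg_neg]
    rw [Matrix.mul_assoc, hXY, Matrix.mul_neg]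
  · rw [Fintype.card_sum]; omega
  · have h1 := hn (y ∘ Sum.inl) (y ∘ Sum.inr)
    have h2 := hP x
    have e1 : y ᵥ* toReal (fromBlocks (0 : Matrix r r (MonoidAlgebra ℤ G)) X 0 Z)
        = Sum.elim (0 : r → MonoidAlgebra ℝ G)
          ((y ∘ Sum.inl) ᵥ* toReal X + (y ∘ Sum.inr) ᵥ* toReal Z) := by
      rw [toReal_fromBlocks, toReal_zero, toReal_zero]
      conv_lhs => rw [← Sum.elim_comp_inl_inr y]
      rw [Matrix.vecMul_fromBlocks]
      simp
    have e2 : x ᵥ* toReal (fromCols (-P) (0 : Matrix p q (MonoidAlgebra ℤ G)))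
        + y ᵥ* toReal (fromBlocks (0 : Matrix r r (MonoidAlgebra ℤ G)) X 0 Z)
        = Sum.elim (-(x ᵥ* toReal P)) ((y ∘ Sum.inl) ᵥ* toReal X + (y ∘ Sum.inr) ᵥ* toReal Z) := by
      rw [e1, vecMul_fromCols', toReal_neg, toReal_zero, Matrix.vecMul_zero, Matrix.vecMul_neg]
      funext j
      rcases j with j | j <;> simp
    rw [e2, vecMul_fromRows', toReal_zero, Matrix.vecMul_zero, zero_add, normSq_elim, normSq_neg,
      normSq_sum y]
    linarith

theorem L2_Pr : ∀ (k : ℕ) (p n : Type) [Fintype p] [Fintype n] [DecidableEq n]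
    (B : Matrix p n (MonoidAlgebra ℤ G)), Pr k p n B → L2 B := by
  intro k
  induction k with
  | zero =>
    intro p n _ _ _ B h
    exact L2_base B h
  | succ k ih =>
    intro p n _ _ _ B h
    obtain ⟨r, i1, i2, P, C, hP, hC, rfl⟩ := h
    exact L2_mul P hP C (ih r n C hC)

theorem L2_all {p n : Type} [Fintype p] [Fintype n] [DecidableEq p] [DecidableEq n]
    (B : Matrix p n (MonoidAlgebra ℤ G)) : L2 B := by
  obtain ⟨k, hk⟩ := Pr_all B
  exact L2_Pr k p n B hk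

/-- **Distance at most `√2`.** -/
theorem dist_reduction {κ : Type} [Fintype κ] [DecidableEq κ]
    (A : (Matrix κ κ (MonoidAlgebra ℤ G))ˣ) :
    ∃ (q : Type) (_ : Fintype q) (_ : DecidableEq q)
      (C : (Matrix (κ ⊕ q) (κ ⊕ q) (MonoidAlgebra ℤ G))ˣ),
      C ∈ commutator (Matrix (κ ⊕ q) (κ ⊕ q) (MonoidAlgebra ℤ G))ˣ ∧
      NormLE (fromBlocks (A : Matrix κ κ (MonoidAlgebra ℤ G)) 0 0 1
        * (C : Matrix (κ ⊕ q) (κ ⊕ q) (MonoidAlgebra ℤ G)) - 1) (Real.sqrt 2) := by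
  obtain ⟨q, i1, i2, X, Y, Z, W, hZ, hW1, hW2, hXY, hq, hn⟩ :=
    L2_all ((A : Matrix κ κ (MonoidAlgebra ℤ G)) - 1)
  refine ⟨q, i1, i2, ?_⟩
  have hcard : 3 ≤ Fintype.card (κ ⊕ q) := by rw [Fintype.card_sum]; omega
  set U1 : Matrix (κ ⊕ q) (κ ⊕ q) (MonoidAlgebra ℤ G) :=
    1 + fromBlocks 0 ((↑A⁻¹ : Matrix κ κ (MonoidAlgebra ℤ G)) * (X * W)) 0 0 with hU1
  set U2 : Matrix (κ ⊕ q) (κ ⊕ q) (MonoidAlgebra ℤ G) := 1 + fromBlocks 0 0 Y 0 with hU2
  set U3 : Matrix (κ ⊕ q) (κ ⊕ q) (MonoidAlgebra ℤ G) := fromBlocks 1 0 0 (1 + Z) with hU3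
  have hU : U1 * U2 * U3 ∈ El (R := MonoidAlgebra ℤ G) (κ ⊕ q) := by
    refine mul_mem (mul_mem ?_ ?_) (el_ext' _ hZ)
    · exact el_unip (Finset.univ.filter fun v : κ ⊕ q => v.isLeft) _ (by
        rintro (i | i) (j | j) h <;> simp at h ⊢)
    · exact el_unip (Finset.univ.filter fun v : κ ⊕ q => v.isRight) _ (by
        rintro (i | i) (j | j) h <;> simp at h ⊢)
  obtain ⟨C, hC1, hC2⟩ := comm_of_El hcard _ hU
  refine ⟨C, hC2, ?_⟩
  have e1 : fromBlocks (A : Matrix κ κ (MonoidAlgebra ℤ G)) 0 0 1 * U1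
      = fromBlocks (A : Matrix κ κ (MonoidAlgebra ℤ G)) (X * W) 0 1 := by
    rw [hU1, ← Matrix.fromBlocks_one, Matrix.fromBlocks_add, Matrix.fromBlocks_multiply]
    simp [← Matrix.mul_assoc]
  have e2 : fromBlocks (A : Matrix κ κ (MonoidAlgebra ℤ G)) (X * W) 0 1 * U2
      = fromBlocks 1 (X * W) Y 1 := by
    rw [hU2, ← Matrix.fromBlocks_one, Matrix.fromBlocks_add, Matrix.fromBlocks_multiply]
    simp [hXY]
  have e3 : fromBlocks 1 (X * W) Y 1 * U3 = fromBlocks 1 X Y (1 + Z) := by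
    rw [hU3, Matrix.fromBlocks_multiply]
    simp [Matrix.mul_assoc, hW2]
  have h1 : fromBlocks (A : Matrix κ κ (MonoidAlgebra ℤ G)) 0 0 1
      * (C : Matrix (κ ⊕ q) (κ ⊕ q) (MonoidAlgebra ℤ G)) - 1 = fromBlocks 0 X Y Z := by
    rw [hC1, ← Matrix.mul_assoc, ← Matrix.mul_assoc, e1, e2, e3, sub_eq_iff_eq_add,
      ← Matrix.fromBlocks_one, Matrix.fromBlocks_add]
    simp [add_comm]
  rw [h1]
  intro x
  have h2 := hn (x ∘ Sum.inl) (x ∘ Sum.inr)
  have h3 : x ᵥ* toReal (fromBlocks 0 X Y Z) = Sum.elim ((x ∘ Sum.inr) ᵥ* toReal Y)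
      ((x ∘ Sum.inl) ᵥ* toReal X + (x ∘ Sum.inr) ᵥ* toReal Z) := by
    rw [toReal_fromBlocks, toReal_zero]
    conv_lhs => rw [← Sum.elim_comp_inl_inr x]
    rw [Matrix.vecMul_fromBlocks]
    simp
  rw [h3, normSq_elim, normSq_sum x, Real.sq_sqrt (by norm_num)]
  linarith

theorem dist_reduction_fin (n : ℕ) (A : (Matrix (Fin n) (Fin n) (MonoidAlgebra ℤ G))ˣ) :
    ∃ (m : ℕ) (C : (Matrix (Fin n ⊕ Fin m) (Fin n ⊕ Fin m) (MonoidAlgebra ℤ G))ˣ),
      C ∈ commutator (Matrix (Fin n ⊕ Fin m) (Fin n ⊕ Fin m) (MonoidAlgebra ℤ G))ˣ ∧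
      NormLE (fromBlocks (A : Matrix (Fin n) (Fin n) (MonoidAlgebra ℤ G)) 0 0 1
        * (C : Matrix (Fin n ⊕ Fin m) (Fin n ⊕ Fin m) (MonoidAlgebra ℤ G)) - 1)
        (Real.sqrt 2) := by
  obtain ⟨q, iq1, iq2, C, hC, hN⟩ := dist_reduction A
  let e : Fin (Fintype.card q) ≃ q := (Fintype.equivFin q).symm
  let e' : Fin n ⊕ Fin (Fintype.card q) ≃ Fin n ⊕ q := Equiv.sumCongr (Equiv.refl _) e
  refine ⟨Fintype.card q, Units.map (re e') C, comm_re e' C hC, ?_⟩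
  have h1 := NormLE_re e' _ _ hN
  convert h1 using 1
  have h2 : ∀ M : Matrix (Fin n ⊕ q) (Fin n ⊕ q) (MonoidAlgebra ℤ G),
      (M - 1).submatrix e' e' = M.submatrix e' e' - 1 := by
    intro M
    ext1 i j
    simp only [Matrix.submatrix_apply, Matrix.sub_apply, Matrix.one_apply, e'.injective.eq_iff]
  rw [h2, ← Matrix.submatrix_mul_equiv _ _ e' e' e']
  congr 2
  ext (i | i) (j | j) <;> simp [e', Matrix.one_apply]

end lin

end TH57.Thr
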