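import Pool.Agent.TH57.Thr.Dist
import Pool.Agent.TH57.Thr.IntMat

set_option autoImplicit false
set_option linter.style.haveILetI false
set_option linter.unusedSectionVars false

/-! Invertible matrices over `ℤΓ` at distance less than `√2` from the identity are stably
elementary. -/

namespace TH57.Thr

open Matrix

variable {G : Type} [Group G]

/-- every row has at most one term, with coefficient `± 1` -/
def RowOne {κ : Type} (N : Matrix κ κ (MonoidAlgebra ℤ G)) : Prop :=
  ∀ i, (∀ j, N i j = 0) ∨ ∃ (j : κ) (g : G) (ε : ℤ), (ε = 1 ∨ ε = -1) ∧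
    N i j = MonoidAlgebra.single g ε ∧ ∀ k, k ≠ j → N i k = 0

theorem exists_zero_row {κ : Type} [Fintype κ] [DecidableEq κ] [Nonempty κ]
    (A : (Matrix κ κ (MonoidAlgebra ℤ G))ˣ)
    (hA : RowOne ((A : Matrix κ κ (MonoidAlgebra ℤ G)) - 1)) :
    ∃ i, ∀ j, ((A : Matrix κ κ (MonoidAlgebra ℤ G)) - 1) i j = 0 := by
  by_contra hcon
  push Not at hcon
  let au : MonoidAlgebra ℤ G →+* ZMod 2 :=
    (Int.castRingHom (ZMod 2)).comp (MonoidAlgebra.lift ℤ ℤ G 1).toRingHom
  have hau : ∀ g : G, ∀ z : ℤ, au (MonoidAlgebra.single g z) = (z : ZMod 2) := by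
    intro g z
    simp [au]
  set M : (Matrix κ κ (ZMod 2))ˣ := Units.map (mpm au) A with hM
  have h1 : (M : Matrix κ κ (ZMod 2)) *ᵥ (fun _ => 1) = 0 := by
    funext i
    have h2 : ∀ j, (M : Matrix κ κ (ZMod 2)) i j
        = (1 : Matrix κ κ (ZMod 2)) i j
          + au (((A : Matrix κ κ (MonoidAlgebra ℤ G)) - 1) i j) := by
      intro j
      change au ((A : Matrix κ κ (MonoidAlgebra ℤ G)) i j) = _
      rw [Matrix.sub_apply, map_sub, Matrix.one_apply, Matrix.one_apply]
      by_cases hij : i = j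
      · simp [hij]
      · simp [hij]
    simp only [Matrix.mulVec, dotProduct, mul_one, Pi.zero_apply]
    rw [Finset.sum_congr rfl fun j _ => h2 j, Finset.sum_add_distrib]
    have h3 : ∑ j, (1 : Matrix κ κ (ZMod 2)) i j = 1 := by
      simp [Matrix.one_apply]
    rcases hA i with h4 | ⟨j, g, ε, hε, hj, hk⟩
    · obtain ⟨j, hj⟩ := hcon i
      exact absurd (h4 j) hj
    · rw [h3, Finset.sum_eq_single j (fun k _ hkj => by rw [hk k hkj, map_zero])
        (fun h => absurd (Finset.mem_univ _) h), hj, hau]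
      rcases hε with rfl | rfl <;> decide
  have h2 : (↑M⁻¹ : Matrix κ κ (ZMod 2)) *ᵥ ((M : Matrix κ κ (ZMod 2)) *ᵥ (fun _ => 1))
      = (fun _ => 1) := by
    rw [Matrix.mulVec_mulVec, Units.inv_mul, Matrix.one_mulVec]
  rw [h1, Matrix.mulVec_zero] at h2
  obtain ⟨i⟩ := ‹Nonempty κ›
  have := congrFun h2 i
  simp at this

theorem TT_rowOne (U : Subgroup (MonoidAlgebra ℤ G)ˣ) : ∀ (N : ℕ) (κ : Type) [Fintype κ]
    [DecidableEq κ], Fintype.card κ ≤ N → ∀ A : (Matrix κ κ (MonoidAlgebra ℤ G))ˣ,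
    RowOne ((A : Matrix κ κ (MonoidAlgebra ℤ G)) - 1) → TT U A := by
  classical
  intro N
  induction N with
  | zero =>
    intro κ _ _ hcard A hA
    have : IsEmpty κ := Fintype.card_eq_zero_iff.1 (Nat.le_zero.1 hcard)
    have h1 : A = 1 := Units.ext (by ext i; exact isEmptyElim i)
    rw [h1]
    exact TT_one _
  | succ N ih =>
    intro κ _ _ hcard A hA
    rcases isEmpty_or_nonempty κ with he | hne
    · have h1 : A = 1 := Units.ext (by ext i; exact isEmptyElim i)
      rw [h1]
      exact TT_one _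
    obtain ⟨i₀, hi₀⟩ := exists_zero_row A hA
    let e : {i // i = i₀} ⊕ {i // ¬ i = i₀} ≃ κ := Equiv.sumCompl _
    let A' := Units.map (re (R := MonoidAlgebra ℤ G) e) A
    have hrow : ∀ j, (A : Matrix κ κ (MonoidAlgebra ℤ G)) i₀ j
        = (1 : Matrix κ κ (MonoidAlgebra ℤ G)) i₀ j := by
      intro j
      have := hi₀ j
      rwa [Matrix.sub_apply, sub_eq_zero] at this
    have hb : A'.val = fromBlocks
        ((1 : (Matrix {i // i = i₀} {i // i = i₀} (MonoidAlgebra ℤ G))ˣ) :
          Matrix {i // i = i₀} {i // i = i₀} (MonoidAlgebra ℤ G)) 0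
        A'.val.toBlocks₂₁ A'.val.toBlocks₂₂ := by
      conv_lhs => rw [← Matrix.fromBlocks_toBlocks A'.val]
      congr 1
      · ext1 p q
        change (A : Matrix κ κ (MonoidAlgebra ℤ G)) p.1 q.1 = _
        rw [p.2, hrow, Units.val_one]
        have hpq : p = q := Subtype.ext (p.2.trans q.2.symm)
        rw [hpq, Matrix.one_apply_eq, q.2, Matrix.one_apply_eq]
      · ext1 p q
        change (A : Matrix κ κ (MonoidAlgebra ℤ G)) p.1 q.1 = 0
        rw [p.2, hrow, Matrix.one_apply_ne fun h => q.2 h.symm]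
    obtain ⟨b', hb'⟩ := tri_unit 1 A'.val.toBlocks₂₂ A'.val.toBlocks₂₁ A' hb
    have hTb : TT U b' := by
      apply ih {i // ¬ i = i₀} ?_ b'
      · intro p
        have hval : ∀ q : {i // ¬ i = i₀}, ((b' : Matrix {i // ¬ i = i₀} {i // ¬ i = i₀}
            (MonoidAlgebra ℤ G)) - 1) p q
            = ((A : Matrix κ κ (MonoidAlgebra ℤ G)) - 1) p.1 q.1 := by
          intro q
          rw [Matrix.sub_apply, Matrix.sub_apply, hb']
          change (A : Matrix κ κ (MonoidAlgebra ℤ G)) p.1 q.1 - _ = _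
          rw [Matrix.one_apply, Matrix.one_apply]
          simp only [Subtype.ext_iff]
        rcases hA p.1 with h | ⟨j, g, ε, hε, hj, hk⟩
        · exact Or.inl fun q => by rw [hval]; exact h _
        · by_cases hji : j = i₀
          · exact Or.inl fun q => by rw [hval]; exact hk _ fun h => q.2 (h.trans hji)
          · exact Or.inr ⟨⟨j, hji⟩, g, ε, hε, by rw [hval]; exact hj, fun k hkj => by
              rw [hval]; exact hk _ fun h => hkj (Subtype.ext h)⟩
      · have h3 : Fintype.card {i // i = i₀} + Fintype.card {i // ¬ i = i₀}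
            = Fintype.card κ := by
          rw [← Fintype.card_sum]; exact Fintype.card_congr e
        have h4 : 0 < Fintype.card {i // i = i₀} := Fintype.card_pos_iff.2 ⟨⟨i₀, rfl⟩⟩
        omega
    have h5 : TT U A' := TT_tri U 1 b' A'.val.toBlocks₂₁ A' (by rw [hb']; exact hb)
      (TT_one _) hTb
    have h6 := TT_re U e.symm A' h5
    have h7 : A = Units.map (re e.symm) A' := by
      apply Units.ext
      ext1 i j
      change _ = (A : Matrix κ κ (MonoidAlgebra ℤ G)) (e (e.symm i)) (e (e.symm j))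
      rw [Equiv.apply_symm_apply, Equiv.apply_symm_apply]
    rw [h7]
    exact h6

theorem rowOne_of_norm {κ : Type} [Fintype κ] [DecidableEq κ]
    (N : Matrix κ κ (MonoidAlgebra ℤ G)) (c : ℝ) (hc : c ^ 2 < 2) (hN : NormLE N c) :
    RowOne N := by
  classical
  intro i
  have h1 := hN (Pi.single i 1)
  have h2 : Pi.single i (1 : MonoidAlgebra ℝ G) ᵥ* toReal N = fun j => toReal N i j := by
    funext j
    rw [Matrix.single_one_vecMul]
    rfl
  have h3 : normSq (Pi.single i (1 : MonoidAlgebra ℝ G)) = 1 := by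
    rw [normSq_eq, Finset.sum_eq_single i]
    · rw [Pi.single_eq_same]
      simp [n1, MonoidAlgebra.one_def]
    · intro k _ hk
      rw [Pi.single_eq_of_ne hk, n1_zero]
    · intro h; exact absurd (Finset.mem_univ _) h
  rw [h2, h3, mul_one] at h1
  set T : Finset ((_ : κ) × G) := Finset.univ.sigma fun j => (N i j).coeff.support with hT
  have hco : ∀ j g, (toReal N i j).coeff g = (((N i j).coeff g : ℤ) : ℝ) := by
    intro j g
    simp [toReal]
  have h4 : normSq (fun j => toReal N i j) = ∑ p ∈ T, (((N i p.1).coeff p.2 : ℤ) : ℝ) ^ 2 := by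
    rw [hT, Finset.sum_sigma, normSq_eq]
    refine Finset.sum_congr rfl fun j _ => ?_
    rw [n1_eq _ (N i j).coeff.support]
    · exact Finset.sum_congr rfl fun g _ => by rw [hco]
    · intro g hg
      rw [Finsupp.mem_support_iff, hco] at hg
      rw [Finsupp.mem_support_iff]
      intro h; exact hg (by rw [h]; simp)
  rw [h4] at h1
  have h5 : ∀ p ∈ T, (1 : ℝ) ≤ (((N i p.1).coeff p.2 : ℤ) : ℝ) ^ 2 := by
    intro p hp
    rw [hT, Finset.mem_sigma] at hp
    have h6 := Finsupp.mem_support_iff.1 hp.2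
    have h7 : 1 ≤ ((N i p.1).coeff p.2) ^ 2 := by
      have := sq_pos_of_ne_zero h6
      omega
    exact_mod_cast h7
  have h6 : (T.card : ℝ) < 2 := by
    have h7 : ∑ p ∈ T, (1 : ℝ) ≤ ∑ p ∈ T, (((N i p.1).coeff p.2 : ℤ) : ℝ) ^ 2 :=
      Finset.sum_le_sum h5
    rw [Finset.sum_const, nsmul_eq_mul, mul_one] at h7
    linarith
  have h7 : T.card ≤ 1 := by
    have : T.card < 2 := by exact_mod_cast h6
    omega
  have hout : ∀ j g, (⟨j, g⟩ : (_ : κ) × G) ∉ T → (N i j).coeff g = 0 := by
    intro j g h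
    by_contra h8
    exact h (by rw [hT, Finset.mem_sigma]; exact ⟨Finset.mem_univ _, Finsupp.mem_support_iff.2 h8⟩)
  by_cases hem : T = ∅
  · left
    intro j
    ext g
    exact hout j g (by rw [hem]; exact Finset.notMem_empty _)
  · right
    obtain ⟨⟨j, g⟩, hjg⟩ := Finset.nonempty_iff_ne_empty.2 hem
    have hTs : T = {⟨j, g⟩} := by
      apply Finset.eq_singleton_iff_unique_mem.2 ⟨hjg, fun p hp => ?_⟩
      exact Finset.card_le_one.1 h7 _ hp _ hjg
    refine ⟨j, g, (N i j).coeff g, ?_, ?_, ?_⟩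
    · rw [hTs, Finset.sum_singleton] at h1
      have h8 : ((N i j).coeff g) ^ 2 < 2 := by
        have : (((N i j).coeff g : ℤ) : ℝ) ^ 2 < 2 := lt_of_le_of_lt h1 hc
        exact_mod_cast this
      have h9 : (N i j).coeff g ≠ 0 := by
        rw [hT, Finset.mem_sigma] at hjg
        exact Finsupp.mem_support_iff.1 hjg.2
      have h10 : |(N i j).coeff g| < 2 := by
        by_contra hcon
        push Not at hcon
        have := sq_le_sq' (by linarith) hcon
        rw [sq_abs] at this
        linarith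
      rw [abs_lt] at h10
      omega
    · ext h
      by_cases hh : h = g
      · subst hh; simp
      · rw [hout j h (by
          rw [hTs, Finset.mem_singleton]
          intro h8
          exact hh (by simpa using h8))]
        have : ¬ g = h := fun h8 => hh h8.symm
        simp [this]
    · intro k hk
      ext h
      exact hout k h (by
        rw [hTs, Finset.mem_singleton]
        intro h8
        exact hk (by simpa using congrArg Sigma.fst h8))

theorem TT_bot_form {R : Type} [Ring R] (n : ℕ) (A : (Matrix (Fin n) (Fin n) R)ˣ)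
    (h : TT ⊥ A) : ∃ m : ℕ, Units.map (stm (R := R) (Fin m)) A
      ∈ commutator (Matrix (Fin n ⊕ Fin m) (Fin n ⊕ Fin m) R)ˣ := by
  obtain ⟨μ, i1, i2, h1⟩ := h
  have h2 : HH (⊥ : Subgroup Rˣ) (Fin n ⊕ μ)
      ≤ commutator (Matrix (Fin n ⊕ μ) (Fin n ⊕ μ) R)ˣ := by
    apply sup_le le_rfl
    rw [Subgroup.closure_le]
    rintro _ ⟨i, u, hu, rfl⟩
    rw [Subgroup.mem_bot.1 hu, map_one]
    exact one_mem _
  let e : Fin (Fintype.card μ) ≃ μ := (Fintype.equivFin μ).symm
  let e' : Fin n ⊕ Fin (Fintype.card μ) ≃ Fin n ⊕ μ := Equiv.sumCongr (Equiv.refl _) e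
  refine ⟨Fintype.card μ, ?_⟩
  have h3 := comm_re e' _ (h2 h1)
  convert h3 using 1
  apply Units.ext
  ext (i | i) (j | j) <;> simp [stm, re, e', Matrix.one_apply]

theorem near_one (n : ℕ) (A : (Matrix (Fin n) (Fin n) (MonoidAlgebra ℤ G))ˣ) (c : ℝ)
    (hc : c ^ 2 < 2) (hA : NormLE ((A : Matrix (Fin n) (Fin n) (MonoidAlgebra ℤ G)) - 1) c) :
    ∃ m : ℕ, Units.map (stm (R := MonoidAlgebra ℤ G) (Fin m)) A
      ∈ commutator (Matrix (Fin n ⊕ Fin m) (Fin n ⊕ Fin m) (MonoidAlgebra ℤ G))ˣ :=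
  TT_bot_form n A (TT_rowOne ⊥ _ _ le_rfl A (rowOne_of_norm _ c hc hA))

end TH57.Thr
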