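import Pool.Agent.TH57.Thr.Ati4

set_option autoImplicit false
set_option linter.style.haveILetI false
set_option linter.unusedSectionVars false

/-! Tensoring a matrix over group rings of subgroups with permutation representations. -/

namespace TH57.Thr.Ati

open Pool.Agent.W649.ZL Matrix

variable {G : Type} [Group G]

/-- an equivariant map to a subgroup -/
theorem exists_retr (H : Subgroup G) : ∃ κ : G → G, (∀ u, κ u ∈ H) ∧ κ 1 = 1 ∧
    ∀ c ∈ H, ∀ u, κ (c * u) = c * κ u := by
  let rep : G → G := fun u => (Quotient.mk (QuotientGroup.rightRel H) u).out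
  have hrep : ∀ u, u * (rep u)⁻¹ ∈ H := by
    intro u
    have h := Quotient.exact (Quotient.out_eq (Quotient.mk (QuotientGroup.rightRel H) u))
    exact QuotientGroup.rightRel_apply.1 h
  have hrepc : ∀ c ∈ H, ∀ u, rep (c * u) = rep u := by
    intro c hc u
    have : Quotient.mk (QuotientGroup.rightRel H) (c * u)
        = Quotient.mk (QuotientGroup.rightRel H) u := by
      apply Quotient.sound
      apply QuotientGroup.rightRel_apply.2
      rw [_root_.mul_inv_rev, mul_inv_cancel_left]
      exact inv_mem hc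
    simp only [rep, this]
  have h1 : rep 1 ∈ H := by
    have := hrep 1
    rw [one_mul] at this
    exact (Subgroup.inv_mem_iff H).1 this
  refine ⟨fun u => u * (rep u)⁻¹ * rep 1, fun u => mul_mem (hrep u) h1, ?_, ?_⟩
  · simp
  · intro c hc u
    simp only
    rw [hrepc c hc]
    group

section fell

variable {K L X β : Type} [Fintype K] [Fintype L] [Fintype X] [DecidableEq K] [DecidableEq L]
  [DecidableEq X]

/-- the matrix tensored with permutation representations of the subgroups -/
noncomputable def fel (r : K → β) (ac : β → G → Equiv.Perm X)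
    (B : Matrix K L (MonoidAlgebra ℂ G)) : Matrix (X × K) (X × L) (MonoidAlgebra ℂ G) :=
  fun p q => ∑ h ∈ (B p.2 q.2).coeff.support,
    if p.1 = ac (r p.2) h q.1 then MonoidAlgebra.single h ((B p.2 q.2).coeff h) else 0

theorem cv_fel (r : K → β) (ac : β → G → Equiv.Perm X) (B : Matrix K L (MonoidAlgebra ℂ G))
    (p : X × K) (q : X × L) (f : G → ℂ) (u : G) :
    cv (fel r ac B p q) f u = ∑ h ∈ (B p.2 q.2).coeff.support,
      if p.1 = ac (r p.2) h q.1 then (B p.2 q.2).coeff h * f (h * u) else 0 := by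
  unfold fel
  rw [cv_sum]
  refine Finset.sum_congr rfl fun h _ => ?_
  split_ifs
  · rw [cv_single]
  · rw [cv_zero]

theorem Rop_fel (r : K → β) (ac : β → G → Equiv.Perm X) (B : Matrix K L (MonoidAlgebra ℂ G))
    (F : EE G (X × K)) (u : G) (y : X) (j : L) :
    Rop (fel r ac B) F (u, (y, j)) = ∑ k, ∑ h ∈ (B k j).coeff.support,
      (B k j).coeff h * F (h * u, (ac (r k) h y, k)) := by
  rw [Rop_apply, Fintype.sum_prod_type, Finset.sum_comm]
  refine Finset.sum_congr rfl fun k _ => ?_
  simp only [cv_fel]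
  rw [Finset.sum_comm]
  refine Finset.sum_congr rfl fun h _ => ?_
  rw [Finset.sum_ite_eq' Finset.univ (ac (r k) h y)
    (fun x => (B k j).coeff h * F (h * u, (x, k)))]
  rw [if_pos (Finset.mem_univ _)]

theorem kap_fel (r : K → β) (s : L → β) (C : β → Subgroup G)
    (ac : β → G → Equiv.Perm X) (hac1 : ∀ b, ac b 1 = 1)
    (hacm : ∀ b, ∀ h ∈ C b, ∀ c ∈ C b, ac b (h * c) = ac b h * ac b c)
    (B : Matrix K L (MonoidAlgebra ℂ G))
    (hB : ∀ k j h, (B k j).coeff h ≠ 0 → r k = s j ∧ h ∈ C (r k)) :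
    kap (fel r ac B) = Fintype.card X * kap B := by
  classical
  choose κ hκ hκ1 hκm using fun b => exists_retr (C b)
  let p : G → K → Equiv.Perm X := fun u k => ac (r k) (κ (r k) u)
  let E : (G × (X × K)) ≃ (G × (X × K)) :=
    { toFun := fun z => (z.1, (p z.1 z.2.2 z.2.1, z.2.2))
      invFun := fun z => (z.1, ((p z.1 z.2.2).symm z.2.1, z.2.2))
      left_inv := fun z => by simp
      right_inv := fun z => by simp }
  have hE : ∀ u x k, E (u, (x, k)) = (u, (p u k x, k)) := fun _ _ _ => rfl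
  have hE1 : ∀ z : X × K, E ((1 : G), z) = ((1 : G), z) := by
    rintro ⟨x, k⟩
    rw [hE]
    simp only [p, hκ1, hac1, Equiv.Perm.one_apply]
  have key : ∀ (F : EE G (X × K)) (x : X) (u : G) (j : L),
      Rop (fel r ac B) F (u, (ac (s j) (κ (s j) u) x, j)) = Rop B (coord x (pm E F)) (u, j) := by
    intro F x u j
    rw [Rop_fel, Rop_apply]
    refine Finset.sum_congr rfl fun k _ => ?_
    unfold cv Finsupp.sum
    refine Finset.sum_congr rfl fun h hh => ?_
    change _ = (B k j).coeff h * coord x (pm E F) (h * u, k)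
    rw [coord_apply, pm_apply, hE]
    obtain ⟨h1, h2⟩ := hB k j h (Finsupp.mem_support_iff.1 hh)
    have h3 : p (h * u) k x = ac (r k) h (ac (s j) (κ (s j) u) x) := by
      simp only [p]
      rw [hκm _ h h2, hacm _ h h2 _ (hκ _ _), h1]
      rfl
    rw [h3]
  set Q := LinearMap.ker (Rop B : EE G K →ₗ[ℂ] EE G L) with hQ
  have hQc : IsClosed (Q : Set (EE G K)) := ContinuousLinearMap.isClosed_ker (Rop B)
  have himg : pm E '' (LinearMap.ker (Rop (fel r ac B) : EE G (X × K) →ₗ[ℂ] EE G (X × L)) :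
      Set (EE G (X × K))) = (coP X Q : Set (EE G (X × K))) := by
    ext H
    constructor
    · rintro ⟨F, hF, rfl⟩
      have hF' : Rop (fel r ac B) F = 0 := hF
      rw [SetLike.mem_coe, mem_coP]
      intro x
      change Rop B (coord x (pm E F)) = 0
      ext ⟨u, j⟩
      rw [← key, hF']
      rfl
    · intro hH
      have hH' := (mem_coP Q H).1 hH
      have hback : pm E (pm E.symm H) = H := by
        ext z
        rw [pm_apply, pm_apply, Equiv.symm_apply_apply]
      refine ⟨pm E.symm H, ?_, hback⟩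
      change Rop (fel r ac B) (pm E.symm H) = 0
      ext ⟨u, y, j⟩
      have h1 := key (pm E.symm H) ((ac (s j) (κ (s j) u)).symm y) u j
      rw [Equiv.apply_symm_apply, hback] at h1
      rw [h1]
      have h2 : Rop B (coord ((ac (s j) (κ (s j) u)).symm y) H) = 0 := hH' _
      rw [h2]
      rfl
  have h4 := vd_pm E hE1 _ _ (ContinuousLinearMap.isClosed_ker (Rop (fel r ac B)))
    (coP_closed Q hQc) himg
  rw [vd_coP Q hQc] at h4
  exact h4.symm

end fell

section main

variable {K L β : Type} [Fintype K] [Fintype L] [DecidableEq K] [DecidableEq L]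

/-- **Kernel dimensions over virtually cyclic subgroups.** -/
theorem kap_vc (N : ℕ) (hfin : ∀ H : Subgroup G, Finite H → Nat.card H ∣ N)
    (r : K → β) (s : L → β) (C : β → Subgroup G)
    (hC : ∀ b, ∃ t : C b, (Subgroup.zpowers t).FiniteIndex)
    (B : Matrix K L (MonoidAlgebra ℂ G))
    (hB : ∀ k j h, (B k j).coeff h ≠ 0 → r k = s j ∧ h ∈ C (r k)) :
    ∃ d : ℤ, (N : ℝ) * kap B = d := by
  classical
  have h0 : ∀ b, ∃ t : C b, (∀ n : ℤ, t ^ n = 1 → t = 1 ∨ n = 0) ∧
      (Subgroup.zpowers t).FiniteIndex ∧ (Subgroup.zpowers t).index ∣ N := by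
    intro b
    obtain ⟨s₀, hs₀⟩ := hC b
    obtain ⟨t, F, hF, ht1, ht2, ht3⟩ := vc_index s₀ hs₀
    refine ⟨t, ht1, ht2, ht3.trans ?_⟩
    have h1 : Nat.card F = Nat.card (F.map (C b).subtype) :=
      Nat.card_congr (Subgroup.equivMapOfInjective F _ (C b).subtype_injective).toEquiv
    haveI : Finite (F.map (C b).subtype) := by
      apply Finite.of_equiv F (Subgroup.equivMapOfInjective F _ (C b).subtype_injective).toEquiv
    rw [h1]
    exact hfin _ inferInstance
  choose t ht1 ht2 ht3 using h0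
  have h1 : ∀ b, Nonempty (Fin N ≃ (C b ⧸ Subgroup.zpowers (t b)) ×
      Fin (N / (Subgroup.zpowers (t b)).index)) := by
    intro b
    haveI := ht2 b
    haveI : Finite (C b ⧸ Subgroup.zpowers (t b)) := Subgroup.finite_quotient_of_finiteIndex
    refine ⟨(Finite.equivFinOfCardEq ?_).symm⟩
    rw [Nat.card_prod, Nat.card_fin]
    change (Subgroup.zpowers (t b)).index * _ = N
    exact Nat.mul_div_cancel' (ht3 b)
  let e := fun b => (h1 b).some
  let ac : β → G → Equiv.Perm (Fin N) := fun b h =>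
    if hh : h ∈ C b then (e b).trans ((Equiv.prodCongr (MulAction.toPerm (⟨h, hh⟩ : C b))
      (Equiv.refl _)).trans (e b).symm) else 1
  have hac : ∀ b h (hh : h ∈ C b) (x : Fin N), ac b h x
      = (e b).symm ((⟨h, hh⟩ : C b) • (e b x).1, (e b x).2) := by
    intro b h hh x
    simp only [ac, dif_pos hh]
    rfl
  have hac1 : ∀ b, ac b 1 = 1 := by
    intro b
    ext x
    rw [hac b 1 (one_mem _)]
    have : (⟨1, one_mem _⟩ : C b) = 1 := rfl
    rw [this, one_smul, Prod.mk.eta, Equiv.symm_apply_apply]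
    rfl
  have hacm : ∀ b, ∀ h ∈ C b, ∀ c ∈ C b, ac b (h * c) = ac b h * ac b c := by
    intro b h hh c hc
    ext x
    rw [hac b _ (mul_mem hh hc), Equiv.Perm.mul_apply, hac b h hh, hac b c hc,
      Equiv.apply_symm_apply]
    have : (⟨h * c, mul_mem hh hc⟩ : C b) = ⟨h, hh⟩ * ⟨c, hc⟩ := rfl
    rw [this, mul_smul]
  have hk := kap_fel r s C ac hac1 hacm B hB
  rw [Fintype.card_fin] at hk
  rw [← hk]
  let rep : β → Fin N → G := fun b x => ((e b x).1.out : C b)
  have hrep : ∀ b h (x y : Fin N), h ∈ C b → x = ac b h y →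
      (rep b x)⁻¹ * h * rep b y ∈ (Subgroup.zpowers (t b)).map (C b).subtype := by
    intro b h x y hh hxy
    have h2 : (e b x).1 = (⟨h, hh⟩ : C b) • (e b y).1 := by
      rw [hxy, hac b h hh, Equiv.apply_symm_apply]
    have h3 : (QuotientGroup.mk ((e b x).1.out) : C b ⧸ Subgroup.zpowers (t b))
        = QuotientGroup.mk ((⟨h, hh⟩ : C b) * (e b y).1.out) := by
      rw [QuotientGroup.out_eq', h2]
      conv_lhs => rw [← QuotientGroup.out_eq' (e b y).1]
      rfl
    rw [QuotientGroup.eq] at h3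
    refine ⟨_, h3, ?_⟩
    simp only [rep, Subgroup.coe_subtype, Subgroup.coe_mul, Subgroup.coe_inv]
    rw [mul_assoc]
  let D1 : Matrix (Fin N × K) (Fin N × K) (MonoidAlgebra ℂ G) :=
    Matrix.diagonal fun p => MonoidAlgebra.single (rep (r p.2) p.1)⁻¹ 1
  let D1' : Matrix (Fin N × K) (Fin N × K) (MonoidAlgebra ℂ G) :=
    Matrix.diagonal fun p => MonoidAlgebra.single (rep (r p.2) p.1) 1
  let D2 : Matrix (Fin N × L) (Fin N × L) (MonoidAlgebra ℂ G) :=
    Matrix.diagonal fun q => MonoidAlgebra.single (rep (s q.2) q.1) 1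
  let D2' : Matrix (Fin N × L) (Fin N × L) (MonoidAlgebra ℂ G) :=
    Matrix.diagonal fun q => MonoidAlgebra.single (rep (s q.2) q.1)⁻¹ 1
  have hD1 : D1 * D1' = 1 := by
    simp only [D1, D1']
    rw [Matrix.diagonal_mul_diagonal, ← Matrix.diagonal_one]
    congr 1
    funext i
    rw [MonoidAlgebra.single_mul_single, inv_mul_cancel, mul_one, MonoidAlgebra.one_def]
  have hD2 : D2 * D2' = 1 := by
    simp only [D2, D2']
    rw [Matrix.diagonal_mul_diagonal, ← Matrix.diagonal_one]
    congr 1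
    funext i
    rw [MonoidAlgebra.single_mul_single, mul_inv_cancel, mul_one, MonoidAlgebra.one_def]
  have hkk : kap (D1 * fel r ac B * D2) = kap (fel r ac B) := by
    rw [kap_unit_right _ hD2, kap_mul_left D1 (Rop_inj hD1)]
  rw [← hkk]
  have hent : ∀ p q, (D1 * fel r ac B * D2) p q = MonoidAlgebra.single (rep (r p.2) p.1)⁻¹ 1
      * fel r ac B p q * MonoidAlgebra.single (rep (s q.2) q.1) 1 := by
    intro p q
    simp only [D1, D2]
    rw [Matrix.mul_diagonal, Matrix.diagonal_mul]
  have hfel : ∀ p q g, (fel r ac B p q).coeff g ≠ 0 →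
      (B p.2 q.2).coeff g ≠ 0 ∧ p.1 = ac (r p.2) g q.1 := by
    intro p q g hg
    unfold fel at hg
    rw [MonoidAlgebra.coeff_sum, Finsupp.finsetSum_apply] at hg
    obtain ⟨h, hh, hne⟩ := Finset.exists_ne_zero_of_sum_ne_zero hg
    split_ifs at hne with h5
    · rw [MonoidAlgebra.coeff_single] at hne
      by_cases hgh : h = g
      · subst hgh
        exact ⟨Finsupp.mem_support_iff.1 hh, h5⟩
      · exact absurd (Finsupp.single_eq_of_ne (fun h' => hgh h'.symm)) hne
    · exact absurd rfl hne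
  have hpat : ∀ p q g, ((D1 * fel r ac B * D2) p q).coeff g ≠ 0 →
      r p.2 = s q.2 ∧ g ∈ (Subgroup.zpowers (t (r p.2))).map (C (r p.2)).subtype := by
    intro p q g hg
    rw [hent, MonoidAlgebra.coeff_mul_single_apply, MonoidAlgebra.coeff_single_mul_apply, one_mul,
      mul_one, inv_inv] at hg
    obtain ⟨h2, h3⟩ := hfel p q _ hg
    obtain ⟨h4, h5⟩ := hB _ _ _ h2
    refine ⟨h4, ?_⟩
    have h6 := hrep (r p.2) _ p.1 q.1 h5 h3
    have h7 : (rep (r p.2) p.1)⁻¹ * (rep (r p.2) p.1 * (g * (rep (s q.2) q.1)⁻¹))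
        * rep (r p.2) q.1 = g := by
      rw [h4]; group
    rwa [h7] at h6
  refine kap_int' (fun p : Fin N × K => r p.2) (fun q : Fin N × L => s q.2)
    (fun b => (Subgroup.zpowers (t b)).map (C b).subtype) ?_ ?_ (Fintype.card (Fin N × K)) _ ?_ ?_ ?_
  · rintro b g ⟨z, hz, rfl⟩ n hn hg
    have hz1 : z ^ n = 1 := by
      apply Subtype.ext
      have := hg
      simp only [Subgroup.coe_subtype] at this
      rw [Subgroup.coe_pow, this]
      rfl
    obtain ⟨k, rfl⟩ := Subgroup.mem_zpowers_iff.1 hz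
    have h8 : t b ^ (k * n) = 1 := by rw [_root_.zpow_mul, _root_.zpow_natCast, hz1]
    rcases ht1 b _ h8 with h9 | h9
    · rw [h9, _root_.one_zpow]; rfl
    · rcases mul_eq_zero.1 h9 with h10 | h10
      · rw [h10, _root_.zpow_zero]; rfl
      · exact absurd (by exact_mod_cast h10) hn.ne'
  · intro b
    have : (Subgroup.zpowers (t b)).map (C b).subtype = Subgroup.zpowers ((t b : C b) : G) := by
      rw [MonoidHom.map_zpowers]; rfl
    rw [this]
    infer_instance
  · intro p q
    exact mem_SR_of _ _ fun g hg => (hpat p q g hg).2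
  · intro p q h
    obtain ⟨g, hg⟩ : ∃ g, ((D1 * fel r ac B * D2) p q).coeff g ≠ 0 := by
      by_contra hcon
      push Not at hcon
      apply h
      ext g
      exact hcon g
    exact (hpat p q g hg).1
  · exact ⟨Finset.univ, le_rfl, fun i hi => absurd (Finset.mem_univ _) hi⟩

end main

end TH57.Thr.Ati
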