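import Pool.Agent.TH57.Thr.Tri

set_option autoImplicit false

/-! Geodesics and tripods in bipartite graphs. -/

namespace TH57.Thr

open SimpleGraph

variable {V : Type*}

/-- The graph contains an induced tripod with arms of length `N` (and the arms are geodesics). -/
def HasTripod (Γ : SimpleGraph V) (N : ℕ) : Prop :=
  ∃ (a : Fin 3 → ℕ → V) (o : V), (∀ i, a i 0 = o) ∧
    (∀ i k l, k ≤ N → l ≤ N → Γ.dist (a i k) (a i l) = (k - l) + (l - k)) ∧
    (∀ i j k l, i ≠ j → 1 ≤ k → k ≤ N → 1 ≤ l → l ≤ N → 2 ≤ Γ.dist (a i k) (a j l))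

theorem tripod_norm [DecidableEq V] {Γ : SimpleGraph V}
    (W : V → V → ℝ) (hsymm : ∀ u v, W u v = W v u) (hWΓ : ∀ u v, ¬ Γ.Adj u v → W u v = 0)
    (hW1 : ∀ u v, Γ.Adj u v → 1 ≤ |W u v|) (c : ℝ)
    (hc : ∀ (s : Finset V) (f : V → ℝ),
      ∑ u ∈ s, ∑ v ∈ s, W u v * f u * f v ≤ c * ∑ u ∈ s, f u ^ 2)
    (N : ℕ) (hT : HasTripod Γ N) (t : ℝ) (ht0 : 0 < t) (ht : t ^ 2 = 1 / 2) :
    3 * t * (1 - (1 / 2) ^ N) * 4 ≤ c * (4 - 3 * (1 / 2) ^ N) := by
  obtain ⟨a, o, h0, h1, h2⟩ := hT
  refine tripod_bound W hsymm c hc N a o h0 ?_ ?_ ?_ ?_ t ht0 ht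
  · intro i j k l hk hl h
    by_cases hij : i = j
    · subst hij
      right
      refine ⟨rfl, ?_⟩
      have := h1 i k l hk hl
      rw [h, SimpleGraph.dist_self] at this
      omega
    · rcases Nat.eq_zero_or_pos k with hk0 | hk0
      · left
        refine ⟨hk0, ?_⟩
        subst hk0
        rw [h0 i, ← h0 j] at h
        have := h1 j 0 l (by omega) hl
        rw [h, SimpleGraph.dist_self] at this
        omega
      · rcases Nat.eq_zero_or_pos l with hl0 | hl0
        · exfalso
          subst hl0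
          rw [h0 j, ← h0 i] at h
          have := h1 i k 0 hk (by omega)
          rw [h, SimpleGraph.dist_self] at this
          omega
        · exfalso
          have := h2 i j k l hij hk0 hk hl0 hl
          rw [h, SimpleGraph.dist_self] at this
          omega
  · intro i k l hk hl h3 h4
    apply hWΓ
    intro h
    have := SimpleGraph.dist_eq_one_iff_adj.2 h
    rw [h1 i k l hk hl] at this
    omega
  · intro i j k l hij hk0 hk hl0 hl
    apply hWΓ
    intro h
    have := SimpleGraph.dist_eq_one_iff_adj.2 h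
    have := h2 i j k l hij hk0 hk hl0 hl
    omega
  · intro i k hk
    apply hW1
    rw [← SimpleGraph.dist_eq_one_iff_adj, h1 i k (k + 1) (by omega) (by omega)]
    omega

theorem exists_geod {Γ : SimpleGraph V} (hΓ : Γ.Connected) (u v : V) :
    ∃ p : ℕ → V, p 0 = u ∧ p (Γ.dist u v) = v ∧
      ∀ i j, i ≤ Γ.dist u v → j ≤ Γ.dist u v → Γ.dist (p i) (p j) = (i - j) + (j - i) := by
  obtain ⟨w, hw⟩ := hΓ.exists_walk_length_eq_dist u v
  refine ⟨w.getVert, w.getVert_zero, by rw [← hw]; exact w.getVert_length, ?_⟩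
  have h1 : ∀ i d, i + d ≤ w.length → Γ.dist (w.getVert i) (w.getVert (i + d)) ≤ d := by
    intro i d
    induction d with
    | zero => intro _; simp
    | succ d ih =>
      intro h
      have h2 := ih (by omega)
      have h3 : Γ.Adj (w.getVert (i + d)) (w.getVert (i + d + 1)) :=
        w.adj_getVert_succ (by omega)
      have h4 := hΓ.dist_triangle (u := w.getVert i) (v := w.getVert (i + d))
        (w := w.getVert (i + d + 1))
      have h5 := SimpleGraph.dist_eq_one_iff_adj.2 h3
      rw [show i + (d + 1) = i + d + 1 by omega]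
      omega
  have h2 : ∀ i j, i ≤ j → j ≤ w.length → Γ.dist (w.getVert i) (w.getVert j) = j - i := by
    intro i j hij hj
    apply le_antisymm
    · have := h1 i (j - i) (by omega)
      rwa [show i + (j - i) = j by omega] at this
    · have a1 := h1 0 i (by omega)
      have a2 := h1 j (w.length - j) (by omega)
      rw [zero_add, w.getVert_zero] at a1
      rw [show j + (w.length - j) = w.length by omega, w.getVert_length] at a2
      have a3 := hΓ.dist_triangle (u := u) (v := w.getVert i) (w := v)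
      have a4 := hΓ.dist_triangle (u := w.getVert i) (v := w.getVert j) (w := v)
      omega
  intro i j hi hj
  rw [← hw] at hi hj
  rcases le_total i j with h | h
  · rw [h2 i j h hj]; omega
  · rw [SimpleGraph.dist_comm, h2 j i h hi]; omega

/-- A vertex far away from the middle part of a geodesic gives a tripod. -/
theorem tripod_of_far {Γ : SimpleGraph V} (hΓ : Γ.Connected) (col : V → Bool)
    (hcol : ∀ u v, Γ.Adj u v → col u ≠ col v) (γ : ℕ → V) (L N : ℕ)
    (hγ : ∀ i j, i ≤ L → j ≤ L → Γ.dist (γ i) (γ j) = (i - j) + (j - i)) (u : V) (i₀ : ℕ)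
    (h1 : N + 2 ≤ i₀) (h2 : i₀ + N + 2 ≤ L)
    (hmin : ∀ l, l ≤ L → Γ.dist (γ i₀) u ≤ Γ.dist (γ l) u) (hfar : N + 1 ≤ Γ.dist (γ i₀) u) :
    HasTripod Γ N := by
  obtain ⟨p, hp0, hpk, hp⟩ := exists_geod hΓ (γ i₀) u
  set k := Γ.dist (γ i₀) u with hk
  have hpγ : ∀ a l, a ≤ k → l ≤ L → a ≤ Γ.dist (p a) (γ l) := by
    intro a l ha hl
    have a1 := hmin l hl
    have a2 := hΓ.dist_triangle (u := γ l) (v := p a) (w := u)
    have a3 := hp a k ha le_rfl
    rw [hpk] at a3
    rw [SimpleGraph.dist_comm (u := p a)]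
    omega
  by_cases hA : ∃ i, i + 2 ≤ L ∧ N ≤ i + 1 ∧ i + 1 + N ≤ L ∧ Γ.Adj (p 1) (γ i) ∧
      Γ.Adj (p 1) (γ (i + 2))
  · obtain ⟨i, hi1, hi2, hi3, hadj1, hadj2⟩ := hA
    have e1 := SimpleGraph.dist_eq_one_iff_adj.2 hadj1
    have e2 := SimpleGraph.dist_eq_one_iff_adj.2 hadj2
    have dlow : ∀ l, 1 ≤ l → l ≤ N → Γ.dist (p 1) (γ (i + 1 - l)) = l := by
      intro l hl0 hl
      apply le_antisymm
      · have := hΓ.dist_triangle (u := p 1) (v := γ i) (w := γ (i + 1 - l))
        rw [hγ i (i + 1 - l) (by omega) (by omega)] at this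
        omega
      · have := hΓ.dist_triangle (u := γ (i + 2)) (v := p 1) (w := γ (i + 1 - l))
        rw [hγ (i + 2) (i + 1 - l) (by omega) (by omega), SimpleGraph.dist_comm, e2] at this
        omega
    have dhigh : ∀ l, 1 ≤ l → l ≤ N → Γ.dist (p 1) (γ (i + 1 + l)) = l := by
      intro l hl0 hl
      apply le_antisymm
      · have := hΓ.dist_triangle (u := p 1) (v := γ (i + 2)) (w := γ (i + 1 + l))
        rw [hγ (i + 2) (i + 1 + l) (by omega) (by omega)] at this
        omega
      · have := hΓ.dist_triangle (u := γ i) (v := p 1) (w := γ (i + 1 + l))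
        rw [hγ i (i + 1 + l) (by omega) (by omega), SimpleGraph.dist_comm, e1] at this
        omega
    let a : Fin 3 → ℕ → V := ![fun k => if k = 0 then p 1 else γ (i + 1 - k),
      fun k => if k = 0 then p 1 else γ (i + 1 + k), fun k => p (k + 1)]
    refine ⟨a, p 1, ?_, ?_, ?_⟩
    · intro i'
      fin_cases i' <;> simp [a]
    · intro i' k' l' hk' hl'
      fin_cases i'
      · simp only [a, Fin.zero_eta, Matrix.cons_val_zero]
        split_ifs with ha hb hb
        · simp [ha, hb]
        · rw [dlow l' (by omega) hl']; omega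
        · rw [SimpleGraph.dist_comm, dlow k' (by omega) hk']; omega
        · rw [hγ _ _ (by omega) (by omega)]; omega
      · simp only [a, Fin.mk_one, Matrix.cons_val_one, Matrix.cons_val_zero]
        split_ifs with ha hb hb
        · simp [ha, hb]
        · rw [dhigh l' (by omega) hl']; omega
        · rw [SimpleGraph.dist_comm, dhigh k' (by omega) hk']; omega
        · rw [hγ _ _ (by omega) (by omega)]; omega
      · simp only [a, Fin.reduceFinMk, Matrix.cons_val]
        rw [hp _ _ (by omega) (by omega)]; omega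
    · have c01 : ∀ k' l', 1 ≤ k' → k' ≤ N → 1 ≤ l' → l' ≤ N → 2 ≤ Γ.dist (a 0 k') (a 1 l') := by
        intro k' l' hk0 hk' hl0 hl'
        simp only [a, Matrix.cons_val_zero, Matrix.cons_val_one]
        rw [if_neg (by omega), if_neg (by omega), hγ _ _ (by omega) (by omega)]
        omega
      have c02 : ∀ k' l', 1 ≤ k' → k' ≤ N → 1 ≤ l' → l' ≤ N → 2 ≤ Γ.dist (a 0 k') (a 2 l') := by
        intro k' l' hk0 hk' hl0 hl'
        simp only [a, Matrix.cons_val_zero, Matrix.cons_val]
        rw [if_neg (by omega), SimpleGraph.dist_comm]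
        have := hpγ (l' + 1) (i + 1 - k') (by omega) (by omega)
        omega
      have c12 : ∀ k' l', 1 ≤ k' → k' ≤ N → 1 ≤ l' → l' ≤ N → 2 ≤ Γ.dist (a 1 k') (a 2 l') := by
        intro k' l' hk0 hk' hl0 hl'
        simp only [a, Matrix.cons_val_one, Matrix.cons_val]
        rw [if_neg (by omega), SimpleGraph.dist_comm]
        have := hpγ (l' + 1) (i + 1 + k') (by omega) (by omega)
        omega
      intro i' j' k' l' hij hk0 hk' hl0 hl'
      fin_cases i' <;> fin_cases j'
      · exact absurd rfl hij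
      · exact c01 k' l' hk0 hk' hl0 hl'
      · exact c02 k' l' hk0 hk' hl0 hl'
      · rw [SimpleGraph.dist_comm]; exact c01 l' k' hl0 hl' hk0 hk'
      · exact absurd rfl hij
      · exact c12 k' l' hk0 hk' hl0 hl'
      · rw [SimpleGraph.dist_comm]; exact c02 l' k' hl0 hl' hk0 hk'
      · rw [SimpleGraph.dist_comm]; exact c12 l' k' hl0 hl' hk0 hk'
      · exact absurd rfl hij
  · -- case B
    have hadj0 : Γ.Adj (p 1) (γ i₀) := by
      rw [← SimpleGraph.dist_eq_one_iff_adj, ← hp0, hp 1 0 (by omega) (by omega)]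
    have hB : ∀ l, l ≤ L → l ≠ i₀ → ¬ Γ.Adj (p 1) (γ l) := by
      intro l hl hne hadj
      have e1 := SimpleGraph.dist_eq_one_iff_adj.2 hadj
      have e0 := SimpleGraph.dist_eq_one_iff_adj.2 hadj0
      have e2 := hΓ.dist_triangle (u := γ l) (v := p 1) (w := γ i₀)
      rw [hγ l i₀ hl (by omega), SimpleGraph.dist_comm, e1, e0] at e2
      have e3 : l + 1 = i₀ ∨ i₀ + 1 = l ∨ l + 2 = i₀ ∨ i₀ + 2 = l := by omega
      rcases e3 with h | h | h | h
      · have h4 : Γ.Adj (γ l) (γ i₀) := by
          rw [← SimpleGraph.dist_eq_one_iff_adj, hγ l i₀ hl (by omega)]; omega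
        have c1 := hcol _ _ h4
        have c2 := hcol _ _ hadj
        have c3 := hcol _ _ hadj0
        cases h5 : col (p 1) <;> cases h6 : col (γ l) <;> cases h7 : col (γ i₀) <;> simp_all
      · have h4 : Γ.Adj (γ l) (γ i₀) := by
          rw [← SimpleGraph.dist_eq_one_iff_adj, hγ l i₀ hl (by omega)]; omega
        have c1 := hcol _ _ h4
        have c2 := hcol _ _ hadj
        have c3 := hcol _ _ hadj0
        cases h5 : col (p 1) <;> cases h6 : col (γ l) <;> cases h7 : col (γ i₀) <;> simp_all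
      · apply hA
        refine ⟨l, by omega, by omega, by omega, hadj, ?_⟩
        rw [h]; exact hadj0
      · apply hA
        refine ⟨i₀, by omega, by omega, by omega, hadj0, ?_⟩
        rw [h]; exact hadj
    have hp1 : ∀ l, l ≤ L → l ≠ i₀ → 2 ≤ Γ.dist (p 1) (γ l) := by
      intro l hl hne
      have a1 := hpγ 1 l (by omega) hl
      have a2 : Γ.dist (p 1) (γ l) ≠ 1 := fun h =>
        hB l hl hne (SimpleGraph.dist_eq_one_iff_adj.1 h)
      omega
    let a : Fin 3 → ℕ → V := ![fun k => γ (i₀ - k), fun k => γ (i₀ + k), fun k => p k]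
    refine ⟨a, γ i₀, ?_, ?_, ?_⟩
    · intro i'
      fin_cases i'
      · simp [a]
      · simp [a]
      · simp [a, hp0]
    · intro i' k' l' hk' hl'
      fin_cases i'
      · simp only [a, Fin.zero_eta, Matrix.cons_val_zero]
        rw [hγ _ _ (by omega) (by omega)]; omega
      · simp only [a, Fin.mk_one, Matrix.cons_val_one, Matrix.cons_val_zero]
        rw [hγ _ _ (by omega) (by omega)]; omega
      · simp only [a, Fin.reduceFinMk, Matrix.cons_val]
        rw [hp _ _ (by omega) (by omega)]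
    · have c01 : ∀ k' l', 1 ≤ k' → k' ≤ N → 1 ≤ l' → l' ≤ N → 2 ≤ Γ.dist (a 0 k') (a 1 l') := by
        intro k' l' hk0 hk' hl0 hl'
        simp only [a, Matrix.cons_val_zero, Matrix.cons_val_one]
        rw [hγ _ _ (by omega) (by omega)]
        omega
      have cg : ∀ k' l', 1 ≤ k' → k' ≤ N → l' ≤ L → l' ≠ i₀ → 2 ≤ Γ.dist (p k') (γ l') := by
        intro k' l' hk0 hk' hl' hne
        rcases Nat.lt_or_ge k' 2 with h | h
        · have : k' = 1 := by omega
          subst this
          exact hp1 l' hl' hne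
        · have := hpγ k' l' (by omega) hl'
          omega
      have c02 : ∀ k' l', 1 ≤ k' → k' ≤ N → 1 ≤ l' → l' ≤ N → 2 ≤ Γ.dist (a 0 k') (a 2 l') := by
        intro k' l' hk0 hk' hl0 hl'
        simp only [a, Matrix.cons_val_zero, Matrix.cons_val]
        rw [SimpleGraph.dist_comm]
        exact cg l' (i₀ - k') hl0 hl' (by omega) (by omega)
      have c12 : ∀ k' l', 1 ≤ k' → k' ≤ N → 1 ≤ l' → l' ≤ N → 2 ≤ Γ.dist (a 1 k') (a 2 l') := by
        intro k' l' hk0 hk' hl0 hl'
        simp only [a, Matrix.cons_val_one, Matrix.cons_val]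
        rw [SimpleGraph.dist_comm]
        exact cg l' (i₀ + k') hl0 hl' (by omega) (by omega)
      intro i' j' k' l' hij hk0 hk' hl0 hl'
      fin_cases i' <;> fin_cases j'
      · exact absurd rfl hij
      · exact c01 k' l' hk0 hk' hl0 hl'
      · exact c02 k' l' hk0 hk' hl0 hl'
      · rw [SimpleGraph.dist_comm]; exact c01 l' k' hl0 hl' hk0 hk'
      · exact absurd rfl hij
      · exact c12 k' l' hk0 hk' hl0 hl'
      · rw [SimpleGraph.dist_comm]; exact c02 l' k' hl0 hl' hk0 hk'
      · rw [SimpleGraph.dist_comm]; exact c12 l' k' hl0 hl' hk0 hk'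
      · exact absurd rfl hij

end TH57.Thr
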