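import Pool.Agent.TH57.Thr.Small

set_option autoImplicit false
set_option linter.style.haveILetI false
set_option linter.unusedSectionVars false

/-! Stably trivial matrices modulo commutators and trivial units. -/

namespace TH57.Thr

open Matrix
open scoped commutatorElement

section defs

variable {R : Type} [Ring R] {κ μ ν : Type} [Fintype κ] [DecidableEq κ] [Fintype μ] [DecidableEq μ]
  [Fintype ν] [DecidableEq ν]

/-- stabilisation -/
def stm (μ : Type) [Fintype μ] [DecidableEq μ] : Matrix κ κ R →* Matrix (κ ⊕ μ) (κ ⊕ μ) R where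
  toFun A := fromBlocks A 0 0 1
  map_one' := Matrix.fromBlocks_one
  map_mul' A B := by rw [Matrix.fromBlocks_multiply]; simp

/-- reindexing -/
def re (e : μ ≃ κ) : Matrix κ κ R →* Matrix μ μ R where
  toFun A := A.submatrix e e
  map_one' := Matrix.submatrix_one_equiv e
  map_mul' A B := by rw [Matrix.submatrix_mul_equiv]

/-- one entry on the diagonal -/
def dgm (i : κ) : R →* Matrix κ κ R where
  toFun a := Matrix.diagonal (Function.update 1 i a)
  map_one' := by
    rw [show Function.update (1 : κ → R) i 1 = 1 from Function.update_eq_self i (1 : κ → R)]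
    exact Matrix.diagonal_one
  map_mul' a b := by
    rw [Matrix.diagonal_mul_diagonal]
    congr 1
    funext j
    by_cases h : j = i
    · subst h; simp
    · simp [Function.update_of_ne h]

theorem dgm_apply (i : κ) (a : R) : dgm i a = Matrix.diagonal (Function.update 1 i a) := rfl

/-- functoriality -/
def mpm {S : Type} [Ring S] (φ : R →+* S) : Matrix κ κ R →* Matrix κ κ S :=
  (RingHom.mapMatrix φ).toMonoidHom

theorem stm_dgm (i : κ) (a : R) : stm μ (dgm i a) = dgm (Sum.inl i) a := by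
  ext (k | k) (l | l)
  · simp only [stm, dgm_apply, MonoidHom.coe_mk, OneHom.coe_mk, fromBlocks_apply₁₁,
      Matrix.diagonal_apply, Sum.inl.injEq]
    by_cases h : k = l
    · subst h
      by_cases h2 : k = i
      · subst h2; simp
      · simp [Function.update_of_ne h2,
          Function.update_of_ne (fun h : (Sum.inl k : κ ⊕ μ) = Sum.inl i => h2 (Sum.inl_injective h))]
    · simp [h]
  · simp [stm, dgm_apply]
  · simp [stm, dgm_apply]
  · simp only [stm, dgm_apply, MonoidHom.coe_mk, OneHom.coe_mk, fromBlocks_apply₂₂,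
      Matrix.diagonal_apply, Matrix.one_apply, Sum.inr.injEq]
    by_cases h : k = l
    · subst h
      simp [Function.update_of_ne (Sum.inr_ne_inl : (Sum.inr k : κ ⊕ μ) ≠ Sum.inl i)]
    · simp [h]

theorem re_dgm (e : μ ≃ κ) (i : κ) (a : R) : re e (dgm i a) = dgm (e.symm i) a := by
  ext k l
  simp only [re, dgm_apply, MonoidHom.coe_mk, OneHom.coe_mk, submatrix_apply,
    Matrix.diagonal_apply, e.injective.eq_iff]
  by_cases h : k = l
  · subst h
    by_cases h2 : e k = i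
    · subst h2; simp
    · have h3 : k ≠ e.symm i := fun h3 => h2 (by rw [h3]; simp)
      simp [Function.update_of_ne h2, Function.update_of_ne h3]
  · simp [h]

theorem mpm_dgm {S : Type} [Ring S] (φ : R →+* S) (i : κ) (a : R) :
    mpm φ (dgm i a) = dgm i (φ a) := by
  ext k l
  simp only [mpm, dgm_apply, RingHom.toMonoidHom_eq_coe, MonoidHom.coe_coe, RingHom.mapMatrix_apply,
    Matrix.map_apply, Matrix.diagonal_apply]
  by_cases h : k = l
  · subst h
    by_cases h2 : k = i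
    · subst h2; simp
    · simp [Function.update_of_ne h2]
  · simp [h]

variable (U : Subgroup Rˣ)

/-- the subgroup generated by the commutators and the trivial units -/
def HH (κ : Type) [Fintype κ] [DecidableEq κ] : Subgroup (Matrix κ κ R)ˣ :=
  commutator _ ⊔ Subgroup.closure {x | ∃ i : κ, ∃ u ∈ U, x = Units.map (dgm i) u}

theorem commutator_le_HH : commutator (Matrix κ κ R)ˣ ≤ HH U κ := le_sup_left

theorem dgm_mem_HH (i : κ) (u : Rˣ) (hu : u ∈ U) : Units.map (dgm i) u ∈ HH U κ :=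
  (le_sup_right : _ ≤ HH U κ) (Subgroup.subset_closure ⟨i, u, hu, rfl⟩)

theorem map_HH_le {S : Type} [Ring S] (V : Subgroup Sˣ) (f : (Matrix κ κ R)ˣ →* (Matrix μ μ S)ˣ)
    (hf : ∀ i : κ, ∀ u ∈ U, f (Units.map (dgm i) u) ∈ HH V μ) (x : (Matrix κ κ R)ˣ)
    (hx : x ∈ HH U κ) : f x ∈ HH V μ := by
  have h1 : HH U κ ≤ (HH V μ).comap f := by
    apply sup_le
    · rw [← Subgroup.map_le_iff_le_comap, commutator_def, Subgroup.map_commutator]
      exact le_trans (Subgroup.commutator_mono le_top le_top) (commutator_le_HH V)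
    · rw [Subgroup.closure_le]
      rintro _ ⟨i, u, hu, rfl⟩
      exact hf i u hu
  exact h1 hx

theorem st_mem (x : (Matrix κ κ R)ˣ) (hx : x ∈ HH U κ) :
    Units.map (stm μ) x ∈ HH U (κ ⊕ μ) := by
  refine map_HH_le U U (Units.map (stm μ)) (fun i u hu => ?_) x hx
  have : Units.map (stm μ) (Units.map (dgm i) u) = Units.map (dgm (Sum.inl i : κ ⊕ μ)) u :=
    Units.ext (stm_dgm i _)
  rw [this]
  exact dgm_mem_HH U _ u hu

theorem re_mem (e : μ ≃ κ) (x : (Matrix κ κ R)ˣ) (hx : x ∈ HH U κ) :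
    Units.map (re e) x ∈ HH U μ := by
  refine map_HH_le U U (Units.map (re e)) (fun i u hu => ?_) x hx
  have : Units.map (re e) (Units.map (dgm i) u) = Units.map (dgm (e.symm i)) u :=
    Units.ext (re_dgm e i _)
  rw [this]
  exact dgm_mem_HH U _ u hu

theorem mp_mem {S : Type} [Ring S] (V : Subgroup Sˣ) (φ : R →+* S)
    (hφ : ∀ u ∈ U, Units.map φ.toMonoidHom u ∈ V) (x : (Matrix κ κ R)ˣ) (hx : x ∈ HH U κ) :
    Units.map (mpm φ) x ∈ HH V κ := by
  refine map_HH_le U V (Units.map (mpm φ)) (fun i u hu => ?_) x hx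
  have : Units.map (mpm φ) (Units.map (dgm i) u)
      = Units.map (dgm i) (Units.map φ.toMonoidHom u) :=
    Units.ext (mpm_dgm φ i _)
  rw [this]
  exact dgm_mem_HH V _ _ (hφ u hu)

/-- stably trivial -/
def TT (x : (Matrix κ κ R)ˣ) : Prop :=
  ∃ (μ : Type) (_ : Fintype μ) (_ : DecidableEq μ), Units.map (stm μ) x ∈ HH U (κ ⊕ μ)

theorem TT_of_mem (x : (Matrix κ κ R)ˣ) (hx : x ∈ HH U κ) : TT U x :=
  ⟨Unit, inferInstance, inferInstance, st_mem U x hx⟩

theorem TT_one : TT U (1 : (Matrix κ κ R)ˣ) := TT_of_mem U 1 (one_mem _)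

/-- more stabilisation -/
theorem TT_more (x : (Matrix κ κ R)ˣ) (μ : Type) [Fintype μ] [DecidableEq μ]
    (h : Units.map (stm μ) x ∈ HH U (κ ⊕ μ)) (ν : Type) [Fintype ν] [DecidableEq ν] :
    Units.map (stm (μ ⊕ ν)) x ∈ HH U (κ ⊕ (μ ⊕ ν)) ∧
    Units.map (stm (ν ⊕ μ)) x ∈ HH U (κ ⊕ (ν ⊕ μ)) := by
  have h1 := st_mem (μ := ν) U _ h
  constructor
  · have h2 := re_mem U (Equiv.sumAssoc κ μ ν).symm _ h1
    convert h2 using 1
    apply Units.ext
    ext (i | i | i) (j | j | j) <;> simp [stm, re, Matrix.one_apply]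
  · let e : (κ ⊕ (ν ⊕ μ)) ≃ ((κ ⊕ μ) ⊕ ν) :=
      { toFun := Sum.elim (fun i => Sum.inl (Sum.inl i))
          (Sum.elim Sum.inr (fun l => Sum.inl (Sum.inr l)))
        invFun := Sum.elim (Sum.elim Sum.inl (fun l => Sum.inr (Sum.inr l)))
          (fun k => Sum.inr (Sum.inl k))
        left_inv := by rintro (i | i | i) <;> rfl
        right_inv := by rintro ((i | i) | i) <;> rfl }
    have h2 := re_mem U e _ h1
    convert h2 using 1
    apply Units.ext
    ext (i | i | i) (j | j | j) <;> simp [stm, re, e, Matrix.one_apply]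

theorem TT_mul (x y : (Matrix κ κ R)ˣ) (hx : TT U x) (hy : TT U y) : TT U (x * y) := by
  obtain ⟨μ, i1, i2, h1⟩ := hx
  obtain ⟨ν, i3, i4, h2⟩ := hy
  refine ⟨μ ⊕ ν, inferInstance, inferInstance, ?_⟩
  rw [map_mul]
  exact mul_mem (TT_more U x μ h1 ν).1 (TT_more U y ν h2 μ).2

theorem TT_inv (x : (Matrix κ κ R)ˣ) (hx : TT U x) : TT U x⁻¹ := by
  obtain ⟨μ, i1, i2, h1⟩ := hx
  refine ⟨μ, inferInstance, inferInstance, ?_⟩
  rw [map_inv]
  exact inv_mem h1

theorem TT_conj (x g : (Matrix κ κ R)ˣ) (hx : TT U x) : TT U (g * x * g⁻¹) := by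
  have h1 : g * x * g⁻¹ = ⁅g, x⁆ * x := by rw [commutatorElement_def]; group
  rw [h1]
  refine TT_mul U _ _ (TT_of_mem U _ (commutator_le_HH U ?_)) hx
  rw [commutator_def]
  exact Subgroup.commutator_mem_commutator (Subgroup.mem_top _) (Subgroup.mem_top _)

theorem TT_re (e : μ ≃ κ) (x : (Matrix κ κ R)ˣ) (hx : TT U x) : TT U (Units.map (re e) x) := by
  obtain ⟨ν, i1, i2, h1⟩ := hx
  refine ⟨ν, inferInstance, inferInstance, ?_⟩
  have h2 := re_mem U (Equiv.sumCongr e (Equiv.refl ν)) _ h1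
  convert h2 using 1
  apply Units.ext
  ext (i | i) (j | j) <;> simp [stm, re, Matrix.one_apply]

theorem TT_st (x : (Matrix κ κ R)ˣ) (hx : TT U x) : TT U (Units.map (stm μ) x) := by
  obtain ⟨ν, i1, i2, h1⟩ := hx
  refine ⟨ν, inferInstance, inferInstance, ?_⟩
  have h2 := re_mem U (Equiv.sumAssoc κ μ ν) _ (TT_more U x ν h1 μ).2
  convert h2 using 1
  apply Units.ext
  ext ((i | i) | i) ((j | j) | j) <;> simp [stm, re, Matrix.one_apply]

theorem TT_unst (x : (Matrix κ κ R)ˣ) (hx : TT U (Units.map (stm μ) x)) : TT U x := by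
  obtain ⟨ν, i1, i2, h1⟩ := hx
  refine ⟨μ ⊕ ν, inferInstance, inferInstance, ?_⟩
  have h2 := re_mem U (Equiv.sumAssoc κ μ ν).symm _ h1
  convert h2 using 1
  apply Units.ext
  ext (i | i | i) (j | j | j) <;> simp [stm, re, Matrix.one_apply]

theorem TT_map {S : Type} [Ring S] (V : Subgroup Sˣ) (φ : R →+* S)
    (hφ : ∀ u ∈ U, Units.map φ.toMonoidHom u ∈ V) (x : (Matrix κ κ R)ˣ) (hx : TT U x) :
    TT V (Units.map (mpm φ) x) := by
  obtain ⟨ν, i1, i2, h1⟩ := hx
  refine ⟨ν, inferInstance, inferInstance, ?_⟩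
  have h2 := mp_mem U V φ hφ _ h1
  convert h2 using 1
  apply Units.ext
  ext (i | i) (j | j)
  · simp [stm, mpm]
  · simp [stm, mpm]
  · simp [stm, mpm]
  · by_cases h : i = j <;> simp [stm, mpm, Matrix.one_apply, h]

/-- elementary matrices as units -/
def tv (i j : κ) (h : i ≠ j) (a : R) : (Matrix κ κ R)ˣ where
  val := 1 + Matrix.single i j a
  inv := 1 - Matrix.single i j a
  val_inv := by
    rw [add_mul, one_mul, mul_sub, mul_one, Matrix.single_mul_single_of_ne _ _ _ _ h.symm]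
    abel
  inv_val := by
    rw [sub_mul, one_mul, mul_add, mul_one, Matrix.single_mul_single_of_ne _ _ _ _ h.symm]
    abel

theorem tv_comm (i j k : κ) (hij : i ≠ j) (hik : i ≠ k) (hkj : k ≠ j) (a : R) :
    tv i j hij a = ⁅tv i k hik a, tv k j hkj (1 : R)⁆ := by
  rw [commutatorElement_def, eq_mul_inv_iff_mul_eq, eq_mul_inv_iff_mul_eq]
  apply Units.ext
  change (1 + Matrix.single i j a) * (1 + Matrix.single k j (1:R)) * (1 + Matrix.single i k a)
    = (1 + Matrix.single i k a) * (1 + Matrix.single k j (1:R))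
  simp only [add_mul, mul_add, one_mul, mul_one]
  rw [Matrix.single_mul_single_of_ne _ _ _ _ hkj.symm (1:R),
    Matrix.single_mul_single_same, Matrix.single_mul_single_of_ne _ _ _ _ hij.symm a,
    Matrix.single_mul_single_of_ne _ _ _ _ hij.symm a]
  simp only [mul_one, zero_mul, add_zero]
  abel

theorem TT_tv (i j : κ) (h : i ≠ j) (a : R) : TT U (tv i j h a) := by
  apply TT_unst (μ := Unit) U
  have h1 : Units.map (stm Unit) (tv i j h a)
      = tv (Sum.inl i) (Sum.inl j) (fun h' => h (Sum.inl_injective h')) a := by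
    apply Units.ext
    ext (k | k) (l | l) <;> simp [stm, tv, Matrix.one_apply, Matrix.single_apply]
  rw [h1, tv_comm (Sum.inl i) (Sum.inl j) (Sum.inr ()) _ Sum.inl_ne_inr Sum.inr_ne_inl]
  apply TT_of_mem U _ (commutator_le_HH U ?_)
  rw [commutator_def]
  exact Subgroup.commutator_mem_commutator (Subgroup.mem_top _) (Subgroup.mem_top _)

theorem El_unit (M : Matrix κ κ R) (h : M ∈ El (R := R) κ) :
    ∃ u : (Matrix κ κ R)ˣ, (u : Matrix κ κ R) = M ∧ ∀ U : Subgroup Rˣ, TT U u := by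
  induction h using Submonoid.closure_induction with
  | mem x hx =>
    obtain ⟨i, j, hij, a, rfl⟩ := hx
    exact ⟨tv i j hij a, rfl, fun U => TT_tv U i j hij a⟩
  | one => exact ⟨1, rfl, fun U => TT_one U⟩
  | mul x y _ _ hx hy =>
    obtain ⟨u, hu1, hu2⟩ := hx
    obtain ⟨v, hv1, hv2⟩ := hy
    exact ⟨u * v, by rw [Units.val_mul, hu1, hv1], fun U => TT_mul U _ _ (hu2 U) (hv2 U)⟩

theorem TT_of_El (x : (Matrix κ κ R)ˣ) (h : (x : Matrix κ κ R) ∈ El (R := R) κ) : TT U x := by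
  obtain ⟨u, hu1, hu2⟩ := El_unit _ h
  have : x = u := Units.ext hu1.symm
  rw [this]; exact hu2 U

/-- block triangular matrices -/
theorem TT_tri (a : (Matrix κ κ R)ˣ) (b : (Matrix μ μ R)ˣ) (c : Matrix μ κ R)
    (x : (Matrix (κ ⊕ μ) (κ ⊕ μ) R)ˣ) (hx : (x : Matrix (κ ⊕ μ) (κ ⊕ μ) R) = fromBlocks ↑a 0 c ↑b)
    (ha : TT U a) (hb : TT U b) : TT U x := by
  have hb' : TT U (Units.map (re (Equiv.sumComm κ μ)) (Units.map (stm κ) b)) :=
    TT_re U _ _ (TT_st U b hb)
  obtain ⟨w, hw1, hw2⟩ := El_unit (1 + (fromBlocks 0 0 (c * (↑a⁻¹ : Matrix κ κ R)) 0 : Matrix (κ ⊕ μ) (κ ⊕ μ) R))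
    (el_unip (Finset.univ.filter fun v : κ ⊕ μ => v.isRight) _ (by
      rintro (i | i) (j | j) h <;> simp at h ⊢))
  have h1 : x = w * Units.map (stm μ) a
      * Units.map (re (Equiv.sumComm κ μ)) (Units.map (stm κ) b) := by
    apply Units.ext
    rw [Units.val_mul, Units.val_mul, hw1, hx]
    have e1 : ((Units.map (stm μ) a : (Matrix (κ ⊕ μ) (κ ⊕ μ) R)ˣ) :
        Matrix (κ ⊕ μ) (κ ⊕ μ) R) = fromBlocks ↑a 0 0 1 := rfl
    have e2 : ((Units.map (re (Equiv.sumComm κ μ)) (Units.map (stm κ) b) :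
        (Matrix (κ ⊕ μ) (κ ⊕ μ) R)ˣ) : Matrix (κ ⊕ μ) (κ ⊕ μ) R) = fromBlocks 1 0 0 ↑b := by
      ext (i | i) (j | j) <;> simp [stm, re, Matrix.one_apply]
    have e3 : (1 + (fromBlocks 0 0 (c * (↑a⁻¹ : Matrix κ κ R)) 0 : Matrix (κ ⊕ μ) (κ ⊕ μ) R))
        = fromBlocks 1 0 (c * (↑a⁻¹ : Matrix κ κ R)) 1 := by
      rw [← Matrix.fromBlocks_one, Matrix.fromBlocks_add]; simp
    rw [e1, e2, e3, Matrix.fromBlocks_multiply, Matrix.fromBlocks_multiply]
    simp [Matrix.mul_assoc]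
  rw [h1]
  exact TT_mul U _ _ (TT_mul U _ _ (hw2 U) (TT_st U a ha)) hb'

end defs

end TH57.Thr
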