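import Pool.Agent.TH57.Thr.Small

set_option autoImplicit false
set_option linter.style.haveILetI false
set_option linter.unusedSectionVars false

/-! Stably free idempotent matrices and modules presented by matrices. -/

namespace TH57.Thr

open Matrix

section sf

variable {R : Type} [Ring R] {κ κ' ι ι' : Type} [Fintype κ] [DecidableEq κ] [Fintype κ']
  [DecidableEq κ'] [Fintype ι] [DecidableEq ι] [Fintype ι'] [DecidableEq ι']

/-- stably free idempotent matrices -/
def SF (E : Matrix κ κ R) : Prop :=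
  ∃ (a b : Type) (_ : Fintype a) (_ : DecidableEq a) (_ : Fintype b) (_ : DecidableEq b)
    (U : Matrix (κ ⊕ a) b R) (V : Matrix b (κ ⊕ a) R),
    U * V = fromBlocks E 0 0 1 ∧ V * U = 1

theorem SF_map {S : Type} [Ring S] (φ : R →+* S) (E : Matrix κ κ R) (h : SF E) :
    SF (E.map φ) := by
  obtain ⟨a, b, i1, i2, i3, i4, U, V, h1, h2⟩ := h
  refine ⟨a, b, i1, i2, i3, i4, U.map φ, V.map φ, ?_, ?_⟩
  · rw [← Matrix.map_mul, h1, Matrix.fromBlocks_map]
    simp
  · rw [← Matrix.map_mul, h2]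
    simp

theorem SF_conj (E : Matrix κ κ R) (h : SF E) (P : Matrix κ' κ R) (Q : Matrix κ κ' R)
    (hQP : Q * P = 1) : SF (P * E * Q) := by
  obtain ⟨a, b, i1, i2, i3, i4, U, V, h1, h2⟩ := h
  let PP : Matrix (κ' ⊕ a) (κ ⊕ a) R := fromBlocks P 0 0 1
  let QQ : Matrix (κ ⊕ a) (κ' ⊕ a) R := fromBlocks Q 0 0 1
  refine ⟨a, b, i1, i2, i3, i4, PP * U, V * QQ, ?_, ?_⟩
  · have : PP * U * (V * QQ) = PP * (U * V) * QQ := by
      simp only [Matrix.mul_assoc]
    rw [this, h1]
    simp only [PP, QQ]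
    rw [Matrix.fromBlocks_multiply, Matrix.fromBlocks_multiply]
    simp
  · have : V * QQ * (PP * U) = V * (QQ * PP) * U := by
      simp only [Matrix.mul_assoc]
    rw [this]
    simp only [PP, QQ]
    rw [Matrix.fromBlocks_multiply, hQP]
    simp [h2]

theorem SF_sum (E : Matrix κ κ R) (F : Matrix ι ι R) (hE : SF E) (hF : SF F) :
    SF (fromBlocks E 0 0 F) := by
  obtain ⟨a, b, i1, i2, i3, i4, U, V, h1, h2⟩ := hE
  obtain ⟨a', b', j1, j2, j3, j4, U', V', h1', h2'⟩ := hF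
  let σ : ((κ ⊕ ι) ⊕ (a ⊕ a')) ≃ ((κ ⊕ a) ⊕ (ι ⊕ a')) :=
    { toFun := Sum.elim (Sum.elim (fun i => Sum.inl (Sum.inl i)) (fun i => Sum.inr (Sum.inl i)))
        (Sum.elim (fun i => Sum.inl (Sum.inr i)) (fun i => Sum.inr (Sum.inr i)))
      invFun := Sum.elim (Sum.elim (fun i => Sum.inl (Sum.inl i)) (fun i => Sum.inr (Sum.inl i)))
        (Sum.elim (fun i => Sum.inl (Sum.inr i)) (fun i => Sum.inr (Sum.inr i)))
      left_inv := by rintro ((i | i) | (i | i)) <;> rfl
      right_inv := by rintro ((i | i) | (i | i)) <;> rfl }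
  refine ⟨a ⊕ a', b ⊕ b', inferInstance, inferInstance, inferInstance, inferInstance,
    (fromBlocks U 0 0 U').submatrix σ id, (fromBlocks V 0 0 V').submatrix id σ, ?_, ?_⟩
  · rw [← Matrix.submatrix_mul _ _ σ id σ Function.bijective_id, Matrix.fromBlocks_multiply,
      h1, h1']
    ext ((i | i) | (i | i)) ((j | j) | (j | j)) <;>
      simp [σ, Matrix.one_apply]
  · rw [Matrix.submatrix_mul_equiv, Matrix.fromBlocks_multiply, h2, h2', Matrix.submatrix_id_id,
      ← Matrix.fromBlocks_one]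
    simp

/-- the cokernel of `B` is projective and stably free -/
def SFC (B : Matrix ι κ R) : Prop := ∃ Y : Matrix κ ι R, B * Y * B = B ∧ SF (1 - Y * B)

theorem SFC_blocks (X : Matrix ι κ R) (Z : Matrix ι' κ' R) (hX : SFC X) (hZ : SFC Z) :
    SFC (fromBlocks X 0 0 Z) := by
  obtain ⟨Y, h1, h2⟩ := hX
  obtain ⟨Y', h1', h2'⟩ := hZ
  refine ⟨fromBlocks Y 0 0 Y', ?_, ?_⟩
  · rw [Matrix.fromBlocks_multiply, Matrix.fromBlocks_multiply]
    simp [h1, h1']
  · have : (1 : Matrix (κ ⊕ κ') (κ ⊕ κ') R) - fromBlocks Y 0 0 Y' * fromBlocks X 0 0 Z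
        = fromBlocks (1 - Y * X) 0 0 (1 - Y' * Z) := by
      rw [Matrix.fromBlocks_multiply, sub_eq_iff_eq_add, Matrix.fromBlocks_add,
        ← Matrix.fromBlocks_one]
      simp
    rw [this]
    exact SF_sum _ _ h2 h2'

theorem SFC_conj (B : Matrix ι κ R) (h : SFC B) (P : Matrix ι' ι R) (P' : Matrix ι ι' R)
    (Q : Matrix κ κ' R) (Q' : Matrix κ' κ R) (hP1 : P' * P = 1)
    (hQ1 : Q * Q' = 1) (hQ2 : Q' * Q = 1) : SFC (P * B * Q) := by
  obtain ⟨Y, h1, h2⟩ := h
  refine ⟨Q' * Y * P', ?_, ?_⟩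
  · calc P * B * Q * (Q' * Y * P') * (P * B * Q)
        = P * (B * (Q * Q') * Y * (P' * P) * B) * Q := by simp only [Matrix.mul_assoc]
      _ = P * B * Q := by rw [hP1, hQ1, Matrix.mul_one, Matrix.mul_one, h1]
  · have : 1 - Q' * Y * P' * (P * B * Q) = Q' * (1 - Y * B) * Q := by
      rw [Matrix.mul_sub, Matrix.sub_mul, Matrix.mul_one, hQ2]
      congr 1
      calc Q' * Y * P' * (P * B * Q) = Q' * (Y * (P' * P) * B) * Q := by
            simp only [Matrix.mul_assoc]
        _ = _ := by rw [hP1, Matrix.mul_one]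
    rw [this]
    exact SF_conj _ h2 Q' Q hQ1

theorem SFC_re (B : Matrix ι κ R) (h : SFC B) (e : ι' ≃ ι) (e' : κ' ≃ κ) :
    SFC (B.submatrix e e') := by
  have h1 : B.submatrix e e' = (1 : Matrix ι ι R).submatrix e id * B
      * (1 : Matrix κ κ R).submatrix id e' := by
    rw [← Matrix.submatrix_id_id B, ← Matrix.submatrix_mul _ _ e id id Function.bijective_id,
      ← Matrix.submatrix_mul _ _ e id e' Function.bijective_id, Matrix.mul_one, Matrix.one_mul,
      Matrix.submatrix_id_id]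
  rw [h1]
  apply SFC_conj B h _ ((1 : Matrix ι ι R).submatrix id e) _ ((1 : Matrix κ κ R).submatrix e' id)
  · rw [Matrix.submatrix_mul_equiv, Matrix.one_mul, Matrix.submatrix_id_id]
  · rw [Matrix.submatrix_mul_equiv, Matrix.one_mul, Matrix.submatrix_id_id]
  · rw [← Matrix.submatrix_mul _ _ e' id e' Function.bijective_id, Matrix.one_mul,
      Matrix.submatrix_one_equiv]

end sf

section modules

variable {R : Type} [Ring R] {κ ι : Type} [Fintype κ] [DecidableEq κ] [Fintype ι] [DecidableEq ι]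

/-- a projective cokernel -/
theorem regular_of_projective (B : Matrix ι κ R) (P : Type) [AddCommGroup P] [Module R P]
    (hP : Module.Projective R P) (e : P ≃ₗ[R] (κ → R) ⧸ LinearMap.range B.vecMulLinear) :
    ∃ Y : Matrix κ ι R, B * Y * B = B := by
  have hproj : Module.Projective R ((κ → R) ⧸ LinearMap.range B.vecMulLinear) :=
    Module.Projective.of_equiv e
  obtain ⟨σ, hσ⟩ := Module.projective_lifting_property
    (LinearMap.range B.vecMulLinear).mkQ LinearMap.id (Submodule.mkQ_surjective _)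
  let ε : (κ → R) →ₗ[R] (κ → R) := σ ∘ₗ (LinearMap.range B.vecMulLinear).mkQ
  have h1 : ∀ x, x - ε x ∈ LinearMap.range B.vecMulLinear := by
    intro x
    rw [← Submodule.ker_mkQ (LinearMap.range B.vecMulLinear), LinearMap.mem_ker, map_sub]
    have h2 := LinearMap.congr_fun hσ ((LinearMap.range B.vecMulLinear).mkQ x)
    have h3 : (LinearMap.range B.vecMulLinear).mkQ (ε x)
        = (LinearMap.range B.vecMulLinear).mkQ x := h2
    rw [h3, sub_self]
  choose y hy using h1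
  let Y : Matrix κ ι R := fun j => y (Pi.single j 1)
  have hY : ∀ j, (Y * B) j = Pi.single j 1 - ε (Pi.single j 1) := by
    intro j
    rw [← hy]
    rfl
  refine ⟨Y, ?_⟩
  -- `x ᵥ* (Y * B) = x - ε x`
  have h4 : ∀ x : κ → R, x ᵥ* (Y * B) = x - ε x := by
    intro x
    have h5 : (Y * B).vecMulLinear = LinearMap.id - ε := by
      apply (Pi.basisFun R κ).ext
      intro j
      rw [Matrix.vecMulLinear_apply, Pi.basisFun_apply, Matrix.single_one_vecMul]
      exact hY j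
    have h6 := LinearMap.congr_fun h5 x
    exact h6
  ext1 i
  rw [Matrix.mul_assoc]
  have h7 : (B * (Y * B)) i = B i ᵥ* (Y * B) := rfl
  rw [h7, h4]
  have h8 : ε (B i) = 0 := by
    have h9 : (LinearMap.range B.vecMulLinear).mkQ (B i) = 0 := by
      rw [← LinearMap.mem_ker, Submodule.ker_mkQ]
      refine ⟨Pi.single i 1, ?_⟩
      rw [Matrix.vecMulLinear_apply, Matrix.single_one_vecMul]
      rfl
    change σ ((LinearMap.range B.vecMulLinear).mkQ (B i)) = 0
    rw [h9, map_zero]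
  rw [h8, sub_zero]
  intro j
  rfl

/-- matrices with stably free cokernel -/
theorem free_of_SFC (B : Matrix ι κ R) (h : SFC B) (P : Type) [AddCommGroup P] [Module R P]
    (e : P ≃ₗ[R] (κ → R) ⧸ LinearMap.range B.vecMulLinear) :
    ∃ n m : ℕ, Nonempty ((P × (Fin n → R)) ≃ₗ[R] (Fin m → R)) := by
  obtain ⟨Y, hY, a, b, i1, i2, i3, i4, U, V, h1, h2⟩ := h
  have hEU : fromBlocks (1 - Y * B) 0 0 (1 : Matrix a a R) * U = U := by
    rw [← h1, Matrix.mul_assoc, h2, Matrix.mul_one]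
  -- the forward map
  let f0 : (κ → R) →ₗ[R] (b → R) := U.vecMulLinear ∘ₗ
    (LinearEquiv.sumArrowLequivProdArrow κ a R R).symm.toLinearMap ∘ₗ LinearMap.inl R _ _
  have hf0 : ∀ x, f0 x = Sum.elim x 0 ᵥ* U := fun x => rfl
  have hker : LinearMap.range B.vecMulLinear ≤ LinearMap.ker f0 := by
    rintro _ ⟨y, rfl⟩
    rw [LinearMap.mem_ker, hf0, Matrix.vecMulLinear_apply, ← hEU, ← Matrix.vecMul_vecMul,
      Matrix.vecMul_fromBlocks]
    have h3 : (y ᵥ* B) ᵥ* (1 - Y * B) = 0 := by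
      rw [Matrix.vecMul_vecMul, Matrix.mul_sub, Matrix.mul_one, ← Matrix.mul_assoc, hY, sub_self,
        Matrix.vecMul_zero]
    rw [Sum.elim_comp_inl, h3]
    simp
  let f1 : ((κ → R) ⧸ LinearMap.range B.vecMulLinear) →ₗ[R] (b → R) :=
    (LinearMap.range B.vecMulLinear).liftQ f0 hker
  let f : ((κ → R) ⧸ LinearMap.range B.vecMulLinear) × (a → R) →ₗ[R] (b → R) :=
    LinearMap.coprod f1 (U.vecMulLinear ∘ₗ
      (LinearEquiv.sumArrowLequivProdArrow κ a R R).symm.toLinearMap ∘ₗ LinearMap.inr R _ _)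
  have hf : ∀ x z, f ((LinearMap.range B.vecMulLinear).mkQ x, z) = Sum.elim x z ᵥ* U := by
    intro x z
    have e1 : f ((LinearMap.range B.vecMulLinear).mkQ x, z)
        = Sum.elim x 0 ᵥ* U + Sum.elim 0 z ᵥ* U := rfl
    rw [e1, ← Matrix.add_vecMul]
    congr 1
    funext i
    rcases i with i | i <;> simp
  let g : (b → R) →ₗ[R] ((κ → R) ⧸ LinearMap.range B.vecMulLinear) × (a → R) :=
    LinearMap.prod ((LinearMap.range B.vecMulLinear).mkQ ∘ₗ LinearMap.fst R _ _ ∘ₗ
      (LinearEquiv.sumArrowLequivProdArrow κ a R R).toLinearMap ∘ₗ V.vecMulLinear)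
      (LinearMap.snd R _ _ ∘ₗ (LinearEquiv.sumArrowLequivProdArrow κ a R R).toLinearMap ∘ₗ
        V.vecMulLinear)
  have hg : ∀ w, g w = ((LinearMap.range B.vecMulLinear).mkQ ((w ᵥ* V) ∘ Sum.inl),
    (w ᵥ* V) ∘ Sum.inr) := fun w => rfl
  have hfg : ∀ w, f (g w) = w := by
    intro w
    rw [hg, hf, Sum.elim_comp_inl_inr, Matrix.vecMul_vecMul, h2, Matrix.vecMul_one]
  have hgf : ∀ p, g (f p) = p := by
    rintro ⟨x, z⟩
    obtain ⟨x, rfl⟩ := Submodule.mkQ_surjective _ x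
    have h5 : Sum.elim x z ᵥ* fromBlocks (1 - Y * B) 0 0 (1 : Matrix a a R)
        = Sum.elim (x - (x ᵥ* Y) ᵥ* B) z := by
      rw [Matrix.vecMul_fromBlocks]
      simp [Matrix.vecMul_sub, Matrix.vecMul_vecMul]
    rw [hf, hg, Matrix.vecMul_vecMul, h1, h5, Sum.elim_comp_inl, Sum.elim_comp_inr, map_sub]
    have h6 : (LinearMap.range B.vecMulLinear).mkQ ((x ᵥ* Y) ᵥ* B) = 0 := by
      rw [← LinearMap.mem_ker, Submodule.ker_mkQ]
      exact ⟨_, rfl⟩
    rw [h6, sub_zero]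
  let φ : (((κ → R) ⧸ LinearMap.range B.vecMulLinear) × (a → R)) ≃ₗ[R] (b → R) :=
    LinearEquiv.ofLinearMap f g (LinearMap.ext hfg) (LinearMap.ext hgf)
  refine ⟨Fintype.card a, Fintype.card b, ⟨?_⟩⟩
  exact (LinearEquiv.prodCongr e (LinearEquiv.funCongrLeft R R (Fintype.equivFin a))).trans
    (φ.trans (LinearEquiv.funCongrLeft R R (Fintype.equivFin b).symm))

end modules

end TH57.Thr
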