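import Pool.Agent.TH57.Thr.Struct

set_option autoImplicit false
set_option linter.style.haveILetI false
set_option linter.unusedSectionVars false

/-! Groups with torsion: a group acting freely and with finitely many orbits on a connected
bipartite graph of bounded degree without long induced tripods is virtually cyclic; matrices over
the integral group ring of any group of operator norm less than `3 / √2` come from virtually cyclic
subgroups. -/

namespace TH57.Thr

open SimpleGraph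

variable {V : Type*}

/-- `F` is a rough isometry of the integers. -/
def QI (E : ℤ) (F : ℤ → ℤ) : Prop := ∀ i j, |i - j| - E ≤ |F i - F j| ∧ |F i - F j| ≤ |i - j| + E

/-- orientation -/
theorem QI.orient {E : ℤ} (hE : 0 ≤ E) {F : ℤ → ℤ} (hF : QI E F) :
    (∀ i k : ℤ, 3 * E + 3 ≤ k → k - E ≤ F (i + k) - F i ∧ F (i + k) - F i ≤ k + E) ∨
      (∀ i k : ℤ, 3 * E + 3 ≤ k → k - E ≤ F i - F (i + k) ∧ F i - F (i + k) ≤ k + E) := by
  have hk : ∀ i k : ℤ, 3 * E + 3 ≤ k →
      (k - E ≤ F (i + k) - F i ∧ F (i + k) - F i ≤ k + E) ∨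
        (k - E ≤ F i - F (i + k) ∧ F i - F (i + k) ≤ k + E) := by
    intro i k hk
    obtain ⟨h1, h2⟩ := hF (i + k) i
    rw [show i + k - i = k by ring, abs_of_nonneg (by omega : (0 : ℤ) ≤ k)] at h1 h2
    rcases abs_cases (F (i + k) - F i) with ⟨h3, h4⟩ | ⟨h3, h4⟩
    · left; omega
    · right; omega
  have hstep : ∀ i : ℤ, |F (i + 1) - F i| ≤ 1 + E := by
    intro i
    have := (hF (i + 1) i).2
    rwa [show i + 1 - i = 1 by ring, abs_one] at this
  have hs : ∀ i : ℤ, -(1 + E) ≤ F (i + 1) - F i ∧ F (i + 1) - F i ≤ 1 + E :=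
    fun i => abs_le.1 (hstep i)
  -- the sign does not depend on `k`
  have a1 : ∀ i k : ℤ, 3 * E + 3 ≤ k → (0 < F (i + (3 * E + 3)) - F i ↔ 0 < F (i + k) - F i) := by
    intro i k hk0
    refine Int.leInduction (m := 3 * E + 3)
      (motive := fun k _ => (0 < F (i + (3 * E + 3)) - F i ↔ 0 < F (i + k) - F i)) Iff.rfl ?_ k hk0
    intro k hk1 ih
    rw [ih]
    have h1 := hk i k hk1
    have h2 := hk i (k + 1) (by omega)
    have h3 := hs (i + k)
    rw [show i + k + 1 = i + (k + 1) by ring] at h3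
    constructor <;> intro h <;> omega
  have a2 : ∀ i : ℤ, (0 < F (i + (3 * E + 3)) - F i ↔ 0 < F (i + 1 + (3 * E + 3)) - F (i + 1)) := by
    intro i
    have h1 := hk i _ le_rfl
    have h2 := hk (i + 1) _ le_rfl
    have h3 := hs i
    have h4 := hs (i + (3 * E + 3))
    rw [show i + (3 * E + 3) + 1 = i + 1 + (3 * E + 3) by ring] at h4
    constructor <;> intro h <;> omega
  have a3 : ∀ i : ℤ, (0 < F (0 + (3 * E + 3)) - F 0 ↔ 0 < F (i + (3 * E + 3)) - F i) := by
    intro i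
    induction i using Int.induction_on with
    | zero => rfl
    | succ n ih => rw [ih]; exact a2 n
    | pred n ih =>
      rw [ih]
      have := a2 (-(n : ℤ) - 1)
      rw [show -(n : ℤ) - 1 + 1 = -(n : ℤ) by ring] at this
      exact this.symm
  by_cases h0 : 0 < F (0 + (3 * E + 3)) - F 0
  · left
    intro i k hk0
    have h1 := (a1 i k hk0).1 ((a3 i).1 h0)
    have h2 := hk i k hk0
    omega
  · right
    intro i k hk0
    have h1 : ¬ 0 < F (i + k) - F i := fun h => h0 ((a3 i).2 ((a1 i k hk0).2 h))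
    have h2 := hk i k hk0
    omega

section action

variable {S : Type*} [Group S] [MulAction S V]

theorem exists_biinf {Γ : SimpleGraph V} (hΓ : Γ.Connected) (Δ : ℕ)
    (hΔ : ∀ v, (Γ.neighborSet v).Finite ∧ (Γ.neighborSet v).ncard ≤ Δ) [Infinite V]
    (hadj : ∀ (g : S) u v, Γ.Adj u v → Γ.Adj (g • u) (g • v))
    (R : Finset V) (hR : ∀ v : V, ∃ g : S, ∃ r ∈ R, g • r = v) :
    ∃ γ : ℤ → V, ∀ i j : ℤ, (Γ.dist (γ i) (γ j) : ℤ) = |i - j| := by
  classical
  have hds := dist_smul (S := S) hΓ hadj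
  obtain ⟨v⟩ : Nonempty V := inferInstance
  have key : ∀ L : ℕ, ∃ q : ℤ → V, q 0 ∈ R ∧ ∀ i j : ℤ, |i| ≤ L → |j| ≤ L →
      (Γ.dist (q i) (q j) : ℤ) = |i - j| := by
    intro L
    obtain ⟨w, hw⟩ := exists_dist_eq hΓ Δ hΔ v (2 * L)
    obtain ⟨p, h0, h1, hp⟩ := exists_geod hΓ v w
    rw [hw] at h1 hp
    obtain ⟨g, r, hr, hgr⟩ := hR (p L)
    refine ⟨fun i => g⁻¹ • p (i + L).toNat, ?_, ?_⟩
    · simp only
      rw [show ((0 : ℤ) + L).toNat = L by omega, ← hgr, inv_smul_smul]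
      exact hr
    · intro i j hi hj
      rw [abs_le] at hi hj
      simp only
      rw [hds, hp _ _ (by omega) (by omega)]
      rcases abs_cases (i - j) with ⟨h3, h4⟩ | ⟨h3, h4⟩ <;> omega
  choose q hq0 hq using key
  have hU : (Filter.hyperfilter ℕ : Filter ℕ) ≤ Filter.atTop := by
    rw [← Nat.cofinite_eq_atTop]
    exact Filter.hyperfilter_le_cofinite
  have hev : ∀ i : ℤ, ∃ w, ∀ᶠ L in (Filter.hyperfilter ℕ : Filter ℕ), q L i = w := by
    intro i
    have hfin : (⋃ r ∈ (R : Set V), bl Γ r i.natAbs).Finite :=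
      R.finite_toSet.biUnion fun r _ => (bl_card hΓ Δ hΔ r _).1
    have h1 : ∀ᶠ L in (Filter.hyperfilter ℕ : Filter ℕ),
        ∃ w ∈ (⋃ r ∈ (R : Set V), bl Γ r i.natAbs), q L i = w := by
      filter_upwards [hU (Filter.eventually_ge_atTop i.natAbs)] with L hL
      refine ⟨_, ?_, rfl⟩
      simp only [Set.mem_iUnion]
      refine ⟨q L 0, hq0 L, ?_⟩
      have := hq L 0 i (by simp) (by rw [Int.abs_eq_natAbs]; omega)
      simp only [bl, Set.mem_ofPred_eq]
      rw [zero_sub, abs_neg, Int.abs_eq_natAbs] at this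
      omega
    rw [Ultrafilter.eventually_exists_mem_iff hfin] at h1
    obtain ⟨w, _, hw⟩ := h1
    exact ⟨w, hw⟩
  choose γ hγ using hev
  refine ⟨γ, fun i j => ?_⟩
  have h6 := ((hγ i).and (hγ j)).and
    (hU (Filter.eventually_ge_atTop (max i.natAbs j.natAbs)))
  obtain ⟨L, ⟨h4, h5⟩, h7⟩ := h6.exists
  rw [← h4, ← h5]
  exact hq L i j (by rw [Int.abs_eq_natAbs]; omega) (by rw [Int.abs_eq_natAbs]; omega)

theorem near_biinf {Γ : SimpleGraph V} (hΓ : Γ.Connected) (col : V → Bool)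
    (hcol : ∀ u v, Γ.Adj u v → col u ≠ col v) (N : ℕ) (hN : ¬ HasTripod Γ N)
    (γ : ℤ → V) (hγ : ∀ i j : ℤ, (Γ.dist (γ i) (γ j) : ℤ) = |i - j|) (u : V) :
    ∃ i : ℤ, Γ.dist (γ i) u ≤ N := by
  obtain ⟨i₀, hi₀⟩ : ∃ i₀ : ℤ, ∀ i : ℤ, Γ.dist (γ i₀) u ≤ Γ.dist (γ i) u := by
    have hne : {d : ℕ | ∃ n : ℤ, Γ.dist (γ n) u = d}.Nonempty := ⟨_, 0, rfl⟩
    obtain ⟨n₀, h1⟩ := Nat.sInf_mem hne
    refine ⟨n₀, fun n => ?_⟩
    rw [h1]
    exact Nat.sInf_le ⟨n, rfl⟩
  refine ⟨i₀, ?_⟩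
  by_contra hcon
  apply hN
  refine tripod_of_far hΓ col hcol (fun k => γ (i₀ - (N + 2) + k)) (2 * (N + 2)) N ?_ u (N + 2)
    le_rfl (by omega) ?_ ?_
  · intro i j _ _
    have := hγ (i₀ - (N + 2) + i) (i₀ - (N + 2) + j)
    rcases abs_cases ((i₀ - (N + 2) + i) - (i₀ - (N + 2) + j)) with ⟨h3, h4⟩ | ⟨h3, h4⟩ <;> omega
  · intro l _
    rw [show i₀ - ((N : ℤ) + 2) + ((N + 2 : ℕ) : ℤ) = i₀ by push_cast; ring]
    exact hi₀ _
  · rw [show i₀ - ((N : ℤ) + 2) + ((N + 2 : ℕ) : ℤ) = i₀ by push_cast; ring]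
    omega

theorem exists_infinite_order {Γ : SimpleGraph V} (hΓ : Γ.Connected) (col : V → Bool)
    (hcol : ∀ u v, Γ.Adj u v → col u ≠ col v) (Δ : ℕ)
    (hΔ : ∀ v, (Γ.neighborSet v).Finite ∧ (Γ.neighborSet v).ncard ≤ Δ) [Infinite V]
    (N : ℕ) (hN : ¬ HasTripod Γ N)
    (hadj : ∀ (g : S) u v, Γ.Adj u v → Γ.Adj (g • u) (g • v))
    (R : Finset V) (hR : ∀ v : V, ∃ g : S, ∃ r ∈ R, g • r = v) :
    ∃ s : S, ∀ n : ℤ, s ^ n = 1 → n = 0 := by
  classical
  have hds := dist_smul (S := S) hΓ hadj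
  obtain ⟨γ, hγ⟩ := exists_biinf hΓ Δ hΔ hadj R hR
  choose π hπ using near_biinf hΓ col hcol N hN γ hγ
  -- the coarse coordinate
  have hπd : ∀ u v : V, (Γ.dist u v : ℤ) - 2 * N ≤ |π u - π v| ∧
      |π u - π v| ≤ Γ.dist u v + 2 * N := by
    intro u v
    rw [← hγ]
    have h1 := hπ u
    have h2 := hπ v
    have t1 := hΓ.dist_triangle (u := γ (π u)) (v := u) (w := γ (π v))
    have t2 := hΓ.dist_triangle (u := u) (v := v) (w := γ (π v))
    have t3 := hΓ.dist_triangle (u := u) (v := γ (π u)) (w := v)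
    have t4 := hΓ.dist_triangle (u := γ (π u)) (v := γ (π v)) (w := v)
    rw [SimpleGraph.dist_comm (u := v)] at t2
    rw [SimpleGraph.dist_comm (u := u) (v := γ (π u))] at t3
    omega
  set E : ℤ := 2 * N with hE
  have hE0 : 0 ≤ E := by omega
  let F : S → ℤ → ℤ := fun g i => π (g • γ i)
  have hF : ∀ g, QI E (F g) := by
    intro g i j
    have h1 := hπd (g • γ i) (g • γ j)
    rw [hds, hγ] at h1
    exact h1
  have hFm : ∀ (g : S) (v : V), |π (g • v) - F g (π v)| ≤ 3 * N := by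
    intro g v
    have h1 := (hπd (g • v) (g • γ (π v))).2
    rw [hds, SimpleGraph.dist_comm] at h1
    have h2 := hπ v
    simp only [F]
    omega
  -- large displacements
  have hbig : ∀ M : ℕ, ∃ g : S, M ≤ Γ.dist (γ 0) (g • γ 0) := by
    intro M
    set D₀ := R.sup (fun r => Γ.dist r (γ 0)) with hD₀
    obtain ⟨u, hu⟩ := exists_dist_eq hΓ Δ hΔ (γ 0) (M + D₀)
    obtain ⟨g, r, hr, rfl⟩ := hR u
    refine ⟨g, ?_⟩
    have h1 := hΓ.dist_triangle (u := γ 0) (v := g • γ 0) (w := g • r)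
    rw [hds, SimpleGraph.dist_comm (u := γ 0) (v := r)] at h1
    have h2 : Γ.dist r (γ 0) ≤ D₀ := Finset.le_sup (f := fun r => Γ.dist r (γ 0)) hr
    omega
  -- orientation preserving elements with large displacement
  have claimA : ∀ g : S, (∀ i k : ℤ, 3 * E + 3 ≤ k → k - E ≤ F g (i + k) - F g i ∧
      F g (i + k) - F g i ≤ k + E) → 10 * N + 1 ≤ Γ.dist (γ 0) (g • γ 0) →
      ∃ s : S, ∀ n : ℤ, s ^ n = 1 → n = 0 := by
    intro g hg hd
    have hF0 : 7 * (N : ℤ) + 1 ≤ |F g 0| := by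
      have h1 := (hπd (γ 0) (g • γ 0)).1
      have h2 : |π (γ 0)| ≤ N := by
        have h3 := hπ (γ 0)
        have h4 := hγ (π (γ 0)) 0
        rw [sub_zero] at h4
        omega
      have h5 : |π (γ 0) - π (g • γ 0)| ≤ |π (γ 0)| + |π (g • γ 0)| := abs_sub _ _
      change 7 * (N : ℤ) + 1 ≤ |π (g • γ 0)|
      omega
    have hlin : ∀ i : ℤ, i - 2 * E ≤ F g i - F g 0 ∧ F g i - F g 0 ≤ i + 2 * E := by
      intro i
      have h1 := hg (-(3 * E + 3) - |i|) (3 * E + 3 + |i| + i) (by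
        have := neg_abs_le i
        omega)
      have h2 := hg (-(3 * E + 3) - |i|) (3 * E + 3 + |i|) (by
        have := abs_nonneg i
        omega)
      rw [show -(3 * E + 3) - |i| + (3 * E + 3 + |i| + i) = i by ring] at h1
      rw [show -(3 * E + 3) - |i| + (3 * E + 3 + |i|) = 0 by ring] at h2
      omega
    let a : ℕ → ℤ := fun n => π (g ^ n • γ 0)
    have ha : ∀ n, |a (n + 1) - F g (a n)| ≤ 3 * N := by
      intro n
      have := hFm g (g ^ n • γ 0)
      rw [← mul_smul, ← pow_succ'] at this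
      exact this
    have hmono : (∀ n, a n + 1 ≤ a (n + 1)) ∨ (∀ n, a (n + 1) ≤ a n - 1) := by
      rcases abs_cases (F g 0) with ⟨h3, h4⟩ | ⟨h3, h4⟩
      · left
        intro n
        have h1 := abs_le.1 (ha n)
        have h2 := hlin (a n)
        omega
      · right
        intro n
        have h1 := abs_le.1 (ha n)
        have h2 := hlin (a n)
        omega
    have hne : ∀ n : ℕ, 0 < n → g ^ n ≠ 1 := by
      intro n hn h1
      have h2 : a n = a 0 := by
        simp only [a]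
        rw [h1, pow_zero]
      rcases hmono with h | h
      · have h3 : ∀ m : ℕ, a 0 + m ≤ a m := by
          intro m
          induction m with
          | zero => simp
          | succ m ih => have := h m; push_cast; omega
        have := h3 n
        omega
      · have h3 : ∀ m : ℕ, a m ≤ a 0 - m := by
          intro m
          induction m with
          | zero => simp
          | succ m ih => have := h m; push_cast; omega
        have := h3 n
        omega
    refine ⟨g, fun n hn => ?_⟩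
    by_contra hn0
    apply hne n.natAbs (Int.natAbs_pos.2 hn0)
    rcases Int.natAbs_eq n with h1 | h1
    · rw [h1, zpow_natCast] at hn
      exact hn
    · rw [h1, zpow_neg, zpow_natCast, inv_eq_one] at hn
      exact hn
  obtain ⟨g₁, hg₁⟩ := hbig (10 * N + 1)
  obtain ⟨g₂, hg₂⟩ := hbig (10 * N + 1 + Γ.dist (γ 0) (g₁ • γ 0))
  rcases (hF g₁).orient hE0 with h1 | h1
  · exact claimA g₁ h1 hg₁
  rcases (hF g₂).orient hE0 with h2 | h2
  · exact claimA g₂ h2 (by omega)
  rcases (hF (g₂ * g₁)).orient hE0 with h3 | h3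
  · refine claimA (g₂ * g₁) h3 ?_
    have t1 := hΓ.dist_triangle (u := γ 0) (v := (g₂ * g₁) • γ 0) (w := g₂ • γ 0)
    rw [mul_smul, hds, SimpleGraph.dist_comm (u := g₁ • γ 0)] at t1
    rw [mul_smul]
    omega
  · exfalso
    have c1 : ∀ i : ℤ, |F (g₂ * g₁) i - F g₂ (F g₁ i)| ≤ 3 * N := by
      intro i
      have := hFm g₂ (g₁ • γ i)
      rw [← mul_smul] at this
      exact this
    set k : ℤ := 10 * E + 10 with hk
    have b1 := h1 0 k (by omega)
    rw [zero_add] at b1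
    have b3 := h3 0 k (by omega)
    rw [zero_add] at b3
    have b2 := h2 (F g₁ k) (F g₁ 0 - F g₁ k) (by omega)
    rw [show F g₁ k + (F g₁ 0 - F g₁ k) = F g₁ 0 by ring] at b2
    have e0 := abs_le.1 (c1 0)
    have ek := abs_le.1 (c1 k)
    omega

theorem zpowers_finiteIndex' {Γ : SimpleGraph V} (hΓ : Γ.Connected) (col : V → Bool)
    (hcol : ∀ u v, Γ.Adj u v → col u ≠ col v) (Δ : ℕ)
    (hΔ : ∀ v, (Γ.neighborSet v).Finite ∧ (Γ.neighborSet v).ncard ≤ Δ)
    (N : ℕ) (hN : ¬ HasTripod Γ N)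
    (hadj : ∀ (g : S) u v, Γ.Adj u v → Γ.Adj (g • u) (g • v))
    (hfree : ∀ (g : S) (v : V), g • v = v → g = 1)
    (R : Finset V) (hR : ∀ v : V, ∃ g : S, ∃ r ∈ R, g • r = v)
    (s : S) (htfz : ∀ n : ℤ, s ^ n = 1 → n = 0) :
    (Subgroup.zpowers s).FiniteIndex := by
  classical
  obtain ⟨v⟩ : Nonempty V := hΓ.nonempty
  haveI : Infinite V := by
    refine Infinite.of_injective (fun n : ℤ => s ^ n • v) ?_
    intro n m h
    have h1 : (s ^ m)⁻¹ • s ^ n • v = v := by
      simp only at h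
      rw [h, inv_smul_smul]
    rw [← mul_smul] at h1
    have h2 := hfree _ _ h1
    rw [← zpow_neg, ← zpow_add] at h2
    have := htfz _ h2
    omega
  have hds := dist_smul (S := S) hΓ hadj
  obtain ⟨D₀, hD₀⟩ : ∃ D₀ : ℕ, ∀ z : V, ∃ g : S, Γ.dist (g • v) z ≤ D₀ := by
    refine ⟨R.sup (fun r => Γ.dist v r), fun z => ?_⟩
    obtain ⟨g, r, hr, rfl⟩ := hR z
    refine ⟨g, ?_⟩
    rw [hds]
    exact Finset.le_sup (f := fun r => Γ.dist v r) hr
  set M := (Δ + 1) ^ N with hM
  have hM1 : 1 ≤ M := Nat.one_le_pow _ _ (by omega)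
  have hupper : ∀ ρ, (bl Γ v ρ).ncard ≤ (4 * (ρ + D₀) + 1) * M := by
    intro ρ
    obtain ⟨z, hz⟩ := small_ball hΓ col hcol Δ hΔ N hN (ρ + D₀)
    obtain ⟨g, hg⟩ := hD₀ z
    refine le_trans ?_ hz
    have h1 : (bl Γ v ρ).ncard = ((fun x => g • x) '' bl Γ v ρ).ncard :=
      (Set.ncard_image_of_injective _ (MulAction.injective g)).symm
    rw [h1]
    apply Set.ncard_le_ncard _ (bl_card hΓ Δ hΔ z (ρ + D₀)).1
    rintro _ ⟨x, hx, rfl⟩
    simp only [bl, Set.mem_ofPred_eq] at hx ⊢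
    have := hΓ.dist_triangle (u := z) (v := g • v) (w := g • x)
    rw [hds, SimpleGraph.dist_comm (u := z) (v := g • v)] at this
    omega
  set D := Γ.dist v (s • v) with hD
  have hsn : ∀ n : ℕ, Γ.dist v (s ^ n • v) ≤ n * D := by
    intro n
    induction n with
    | zero => simp
    | succ n ih =>
      have := hΓ.dist_triangle (u := v) (v := s ^ n • v) (w := s ^ (n + 1) • v)
      rw [pow_succ, mul_smul, hds] at this
      rw [pow_succ, mul_smul, Nat.succ_mul]
      omega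
  -- all vertices are close to the orbit
  obtain ⟨r₀, hr₀⟩ : ∃ r₀ : ℕ, ∀ w : V, ∃ n : ℤ, Γ.dist (s ^ n • v) w ≤ r₀ := by
    by_contra hcon
    push Not at hcon
    set r := (4 * (D + 1) + 4 * D₀ + 1) * M with hr
    obtain ⟨w, hw⟩ := hcon r
    -- the nearest orbit point
    obtain ⟨n₀, hn₀⟩ : ∃ n₀ : ℤ, ∀ n : ℤ, Γ.dist (s ^ n₀ • v) w ≤ Γ.dist (s ^ n • v) w := by
      have hne : {d : ℕ | ∃ n : ℤ, Γ.dist (s ^ n • v) w = d}.Nonempty := ⟨_, 0, rfl⟩
      obtain ⟨n₀, h1⟩ := Nat.sInf_mem hne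
      refine ⟨n₀, fun n => ?_⟩
      rw [h1]
      exact Nat.sInf_le ⟨n, rfl⟩
    set w' := (s ^ n₀)⁻¹ • w with hw'
    have hw'1 : ∀ n : ℤ, Γ.dist v w' ≤ Γ.dist (s ^ n • v) w' := by
      intro n
      have e1 : Γ.dist v w' = Γ.dist (s ^ n₀ • v) w := by
        rw [← hds (s ^ n₀) v w', hw', smul_inv_smul]
      have e2 : Γ.dist (s ^ n • v) w' = Γ.dist (s ^ (n₀ + n) • v) w := by
        rw [← hds (s ^ n₀) (s ^ n • v) w', hw', smul_inv_smul, ← mul_smul, ← zpow_add]
      rw [e1, e2]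
      exact hn₀ _
    have hw'2 : r < Γ.dist v w' := by
      have e1 : Γ.dist v w' = Γ.dist (s ^ n₀ • v) w := by
        rw [← hds (s ^ n₀) v w', hw', smul_inv_smul]
      rw [e1]
      exact hw n₀
    obtain ⟨p, hp0, hpk, hp⟩ := exists_geod hΓ v w'
    have hpd : ∀ k, k ≤ r → ∀ n : ℤ, k ≤ Γ.dist (s ^ n • v) (p k) := by
      intro k hk n
      have h1 := hw'1 n
      have h2 := hΓ.dist_triangle (u := s ^ n • v) (v := p k) (w := w')
      have h3 := hp k (Γ.dist v w') (by omega) le_rfl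
      rw [hpk] at h3
      omega
    have hpe : ∀ k, k ≤ r → Γ.dist v (p k) = k := by
      intro k hk
      rw [← hp0, hp 0 k (by omega) (by omega)]
      omega
    let F : Fin (r + 1) × Fin (r + 1) → V := fun x => s ^ (x.1 : ℕ) • p x.2
    have hFinj : Function.Injective F := by
      rintro ⟨n, k⟩ ⟨m, l⟩ h
      simp only [F] at h
      have hk := k.2
      have hl := l.2
      have hkl : ∀ (n m : ℕ) (k l : ℕ), k ≤ r → l ≤ r → s ^ n • p k = s ^ m • p l → l ≤ k := by
        intro n m k l hk hl h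
        have e1 : Γ.dist (s ^ n • v) (s ^ n • p k) = k := by rw [hds, hpe k hk]
        rw [h] at e1
        have e2 : Γ.dist (s ^ ((n : ℤ) - m) • v) (p l) = k := by
          rw [← e1, ← hds (s ^ m) (s ^ ((n : ℤ) - m) • v) (p l), ← mul_smul, ← zpow_natCast s m,
            ← zpow_add, ← zpow_natCast s n]
          congr 3
          ring
        rw [← e2]
        exact hpd l hl _
      have h1 : (k : ℕ) = l := le_antisymm (hkl m n l k (by omega) (by omega) h.symm)
        (hkl n m k l (by omega) (by omega) h)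
      have h2 : k = l := Fin.ext h1
      subst h2
      have h3 : (s ^ (m : ℕ))⁻¹ • s ^ (n : ℕ) • p k = p k := by rw [h, inv_smul_smul]
      rw [← mul_smul] at h3
      have h4 := hfree _ _ h3
      rw [← zpow_natCast, ← zpow_natCast, ← zpow_neg, ← zpow_add] at h4
      have h5 := htfz _ h4
      have h6 : n = m := Fin.ext (by omega)
      rw [h6]
    have hFr : Set.range F ⊆ bl Γ v (r * D + r) := by
      rintro _ ⟨⟨n, k⟩, rfl⟩
      simp only [F, bl, Set.mem_ofPred_eq]
      have h1 := hΓ.dist_triangle (u := v) (v := s ^ (n : ℕ) • v) (w := s ^ (n : ℕ) • p k)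
      rw [hds, hpe k (by have := k.2; omega)] at h1
      have h2 := hsn n
      have h3 : (n : ℕ) * D ≤ r * D := Nat.mul_le_mul_right _ (by have := n.2; omega)
      have h4 := k.2
      omega
    have hc1 : (r + 1) * (r + 1) ≤ (bl Γ v (r * D + r)).ncard := by
      have h1 : (Set.range F).ncard = (r + 1) * (r + 1) := by
        rw [← Set.image_univ, Set.ncard_image_of_injective _ hFinj, Set.ncard_univ]
        simp
      rw [← h1]
      exact Set.ncard_le_ncard hFr (bl_card hΓ Δ hΔ v _).1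
    have hc2 := hupper (r * D + r)
    have hr1 : 1 ≤ r := by
      rw [hr]
      exact Nat.one_le_iff_ne_zero.2 (by positivity)
    have hc3 : (4 * (r * D + r + D₀) + 1) * M ≤ r * r := by
      calc (4 * (r * D + r + D₀) + 1) * M ≤ (r * (4 * (D + 1) + 4 * D₀ + 1)) * M := by
            apply Nat.mul_le_mul_right
            nlinarith
        _ = r * r := by rw [mul_assoc, ← hr]
    nlinarith
  -- finite index
  have hF : {h : S | h • v ∈ bl Γ v r₀}.Finite := by
    apply Set.Finite.of_finite_image (f := fun h : S => h • v)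
    · exact (bl_card hΓ Δ hΔ v r₀).1.subset (by rintro _ ⟨h, hh, rfl⟩; exact hh)
    · intro a _ b _ hab
      have h1 : b⁻¹ • a • v = v := by
        simp only at hab
        rw [hab, inv_smul_smul]
      rw [← mul_smul] at h1
      have := hfree _ _ h1
      rw [inv_mul_eq_one] at this
      exact this.symm
  have hfq : Finite (S ⧸ Subgroup.zpowers s) := by
    haveI : Finite {h : S | h • v ∈ bl Γ v r₀} := hF
    refine Finite.of_surjective (α := {h : S | h • v ∈ bl Γ v r₀})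
      (fun h => ((h.1⁻¹ : S) : S ⧸ Subgroup.zpowers s)) ?_
    intro q
    induction q using QuotientGroup.induction_on with
    | H g =>
      obtain ⟨n, hn⟩ := hr₀ (g⁻¹ • v)
      refine ⟨⟨(s ^ n)⁻¹ * g⁻¹, ?_⟩, ?_⟩
      · simp only [bl, Set.mem_ofPred_eq]
        rw [← hds (s ^ n) v, mul_smul, smul_inv_smul]
        exact hn
      · simp only
        rw [QuotientGroup.eq]
        rw [Subgroup.mem_zpowers_iff]
        exact ⟨-n, by group⟩
  exact Subgroup.finiteIndex_of_finite_quotient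

/-- The group is virtually cyclic. -/
theorem vc_of_noTripod {Γ : SimpleGraph V} (hΓ : Γ.Connected) (col : V → Bool)
    (hcol : ∀ u v, Γ.Adj u v → col u ≠ col v) (Δ : ℕ)
    (hΔ : ∀ v, (Γ.neighborSet v).Finite ∧ (Γ.neighborSet v).ncard ≤ Δ)
    (N : ℕ) (hN : ¬ HasTripod Γ N)
    (hadj : ∀ (g : S) u v, Γ.Adj u v → Γ.Adj (g • u) (g • v))
    (hfree : ∀ (g : S) (v : V), g • v = v → g = 1)
    (R : Finset V) (hR : ∀ v : V, ∃ g : S, ∃ r ∈ R, g • r = v) :
    ∃ s : S, (Subgroup.zpowers s).FiniteIndex := by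
  classical
  rcases finite_or_infinite V with hV | hV
  · obtain ⟨v⟩ : Nonempty V := hΓ.nonempty
    haveI : Finite S := Finite.of_injective (fun g : S => g • v) (by
      intro a b hab
      have h1 : b⁻¹ • a • v = v := by
        simp only at hab
        rw [hab, inv_smul_smul]
      rw [← mul_smul] at h1
      have := hfree _ _ h1
      rw [inv_mul_eq_one] at this
      exact this.symm)
    exact ⟨1, inferInstance⟩
  · obtain ⟨s, hs⟩ := exists_infinite_order hΓ col hcol Δ hΔ N hN hadj R hR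
    exact ⟨s, zpowers_finiteIndex' hΓ col hcol Δ hΔ N hN hadj hfree R hR s hs⟩

end action

end TH57.Thr
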