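import Pool.Agent.TH57.Thr.Struct2
import Pool.Agent.TH57.Thr.Blk
import Pool.Agent.TH57.Thr.Asm

set_option autoImplicit false
set_option linter.unusedSectionVars false

/-! Invertible matrices of norm less than `3 / √2` over the integral group ring of any group are
products of matrices over group rings of virtually cyclic subgroups. -/

namespace TH57.Thr

open Matrix

variable {Γ : Type} [Group Γ]

/-- virtually cyclic (finite groups included) -/
def VCy (H : Subgroup Γ) : Prop := ∃ s : H, (Subgroup.zpowers s).FiniteIndex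

/-- The subgroup of `GL_κ(R[Γ])` generated by the groups `GL_κ(R[V])`, `V` virtually cyclic. -/
noncomputable def VCG (R : Type) [Ring R] (Γ : Type) [Group Γ] (κ : Type) [Fintype κ]
    [DecidableEq κ] : Subgroup (Matrix κ κ (MonoidAlgebra R Γ))ˣ :=
  ⨆ V : {V : Subgroup Γ // VCy V}, glim R κ V.1

theorem glim_le_VCG {R : Type} [Ring R] {κ : Type} [Fintype κ] [DecidableEq κ] (V : Subgroup Γ)
    (hV : VCy V) : glim R κ V ≤ VCG R Γ κ := le_iSup (fun V : {V : Subgroup Γ // VCy V} =>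
      glim R κ V.1) ⟨V, hV⟩

theorem VCy_zpowers (g : Γ) : VCy (Subgroup.zpowers g) := by
  refine ⟨⟨g, Subgroup.mem_zpowers g⟩, ?_⟩
  have h : Subgroup.zpowers (⟨g, Subgroup.mem_zpowers g⟩ : Subgroup.zpowers g) = ⊤ := by
    rw [eq_top_iff]
    rintro ⟨x, hx⟩ _
    obtain ⟨k, hk⟩ := Subgroup.mem_zpowers_iff.1 hx
    rw [Subgroup.mem_zpowers_iff]
    exact ⟨k, Subtype.ext (by simpa using hk)⟩
  rw [h]
  infer_instance

/-- invertible diagonal matrices of group elements -/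
noncomputable def dguR (R : Type) [Ring R] {κ : Type} [Fintype κ] [DecidableEq κ] (a : κ → Γ) :
    (Matrix κ κ (MonoidAlgebra R Γ))ˣ where
  val := Matrix.diagonal fun i => MonoidAlgebra.single (a i) 1
  inv := Matrix.diagonal fun i => MonoidAlgebra.single (a i)⁻¹ 1
  val_inv := by
    rw [Matrix.diagonal_mul_diagonal, ← Matrix.diagonal_one]
    congr 1
    funext i
    rw [MonoidAlgebra.single_mul_single, mul_inv_cancel, mul_one, MonoidAlgebra.one_def]
  inv_val := by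
    rw [Matrix.diagonal_mul_diagonal, ← Matrix.diagonal_one]
    congr 1
    funext i
    rw [MonoidAlgebra.single_mul_single, inv_mul_cancel, mul_one, MonoidAlgebra.one_def]

theorem dguR_mem {R : Type} [Ring R] {κ : Type} [Fintype κ] [DecidableEq κ] (a : κ → Γ)
    (W : Subgroup (Matrix κ κ (MonoidAlgebra R Γ))ˣ)
    (hW : ∀ g, glim R κ (Subgroup.zpowers g) ≤ W) : dguR R a ∈ W := by
  apply mem_of_pattern id (fun i => Subgroup.zpowers (a i)) (dguR R a) ?_ W (fun i => hW _)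
  intro i j g h
  change (Matrix.diagonal (fun i => MonoidAlgebra.single (a i) (1 : R)) i j).coeff g ≠ 0 at h
  by_cases hij : i = j
  · subst hij
    refine ⟨rfl, ?_⟩
    rw [Matrix.diagonal_apply_eq] at h
    by_cases hg : a i = g
    · rw [← hg]; exact Subgroup.mem_zpowers _
    · exfalso; apply h
      simp [hg]
  · rw [Matrix.diagonal_apply_ne _ hij] at h
    exact absurd rfl h

/-- invertible permutation matrices -/
noncomputable def puR (R : Type) [Ring R] (Γ : Type) [Group Γ] {κ : Type} [Fintype κ]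
    [DecidableEq κ] (σ : Equiv.Perm κ) : (Matrix κ κ (MonoidAlgebra R Γ))ˣ where
  val := (1 : Matrix κ κ (MonoidAlgebra R Γ)).submatrix σ id
  inv := (1 : Matrix κ κ (MonoidAlgebra R Γ)).submatrix σ.symm id
  val_inv := by
    ext1 i j
    rw [Matrix.mul_apply]
    simp only [Matrix.submatrix_apply, id, Matrix.one_apply]
    rw [Finset.sum_eq_single (σ i)]
    · simp
    · intro b _ hb; rw [if_neg (Ne.symm hb), zero_mul]
    · intro h; exact absurd (Finset.mem_univ _) h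
  inv_val := by
    ext1 i j
    rw [Matrix.mul_apply]
    simp only [Matrix.submatrix_apply, id, Matrix.one_apply]
    rw [Finset.sum_eq_single (σ.symm i)]
    · simp
    · intro b _ hb; rw [if_neg (Ne.symm hb), zero_mul]
    · intro h; exact absurd (Finset.mem_univ _) h

theorem puR_mem {R : Type} [Ring R] {κ : Type} [Fintype κ] [DecidableEq κ] (σ : Equiv.Perm κ)
    (W : Subgroup (Matrix κ κ (MonoidAlgebra R Γ))ˣ)
    (hW : glim R κ (⊥ : Subgroup Γ) ≤ W) : puR R Γ σ ∈ W := by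
  apply mem_of_pattern (fun _ => ()) (fun _ => (⊥ : Subgroup Γ)) (puR R Γ σ) ?_ W (fun i => hW)
  intro i j g h
  refine ⟨rfl, ?_⟩
  change ((1 : Matrix κ κ (MonoidAlgebra R Γ)) (σ i) j).coeff g ≠ 0 at h
  rw [Matrix.one_apply] at h
  split_ifs at h with h5
  · exact one_supp _ g h
  · exact absurd rfl h

/-- A matrix with a block pattern up to monomial matrices. -/
theorem monomial_form {R : Type} [Ring R] {κ β : Type} [Fintype κ] [DecidableEq κ]
    (A : (Matrix κ κ (MonoidAlgebra R Γ))ˣ) (r : κ → β) (C : β → Subgroup Γ) (u w : κ → Γ)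
    (σ : Equiv.Perm κ)
    (h : ∀ i j g, ((A : Matrix κ κ (MonoidAlgebra R Γ)) (σ i) j).coeff g ≠ 0 →
      r i = r j ∧ u (σ i) * g * (w j)⁻¹ ∈ C (r i)) :
    (∀ W : Subgroup (Matrix κ κ (MonoidAlgebra R Γ))ˣ, (∀ i, glim R κ (C (r i)) ≤ W) →
      ∃ M ∈ W, A = (dguR R u)⁻¹ * (puR R Γ σ)⁻¹ * M * dguR R w) ∧
    (∀ i j g, ((↑A⁻¹ : Matrix κ κ (MonoidAlgebra R Γ)) i (σ j)).coeff g ≠ 0 →
      r i = r j ∧ w i * g * (u (σ j))⁻¹ ∈ C (r i)) := by
  let M : (Matrix κ κ (MonoidAlgebra R Γ))ˣ := puR R Γ σ * (dguR R u * A * (dguR R w)⁻¹)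
  have hpm : ∀ (X : Matrix κ κ (MonoidAlgebra R Γ)) i j,
      ((1 : Matrix κ κ (MonoidAlgebra R Γ)).submatrix σ id * X) i j = X (σ i) j := by
    intro X i j
    rw [Matrix.mul_apply]
    simp only [Matrix.submatrix_apply, id, Matrix.one_apply]
    rw [Finset.sum_eq_single (σ i)]
    · simp
    · intro b _ hb; rw [if_neg (Ne.symm hb), zero_mul]
    · intro h; exact absurd (Finset.mem_univ _) h
  have hM : ∀ i j, (M : Matrix κ κ (MonoidAlgebra R Γ)) i j
      = MonoidAlgebra.single (u (σ i)) 1 * (A : Matrix κ κ (MonoidAlgebra R Γ)) (σ i) j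
        * MonoidAlgebra.single (w j)⁻¹ 1 := by
    intro i j
    change ((1 : Matrix κ κ (MonoidAlgebra R Γ)).submatrix σ id *
      (Matrix.diagonal (fun i => MonoidAlgebra.single (u i) (1 : R))
      * (A : Matrix κ κ (MonoidAlgebra R Γ))
      * Matrix.diagonal (fun j => MonoidAlgebra.single (w j)⁻¹ (1 : R)) :
        Matrix κ κ (MonoidAlgebra R Γ))) i j = _
    rw [hpm, Matrix.mul_diagonal, Matrix.diagonal_mul]
  have hMc : ∀ i j g, ((M : Matrix κ κ (MonoidAlgebra R Γ)) i j).coeff g ≠ 0 →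
      r i = r j ∧ g ∈ C (r i) := by
    intro i j g hg
    rw [hM, MonoidAlgebra.coeff_mul_single_apply, MonoidAlgebra.coeff_single_mul_apply, one_mul,
      mul_one, inv_inv] at hg
    have h1 := h i j _ hg
    refine ⟨h1.1, ?_⟩
    have h2 := h1.2
    have h3 : u (σ i) * ((u (σ i))⁻¹ * (g * w j)) * (w j)⁻¹ = g := by group
    rwa [h3] at h2
  constructor
  · intro W hW
    refine ⟨M, mem_of_pattern r C M hMc W hW, ?_⟩
    simp only [M]; group
  · have h4 := inv_pattern r r C _ _ M.mul_inv M.inv_mul hMc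
    intro i j g hg
    have h5 : (↑A⁻¹ : Matrix κ κ (MonoidAlgebra R Γ)) i (σ j)
        = MonoidAlgebra.single (w i)⁻¹ 1 * (↑M⁻¹ : Matrix κ κ (MonoidAlgebra R Γ)) i j
          * MonoidAlgebra.single (u (σ j)) 1 := by
      have h6 : A⁻¹ = (dguR R w)⁻¹ * (M⁻¹ * puR R Γ σ) * dguR R u := by
        simp only [M]; group
      rw [h6]
      change (Matrix.diagonal (fun i => MonoidAlgebra.single (w i)⁻¹ (1 : R))
        * ((↑M⁻¹ : Matrix κ κ (MonoidAlgebra R Γ))
          * (1 : Matrix κ κ (MonoidAlgebra R Γ)).submatrix σ id)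
        * Matrix.diagonal (fun j => MonoidAlgebra.single (u j) (1 : R)) :
          Matrix κ κ (MonoidAlgebra R Γ)) i (σ j) = _
      rw [Matrix.mul_diagonal, Matrix.diagonal_mul]
      congr 2
      rw [Matrix.mul_apply]
      simp only [Matrix.submatrix_apply, id, Matrix.one_apply]
      rw [Finset.sum_eq_single j]
      · simp
      · intro b _ hb; rw [if_neg (fun h => hb (σ.injective h)), mul_zero]
      · intro h; exact absurd (Finset.mem_univ _) h
    rw [h5, MonoidAlgebra.coeff_mul_single_apply, MonoidAlgebra.coeff_single_mul_apply, one_mul,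
      mul_one, inv_inv] at hg
    exact h4 i j _ hg |>.imp id (fun h => by rwa [← mul_assoc] at h)

/-- **Small norm invertible matrices, all groups.** -/
theorem small_form {κ : Type} [Fintype κ] [DecidableEq κ] (A : (Matrix κ κ (MonoidAlgebra ℤ Γ))ˣ)
    (c : ℝ) (hc0 : 0 < c) (hc : c ^ 2 < 9 / 2)
    (hA : NormLE (A : Matrix κ κ (MonoidAlgebra ℤ Γ)) c) :
    (∃ (r : κ → κ ⊕ κ) (V : κ ⊕ κ → Subgroup Γ) (u w : κ → Γ) (σ : Equiv.Perm κ),
      (∀ b, VCy (V b)) ∧
      (∀ i j g, ((A : Matrix κ κ (MonoidAlgebra ℤ Γ)) (σ i) j).coeff g ≠ 0 →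
        r i = r j ∧ u (σ i) * g * (w j)⁻¹ ∈ V (r i)) ∧
      (∀ i j g, ((↑A⁻¹ : Matrix κ κ (MonoidAlgebra ℤ Γ)) i (σ j)).coeff g ≠ 0 →
        r i = r j ∧ w i * g * (u (σ j))⁻¹ ∈ V (r i))) ∧
    A ∈ VCG ℤ Γ κ := by
  obtain ⟨ρ, u, C, hC, hst⟩ := structure_vc _ c hc0 hc hA
  obtain ⟨σ, hσ⟩ := aug_perm A
  have hlab : ∀ i, ρ (Sum.inl (σ i)) = ρ (Sum.inr i) := by
    intro i
    have h1 := hσ i
    by_contra h2
    apply h1
    ext g
    by_contra h3
    exact h2 (hst _ _ g h3).1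
  have hpat : ∀ i j g, ((A : Matrix κ κ (MonoidAlgebra ℤ Γ)) (σ i) j).coeff g ≠ 0 →
      ρ (Sum.inr i) = ρ (Sum.inr j) ∧
        u (Sum.inl (σ i)) * g * (u (Sum.inr j))⁻¹ ∈ C (ρ (Sum.inr i)) := by
    intro i j g hg
    have h2 := hst _ _ g hg
    rwa [hlab] at h2
  obtain ⟨h1, h2⟩ := monomial_form A (fun i => ρ (Sum.inr i)) C (fun i => u (Sum.inl i))
    (fun j => u (Sum.inr j)) σ hpat
  refine ⟨⟨fun i => ρ (Sum.inr i), C, fun i => u (Sum.inl i), fun j => u (Sum.inr j), σ, hC,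
    hpat, h2⟩, ?_⟩
  obtain ⟨M, hM, hAM⟩ := h1 (VCG ℤ Γ κ) (fun i => glim_le_VCG _ (hC _))
  rw [hAM]
  have hz : ∀ g : Γ, glim ℤ κ (Subgroup.zpowers g) ≤ VCG ℤ Γ κ := fun g =>
    glim_le_VCG _ (VCy_zpowers g)
  have hb : glim ℤ κ (⊥ : Subgroup Γ) ≤ VCG ℤ Γ κ := by
    have := hz 1
    rwa [Subgroup.zpowers_one_eq_bot] at this
  exact mul_mem (mul_mem (mul_mem (inv_mem (dguR_mem _ _ hz)) (inv_mem (puR_mem _ _ hb))) hM)
    (dguR_mem _ _ hz)

end TH57.Thr
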