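import Pool.Agent.TH57.Thr.VCK
import Pool.Agent.TH57.Thr.KZero

set_option autoImplicit false
set_option linter.unusedSectionVars false
set_option linter.style.haveILetI false

/-! Modules with a presentation matrix of a block pattern are direct sums of induced modules. -/

namespace TH57.Thr

open Matrix

section reg

variable {R : Type} [Ring R] {κ ι : Type} [Fintype κ] [DecidableEq κ] [Fintype ι] [DecidableEq ι]

theorem projective_of_regular (B : Matrix ι κ R) (Y : Matrix κ ι R) (hY : B * Y * B = B) :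
    Module.Projective R ((κ → R) ⧸ LinearMap.range B.vecMulLinear) := by
  let f : (κ → R) →ₗ[R] (κ → R) := LinearMap.id - (Y * B).vecMulLinear
  have hf : ∀ x, f x = x - x ᵥ* (Y * B) := fun x => rfl
  have hker : LinearMap.range B.vecMulLinear ≤ LinearMap.ker f := by
    rintro _ ⟨y, rfl⟩
    rw [LinearMap.mem_ker, hf, Matrix.vecMulLinear_apply, Matrix.vecMul_vecMul,
      ← Matrix.mul_assoc, hY, sub_self]
  refine Module.Projective.of_split ((LinearMap.range B.vecMulLinear).liftQ f hker)
    (LinearMap.range B.vecMulLinear).mkQ ?_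
  apply Submodule.linearMap_qext
  refine LinearMap.ext fun x => ?_
  change (LinearMap.range B.vecMulLinear).mkQ (f x) = (LinearMap.range B.vecMulLinear).mkQ x
  rw [hf, map_sub, sub_eq_self, ← LinearMap.mem_ker, Submodule.ker_mkQ]
  exact ⟨x ᵥ* Y, by rw [Matrix.vecMulLinear_apply, Matrix.vecMul_vecMul]⟩

end reg

variable {R : Type} [Ring R] {Γ : Type} [Group Γ]

theorem comap_mulR' {K : Type} [Group K] (f : K →* Γ) (hf : Function.Injective f)
    (y : MonoidAlgebra R Γ) (x : MonoidAlgebra R K) :
    MonoidAlgebra.comapDomain f hf (y * MonoidAlgebra.mapDomainRingHom R f x)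
      = MonoidAlgebra.comapDomain f hf y * x := by
  induction x using MonoidAlgebra.induction_linear with
  | zero => simp
  | add x1 x2 h1 h2 => rw [map_add, mul_add, MonoidAlgebra.comapDomain_add, h1, h2, mul_add]
  | single k z =>
    ext k'
    simp only [MonoidAlgebra.mapDomainRingHom_apply, MonoidAlgebra.mapDomain_single,
      MonoidAlgebra.coeff_comapDomain, Finsupp.comapDomain_apply,
      MonoidAlgebra.coeff_mul_single_apply]
    rw [← map_inv, ← map_mul]

section pattern

variable {ι κ β : Type} [Fintype ι] [Fintype κ] [DecidableEq ι] [DecidableEq κ] [DecidableEq β]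
  (A : Matrix ι κ (MonoidAlgebra R Γ)) (r : ι → β) (s : κ → β) (C : β → Subgroup Γ)
  (u : ι → Γ) (w : κ → Γ)

/-- the rescaled matrix -/
noncomputable def scl : Matrix ι κ (MonoidAlgebra R Γ) := fun i j =>
  MonoidAlgebra.single (u i) 1 * A i j * MonoidAlgebra.single (w j)⁻¹ 1

/-- the block of label `b`, over the group ring of the subgroup `C b` -/
noncomputable def blkm (b : β) :
    Matrix {i // r i = b} {j // s j = b} (MonoidAlgebra R (C b)) := fun i j =>
  MonoidAlgebra.comapDomain (C b).subtype (C b).subtype_injective (scl A u w i.1 j.1)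

/-- the same matrix over the group ring of the whole group -/
noncomputable def ind {H : Subgroup Γ} {ι' κ' : Type} (B : Matrix ι' κ' (MonoidAlgebra R H)) :
    Matrix ι' κ' (MonoidAlgebra R Γ) := B.map (MonoidAlgebra.mapDomainRingHom R H.subtype)

variable (h : ∀ i j g, (A i j).coeff g ≠ 0 → r i = s j ∧ u i * g * (w j)⁻¹ ∈ C (r i))

include h in
theorem scl_supp : ∀ i j g, (scl A u w i j).coeff g ≠ 0 → r i = s j ∧ g ∈ C (r i) := by
  intro i j g hg
  rw [scl, MonoidAlgebra.coeff_mul_single_apply, MonoidAlgebra.coeff_single_mul_apply, one_mul,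
    mul_one, inv_inv] at hg
  have h1 := h i j _ hg
  refine ⟨h1.1, ?_⟩
  have h2 := h1.2
  have h3 : u i * ((u i)⁻¹ * (g * w j)) * (w j)⁻¹ = g := by group
  rwa [h3] at h2

include h in
theorem ind_blkm (b : β) (i : {i // r i = b}) (j : {j // s j = b}) :
    ind (blkm A r s C u w b) i j = scl A u w i.1 j.1 := by
  apply map_comapR (C b).subtype (C b).subtype_injective
  intro g hg
  rw [Subgroup.range_subtype]
  have := (scl_supp A r s C u w h i.1 j.1 g hg).2
  rwa [i.2] at this

include h in
theorem coker_pattern :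
    Nonempty (((κ → MonoidAlgebra R Γ) ⧸ LinearMap.range A.vecMulLinear)
      ≃ₗ[MonoidAlgebra R Γ] (∀ b : β, ({j // s j = b} → MonoidAlgebra R Γ) ⧸
        LinearMap.range (ind (blkm A r s C u w b)).vecMulLinear)) := by
  classical
  -- column rescaling
  let Φ : ∀ b : β, (κ → MonoidAlgebra R Γ) →ₗ[MonoidAlgebra R Γ]
      ({j // s j = b} → MonoidAlgebra R Γ) := fun b =>
    { toFun := fun x j => x j.1 * MonoidAlgebra.single (w j.1)⁻¹ 1
      map_add' := fun x y => by funext j; simp [add_mul]
      map_smul' := fun a x => by funext j; simp [mul_assoc] }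
  have hΦ : ∀ b x j, Φ b x j = x j.1 * MonoidAlgebra.single (w j.1)⁻¹ 1 := fun _ _ _ => rfl
  have huu : ∀ g : Γ, (MonoidAlgebra.single g⁻¹ 1 : MonoidAlgebra R Γ) *
      MonoidAlgebra.single g 1 = 1 := by
    intro g
    rw [MonoidAlgebra.single_mul_single, inv_mul_cancel, mul_one, MonoidAlgebra.one_def]
  have huu' : ∀ g : Γ, (MonoidAlgebra.single g 1 : MonoidAlgebra R Γ) *
      MonoidAlgebra.single g⁻¹ 1 = 1 := by
    intro g
    rw [MonoidAlgebra.single_mul_single, mul_inv_cancel, mul_one, MonoidAlgebra.one_def]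
  -- the basic formula
  have key : ∀ (b : β) (y : ι → MonoidAlgebra R Γ), Φ b (y ᵥ* A)
      = (fun i : {i // r i = b} => y i.1 * MonoidAlgebra.single (u i.1)⁻¹ 1) ᵥ*
        ind (blkm A r s C u w b) := by
    intro b y
    funext j
    rw [hΦ]
    simp only [Matrix.vecMul, dotProduct]
    simp only [ind_blkm A r s C u w h]
    rw [Finset.sum_mul, ← Finset.sum_subtype (Finset.univ.filter (fun i => r i = b))
      (by simp) (fun i => y i * MonoidAlgebra.single (u i)⁻¹ 1 * scl A u w i j.1),
      Finset.sum_filter]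
    refine Finset.sum_congr rfl fun i _ => ?_
    split_ifs with hi
    · simp only [scl]
      calc y i * A i j.1 * MonoidAlgebra.single (w j.1)⁻¹ 1
          = y i * (MonoidAlgebra.single (u i)⁻¹ 1 * MonoidAlgebra.single (u i) 1) * A i j.1 *
            MonoidAlgebra.single (w j.1)⁻¹ 1 := by rw [huu, mul_one]
        _ = _ := by simp only [mul_assoc]
    · have h0 : A i j.1 = 0 := eq_zero_of fun g hg => hi (by rw [(h i j.1 g hg).1]; exact j.2)
      rw [h0, mul_zero, zero_mul]
  let F : (κ → MonoidAlgebra R Γ) →ₗ[MonoidAlgebra R Γ]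
      (∀ b : β, ({j // s j = b} → MonoidAlgebra R Γ) ⧸
        LinearMap.range (ind (blkm A r s C u w b)).vecMulLinear) :=
    LinearMap.pi fun b => (LinearMap.range (ind (blkm A r s C u w b)).vecMulLinear).mkQ ∘ₗ Φ b
  have hF : ∀ x b, F x b
      = (LinearMap.range (ind (blkm A r s C u w b)).vecMulLinear).mkQ (Φ b x) := fun _ _ => rfl
  have hker : LinearMap.ker F = LinearMap.range A.vecMulLinear := by
    ext x
    rw [LinearMap.mem_ker]
    constructor
    · intro hx
      have hx' : ∀ b, ∃ z : {i // r i = b} → MonoidAlgebra R Γ,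
          z ᵥ* ind (blkm A r s C u w b) = Φ b x := by
        intro b
        have h1 := congrFun hx b
        rw [hF, Pi.zero_apply, ← LinearMap.mem_ker, Submodule.ker_mkQ] at h1
        exact h1
      choose z hz using hx'
      refine ⟨fun i => z (r i) ⟨i, rfl⟩ * MonoidAlgebra.single (u i) 1, ?_⟩
      rw [Matrix.vecMulLinear_apply]
      funext j
      have h1 := key (s j) (fun i => z (r i) ⟨i, rfl⟩ * MonoidAlgebra.single (u i) 1)
      have h2 : (fun i : {i // r i = s j} => z (r i.1) ⟨i.1, rfl⟩ *
          MonoidAlgebra.single (u i.1) 1 * MonoidAlgebra.single (u i.1)⁻¹ 1) = z (s j) := by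
        funext i
        rw [mul_assoc, huu', mul_one]
        obtain ⟨i, hi⟩ := i
        have : ∀ (b : β) (hb : r i = b), z (r i) ⟨i, rfl⟩ = z b ⟨i, hb⟩ := by
          intro b hb; subst hb; rfl
        exact this _ hi
      rw [h2, hz] at h1
      have h3 := congrFun h1 ⟨j, rfl⟩
      rw [hΦ, hΦ] at h3
      have h4 := congrArg (· * MonoidAlgebra.single (w j) 1) h3
      beta_reduce at h4
      rwa [mul_assoc, mul_assoc, huu, mul_one, mul_one] at h4
    · rintro ⟨y, rfl⟩
      funext b
      rw [hF, Pi.zero_apply, ← LinearMap.mem_ker, Submodule.ker_mkQ, Matrix.vecMulLinear_apply,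
        key]
      exact ⟨_, rfl⟩
  have hsurj : Function.Surjective F := by
    intro y
    have h1 : ∀ b, ∃ z : {j // s j = b} → MonoidAlgebra R Γ,
        (LinearMap.range (ind (blkm A r s C u w b)).vecMulLinear).mkQ z = y b := fun b =>
      Submodule.mkQ_surjective _ _
    choose z hz using h1
    refine ⟨fun j => z (s j) ⟨j, rfl⟩ * MonoidAlgebra.single (w j) 1, ?_⟩
    funext b
    rw [hF, ← hz b]
    congr 1
    funext j
    rw [hΦ, mul_assoc, huu', mul_one]
    obtain ⟨j, hj⟩ := j
    subst hj
    rfl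
  exact ⟨(Submodule.quotEquivOfEq _ _ hker.symm).trans
    (LinearMap.quotKerEquivOfSurjective F hsurj)⟩

include h in
theorem regular_blocks (Y : Matrix κ ι (MonoidAlgebra R Γ)) (hY : A * Y * A = A) (b : β) :
    ∃ Z : Matrix {j // s j = b} {i // r i = b} (MonoidAlgebra R (C b)),
      blkm A r s C u w b * Z * blkm A r s C u w b = blkm A r s C u w b := by
  classical
  have huu : ∀ g : Γ, (MonoidAlgebra.single g⁻¹ 1 : MonoidAlgebra R Γ) *
      MonoidAlgebra.single g 1 = 1 := by
    intro g
    rw [MonoidAlgebra.single_mul_single, inv_mul_cancel, mul_one, MonoidAlgebra.one_def]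
  have hs := scl_supp A r s C u w h
  have hs0 : ∀ i j, r i ≠ s j → scl A u w i j = 0 := fun i j hij =>
    eq_zero_of fun g hg => hij (hs i j g hg).1
  let Y' : Matrix κ ι (MonoidAlgebra R Γ) := fun j i =>
    MonoidAlgebra.single (w j) 1 * Y j i * MonoidAlgebra.single (u i)⁻¹ 1
  have e1 : scl A u w * Y' * scl A u w = scl A u w := by
    ext1 i l
    have h1 : ∀ i j, (A * Y * A) i j = A i j := fun i j => by rw [hY]
    simp only [Matrix.mul_apply] at h1 ⊢
    simp only [scl, Y']
    have h2 : ∀ k, (∑ j, MonoidAlgebra.single (u i) 1 * A i j * MonoidAlgebra.single (w j)⁻¹ 1 *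
          (MonoidAlgebra.single (w j) 1 * Y j k * MonoidAlgebra.single (u k)⁻¹ 1)) *
        (MonoidAlgebra.single (u k) 1 * A k l * MonoidAlgebra.single (w l)⁻¹ 1)
        = MonoidAlgebra.single (u i) 1 * ((∑ j, A i j * Y j k) * A k l) *
          MonoidAlgebra.single (w l)⁻¹ 1 := by
      intro k
      have h3 : ∑ j, MonoidAlgebra.single (u i) 1 * A i j * MonoidAlgebra.single (w j)⁻¹ 1 *
          (MonoidAlgebra.single (w j) 1 * Y j k * MonoidAlgebra.single (u k)⁻¹ 1)
          = MonoidAlgebra.single (u i) 1 * (∑ j, A i j * Y j k) *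
            MonoidAlgebra.single (u k)⁻¹ 1 := by
        rw [Finset.mul_sum, Finset.sum_mul]
        refine Finset.sum_congr rfl fun j _ => ?_
        calc _ = MonoidAlgebra.single (u i) 1 * A i j * (MonoidAlgebra.single (w j)⁻¹ 1 *
              MonoidAlgebra.single (w j) 1) * Y j k * MonoidAlgebra.single (u k)⁻¹ 1 := by
              simp only [mul_assoc]
          _ = _ := by rw [huu, mul_one, mul_assoc (MonoidAlgebra.single (u i) 1)]
      rw [h3]
      calc _ = MonoidAlgebra.single (u i) 1 * (∑ j, A i j * Y j k) *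
            (MonoidAlgebra.single (u k)⁻¹ 1 * MonoidAlgebra.single (u k) 1) * A k l *
            MonoidAlgebra.single (w l)⁻¹ 1 := by simp only [mul_assoc]
        _ = _ := by rw [huu, mul_one, mul_assoc (MonoidAlgebra.single (u i) 1)]
    rw [Finset.sum_congr rfl fun k _ => h2 k, ← Finset.sum_mul, ← Finset.mul_sum, h1]
  let Z : Matrix {j // s j = b} {i // r i = b} (MonoidAlgebra R (C b)) := fun j i =>
    MonoidAlgebra.comapDomain (C b).subtype (C b).subtype_injective (Y' j.1 i.1)
  refine ⟨Z, ?_⟩
  ext1 i l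
  have h4 := congrArg (MonoidAlgebra.comapDomain (C b).subtype (C b).subtype_injective)
    (congrFun (congrFun e1 i.1) l.1)
  have hsum : ∀ {α : Type} (t : Finset α) (f : α → MonoidAlgebra R Γ),
      MonoidAlgebra.comapDomain (C b).subtype (C b).subtype_injective (∑ k ∈ t, f k)
        = ∑ k ∈ t, MonoidAlgebra.comapDomain (C b).subtype (C b).subtype_injective (f k) :=
    fun t f => map_sum (MonoidAlgebra.comapDomainAddMonoidHom (R := R) (C b).subtype
      (C b).subtype_injective) f t
  change _ = MonoidAlgebra.comapDomain (C b).subtype (C b).subtype_injective (scl A u w i.1 l.1)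
  rw [← h4]
  simp only [Matrix.mul_apply]
  have e2 : ∑ k : {i // r i = b}, (∑ j : {j // s j = b}, blkm A r s C u w b i j * Z j k) *
      blkm A r s C u w b k l = ∑ k, if r k = b then
        (∑ j : {j // s j = b}, blkm A r s C u w b i j *
        MonoidAlgebra.comapDomain (C b).subtype (C b).subtype_injective (Y' j.1 k)) *
        MonoidAlgebra.comapDomain (C b).subtype (C b).subtype_injective (scl A u w k l.1)
        else 0 := by
    rw [← Finset.sum_filter]
    exact (Finset.sum_subtype (Finset.univ.filter (fun i => r i = b)) (by simp)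
      (fun k => (∑ j : {j // s j = b}, blkm A r s C u w b i j *
      MonoidAlgebra.comapDomain (C b).subtype (C b).subtype_injective (Y' j.1 k)) *
      MonoidAlgebra.comapDomain (C b).subtype (C b).subtype_injective (scl A u w k l.1))).symm
  rw [hsum, e2]
  refine Finset.sum_congr rfl fun k _ => ?_
  split_ifs with hk
  · have h5 : scl A u w k l.1 = MonoidAlgebra.mapDomainRingHom R (C b).subtype
        (MonoidAlgebra.comapDomain (C b).subtype (C b).subtype_injective (scl A u w k l.1)) :=
      (ind_blkm A r s C u w h b ⟨k, hk⟩ l).symm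
    conv_rhs => rw [h5]
    rw [comap_mulR']
    congr 1
    have e3 : ∑ j : {j // s j = b}, blkm A r s C u w b i j *
        MonoidAlgebra.comapDomain (C b).subtype (C b).subtype_injective (Y' j.1 k)
        = ∑ j, if s j = b then MonoidAlgebra.comapDomain (C b).subtype (C b).subtype_injective
          (scl A u w i.1 j) *
          MonoidAlgebra.comapDomain (C b).subtype (C b).subtype_injective (Y' j k) else 0 := by
      rw [← Finset.sum_filter]
      exact (Finset.sum_subtype (Finset.univ.filter (fun j => s j = b)) (by simp)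
        (fun j => MonoidAlgebra.comapDomain (C b).subtype (C b).subtype_injective
        (scl A u w i.1 j) *
        MonoidAlgebra.comapDomain (C b).subtype (C b).subtype_injective (Y' j k))).symm
    rw [hsum, e3]
    refine Finset.sum_congr rfl fun j _ => ?_
    split_ifs with hj
    · have h6 : scl A u w i.1 j = MonoidAlgebra.mapDomainRingHom R (C b).subtype
          (MonoidAlgebra.comapDomain (C b).subtype (C b).subtype_injective (scl A u w i.1 j)) :=
        (ind_blkm A r s C u w h b i ⟨j, hj⟩).symm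
      conv_rhs => rw [h6]
      rw [comap_mulR]
    · rw [hs0 i.1 j (fun hh => hj (by rw [← hh]; exact i.2)), zero_mul,
        MonoidAlgebra.comapDomain_zero]
  · rw [hs0 k l.1 (fun hh => hk (by rw [hh]; exact l.2)), mul_zero,
      MonoidAlgebra.comapDomain_zero]

end pattern

theorem coker_reindex {R : Type} [Ring R] {ι κ ι' κ' : Type} [Fintype ι] [Fintype κ] [Fintype ι']
    [Fintype κ'] (B : Matrix ι κ R) (e : ι' ≃ ι) (f : κ' ≃ κ) :
    Nonempty (((κ → R) ⧸ LinearMap.range B.vecMulLinear) ≃ₗ[R]
      ((κ' → R) ⧸ LinearMap.range (B.submatrix e f).vecMulLinear)) := by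
  refine ⟨Submodule.Quotient.equiv _ _ (LinearEquiv.funCongrLeft R R f) ?_⟩
  ext y
  rw [Submodule.mem_map]
  have key : ∀ x : ι → R, (LinearEquiv.funCongrLeft R R f) (x ᵥ* B)
      = (x ∘ e) ᵥ* B.submatrix e f := by
    intro x
    funext j
    change (x ᵥ* B) (f j) = _
    simp only [Matrix.vecMul, dotProduct, Matrix.submatrix_apply, Function.comp]
    exact (Equiv.sum_comp e (fun i => x i * B i (f j))).symm
  constructor
  · rintro ⟨_, ⟨x, rfl⟩, rfl⟩
    exact ⟨x ∘ e, (key x).symm⟩
  · rintro ⟨x, rfl⟩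
    refine ⟨(x ∘ e.symm) ᵥ* B, ⟨_, rfl⟩, ?_⟩
    change (LinearEquiv.funCongrLeft R R f) ((x ∘ e.symm) ᵥ* B) = _
    rw [key]
    congr 1
    funext i
    simp

/-- **Modules of small norm, all groups.** -/
theorem module_small (G : Type) [Group G]
    (P : Type) [AddCommGroup P] [Module (MonoidAlgebra ℤ G) P]
    (m n : ℕ) (A : Matrix (Fin m) (Fin n) (MonoidAlgebra ℤ G))
    (e : P ≃ₗ[MonoidAlgebra ℤ G]
      ((Fin n → MonoidAlgebra ℤ G) ⧸ LinearMap.range A.vecMulLinear))
    (c : ℝ) (hc0 : 0 < c) (hc : c ^ 2 < 9 / 2) (hA : NormLE A c) :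
    ∃ (k : ℕ) (V : Fin k → Subgroup G) (p q : Fin k → ℕ)
      (B : ∀ b, Matrix (Fin (p b)) (Fin (q b)) (MonoidAlgebra ℤ (V b))),
      (∀ b, VCy (V b)) ∧
      Nonempty (P ≃ₗ[MonoidAlgebra ℤ G] ∀ b, ((Fin (q b) → MonoidAlgebra ℤ G) ⧸
        LinearMap.range ((B b).map
          (MonoidAlgebra.mapDomainRingHom ℤ (V b).subtype)).vecMulLinear)) ∧
      (Module.Projective (MonoidAlgebra ℤ G) P →
        ∀ b, Module.Projective (MonoidAlgebra ℤ (V b)) ((Fin (q b) → MonoidAlgebra ℤ (V b)) ⧸
          LinearMap.range (B b).vecMulLinear)) := by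
  classical
  obtain ⟨ρ, u, C, hC, hst⟩ := structure_vc A c hc0 hc hA
  let r : Fin m → Fin (m + n) := fun i => finSumFinEquiv (ρ (Sum.inl i))
  let s : Fin n → Fin (m + n) := fun j => finSumFinEquiv (ρ (Sum.inr j))
  let V : Fin (m + n) → Subgroup G := fun b => C (finSumFinEquiv.symm b)
  let u₁ : Fin m → G := fun i => u (Sum.inl i)
  let w₁ : Fin n → G := fun j => u (Sum.inr j)
  have h : ∀ i j g, (A i j).coeff g ≠ 0 → r i = s j ∧ u₁ i * g * (w₁ j)⁻¹ ∈ V (r i) := by
    intro i j g hg
    have h1 := hst i j g hg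
    refine ⟨congrArg _ h1.1, ?_⟩
    simp only [V, r, Equiv.symm_apply_apply]
    exact h1.2
  let er : ∀ b, Fin (Fintype.card {i // r i = b}) ≃ {i // r i = b} := fun b =>
    (Fintype.equivFin _).symm
  let es : ∀ b, Fin (Fintype.card {j // s j = b}) ≃ {j // s j = b} := fun b =>
    (Fintype.equivFin _).symm
  refine ⟨m + n, V, fun b => Fintype.card {i // r i = b}, fun b => Fintype.card {j // s j = b},
    fun b => (blkm A r s V u₁ w₁ b).submatrix (er b) (es b), fun b => hC _, ?_, ?_⟩
  · obtain ⟨φ⟩ := coker_pattern A r s V u₁ w₁ h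
    have h2 : ∀ b, Nonempty (((({j // s j = b} → MonoidAlgebra ℤ G) ⧸
        LinearMap.range (ind (blkm A r s V u₁ w₁ b)).vecMulLinear)) ≃ₗ[MonoidAlgebra ℤ G]
        ((Fin (Fintype.card {j // s j = b}) → MonoidAlgebra ℤ G) ⧸
        LinearMap.range (((blkm A r s V u₁ w₁ b).submatrix (er b) (es b)).map
          (MonoidAlgebra.mapDomainRingHom ℤ (V b).subtype)).vecMulLinear)) := fun b =>
      coker_reindex (ind (blkm A r s V u₁ w₁ b)) (er b) (es b)
    exact ⟨(e.trans φ).trans (LinearEquiv.piCongrRight fun b => (h2 b).some)⟩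
  · intro hP b
    obtain ⟨Y, hY⟩ := regular_of_projective A P hP e
    obtain ⟨Z, hZ⟩ := regular_blocks A r s V u₁ w₁ h Y hY b
    obtain ⟨ψ⟩ := coker_reindex (blkm A r s V u₁ w₁ b) (er b) (es b)
    haveI := projective_of_regular _ Z hZ
    exact Module.Projective.of_equiv ψ

end TH57.Thr
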